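import Pool.Agent.TH6.PF.Pat
import Pool.Agent.TH57.Thr.Small
import Pool.Agent.N510.LT.UMod

set_option autoImplicit false

/-! The norm of a matrix with smaller coefficients. -/

namespace Pool.Agent.N510.CT

open Matrix TH57.Thr TH6.PF

variable {G : Type} [Group G]

/-- absolute values of the coefficients -/
noncomputable def av (x : MonoidAlgebra ℝ G) : MonoidAlgebra ℝ G :=
  .ofCoeff (x.coeff.mapRange (fun r => |r|) abs_zero)

theorem coeff_av (x : MonoidAlgebra ℝ G) (g : G) : (av x).coeff g = |x.coeff g| := rfl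

theorem support_av (x : MonoidAlgebra ℝ G) : (av x).coeff.support = x.coeff.support := by
  ext g
  rw [Finsupp.mem_support_iff, Finsupp.mem_support_iff, coeff_av, abs_ne_zero]

theorem n1_av (x : MonoidAlgebra ℝ G) : n1 (av x) = n1 x := by
  unfold n1
  rw [support_av]
  exact Finset.sum_congr rfl fun g _ => by rw [coeff_av, sq_abs]

theorem abs_coeff_mul_le (x a b : MonoidAlgebra ℝ G) (h : ∀ g, |a.coeff g| ≤ b.coeff g) (g : G) :
    |(x * a).coeff g| ≤ (av x * b).coeff g := by
  rw [MonoidAlgebra.coeff_mul_apply_left, MonoidAlgebra.coeff_mul_apply_left, Finsupp.sum,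
    Finsupp.sum, support_av]
  refine (Finset.abs_sum_le_sum_abs _ _).trans (Finset.sum_le_sum fun k _ => ?_)
  rw [abs_mul, coeff_av]
  exact mul_le_mul_of_nonneg_left (h _) (abs_nonneg _)

theorem n1_mono (x y : MonoidAlgebra ℝ G) (h : ∀ g, |x.coeff g| ≤ y.coeff g) : n1 x ≤ n1 y := by
  unfold n1
  have hsub : x.coeff.support ⊆ y.coeff.support := by
    intro g hg
    rw [Finsupp.mem_support_iff] at hg ⊢
    have h1 := h g
    have h2 := abs_pos.2 hg
    intro h3
    rw [h3] at h1
    linarith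
  refine (Finset.sum_le_sum (g := fun g => y.coeff g ^ 2) fun g _ => ?_).trans
    (Finset.sum_le_sum_of_subset_of_nonneg hsub fun _ _ _ => sq_nonneg _)
  rw [← sq_abs]
  exact pow_le_pow_left₀ (abs_nonneg _) (h g) 2

variable {ι κ : Type} [Fintype ι] [Fintype κ]

theorem normLE_of_dom (A B : Matrix ι κ (MonoidAlgebra ℤ G))
    (h : ∀ i j g, |(A i j).coeff g| ≤ (B i j).coeff g) (c : ℝ) (hB : NormLE B c) : NormLE A c := by
  intro x
  have h1 : normSq (fun i => av (x i)) = normSq x := by
    rw [normSq_eq, normSq_eq]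
    exact Finset.sum_congr rfl fun i _ => n1_av _
  have h2 := hB (fun i => av (x i))
  rw [h1] at h2
  refine le_trans ?_ h2
  rw [normSq_eq, normSq_eq]
  refine Finset.sum_le_sum fun j _ => n1_mono _ _ fun g => ?_
  rw [Matrix.vecMul, Matrix.vecMul, dotProduct, dotProduct, MonoidAlgebra.coeff_sum,
    MonoidAlgebra.coeff_sum, Finsupp.finsetSum_apply, Finsupp.finsetSum_apply]
  refine (Finset.abs_sum_le_sum_abs _ _).trans (Finset.sum_le_sum fun i _ => ?_)
  apply abs_coeff_mul_le
  intro k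
  have h3 := h i j k
  simp only [toReal, Matrix.map_apply, MonoidAlgebra.coeff_mapRingHom]
  change |(((A i j).coeff k : ℤ) : ℝ)| ≤ (((B i j).coeff k : ℤ) : ℝ)
  exact_mod_cast h3

/-- coefficients `0`, `1`, `-1` -/
theorem normLE_of_thin (A : Matrix ι κ (MonoidAlgebra ℤ G))
    (hA : LT.CS ({1, -1} : Set ℤ) A) (c : ℝ) (h : ThinLE A c) : NormLE A c := by
  refine normLE_of_dom A (pat A) (fun i j g => ?_) c h
  rw [coeff_pat]
  by_cases h0 : (A i j).coeff g = 0
  · rw [h0, ind_zero, abs_zero]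
  · rw [ind_of_ne h0]
    rcases hA i j g h0 with h1 | h1 <;> rw [h1] <;> norm_num

theorem gens_int : LT.Gens ({1, -1} : Set ℤ) where
  one := Or.inl rfl
  neg := by
    rintro s (rfl | rfl)
    · exact Or.inr rfl
    · exact Or.inl rfl
  gen := by
    rw [eq_top_iff]
    intro z _
    have h1 : (1 : ℤ) ∈ AddSubgroup.closure ({1, -1} : Set ℤ) :=
      AddSubgroup.subset_closure (Or.inl rfl)
    have h2 := (AddSubgroup.closure ({1, -1} : Set ℤ)).zsmul_mem h1 z
    rwa [smul_eq_mul, mul_one] at h2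

end Pool.Agent.N510.CT
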