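import Pool.Agent.N510.CT.Geo

set_option autoImplicit false
set_option linter.style.haveILetI false
set_option linter.unusedSectionVars false

/-! A connected bipartite graph with a cocompact group action and integral weights of norm at most
`3 / √2` has no long tripods. -/

namespace Pool.Agent.N510.CT

open SimpleGraph TH57.Thr

variable {V : Type*}

theorem three_bool : ∀ a b c : Bool, a ≠ b → c ≠ b → c ≠ a → False := by decide

section action

variable {S : Type*} [Group S] [MulAction S V]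

/-- There is a vertex outside the tripod adjacent to the third arm. -/
theorem exists_pendant {Γ : SimpleGraph V} (hΓ : Γ.Connected)
    (hadj : ∀ (g : S) u v, Γ.Adj u v → Γ.Adj (g • u) (g • v))
    (R : Finset V) (hR : ∀ v : V, ∃ g : S, ∃ r ∈ R, g • r = v) :
    ∃ D : ℕ, ∀ N, 2 * D + 4 ≤ N → ∀ (a : Fin 3 → ℕ → V) (o : V), (∀ i, a i 0 = o) →
    (∀ i k l, k ≤ N → l ≤ N → Γ.dist (a i k) (a i l) = (k - l) + (l - k)) →
    (∀ i j k l, i ≠ j → 1 ≤ k → k ≤ N → 1 ≤ l → l ≤ N → 2 ≤ Γ.dist (a i k) (a j l)) →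
    (∀ j k l, j ≠ 2 → k ≤ N → l ≤ N → k ≤ Γ.dist (a 2 k) (a j l)) →
    ∃ (y : V) (k : ℕ), (∀ i l, l ≤ N → y ≠ a i l) ∧ 4 ≤ k ∧ k ≤ 2 * D + 4 ∧
      Γ.Adj y (a 2 k) := by
  classical
  have hds := dist_smul (S := S) hΓ hadj
  refine ⟨(R ×ˢ R).sup (fun p => Γ.dist p.1 p.2), ?_⟩
  set D := (R ×ˢ R).sup (fun p => Γ.dist p.1 p.2) with hD
  have hD1 : ∀ r ∈ R, ∀ r' ∈ R, Γ.dist r r' ≤ D := fun r hr r' hr' =>
    Finset.le_sup (f := fun p : V × V => Γ.dist p.1 p.2) (Finset.mk_mem_product hr hr')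
  intro N hN a o h0 h1 h2 h3
  set z := a 2 (D + 4) with hz
  obtain ⟨g, hg⟩ : ∃ g : S, Γ.dist z (g • o) ≤ D := by
    obtain ⟨g₁, r₁, hr₁, e₁⟩ := hR o
    obtain ⟨g₂, r₂, hr₂, e₂⟩ := hR z
    refine ⟨g₂ * g₁⁻¹, ?_⟩
    rw [mul_smul, ← e₁, inv_smul_smul, ← e₂, hds]
    exact hD1 _ hr₂ _ hr₁
  set w := g • o with hw
  obtain ⟨q, hq0, hqd, hq⟩ := exists_geod hΓ z w
  set d := Γ.dist z w with hd
  by_cases hcase : ∃ j, j ≤ d ∧ ∀ i l, l ≤ N → q j ≠ a i l
  · -- the first vertex outside
    have hj1 := Nat.find_spec hcase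
    have hj2 := @Nat.find_min _ _ hcase
    set j := Nat.find hcase with hj
    have hj0 : 0 < j := by
      rcases Nat.eq_zero_or_pos j with h | h
      · exfalso
        rw [h] at hj1
        exact hj1.2 2 (D + 4) (by omega) hq0
      · exact h
    have h4 := hj2 (m := j - 1) (by omega)
    push Not at h4
    obtain ⟨i, k, hk, h5⟩ := h4 (by omega)
    have h6 : Γ.dist z (q (j - 1)) = j - 1 := by
      have := hq 0 (j - 1) (by omega) (by omega)
      rw [hq0] at this
      rw [this]
      omega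
    have hi : i = 2 := by
      by_contra hi
      have := h3 i (D + 4) k hi (by omega) hk
      rw [← h5, ← hz, h6] at this
      omega
    subst hi
    have h7 := h1 2 (D + 4) k (by omega) hk
    rw [← h5, ← hz, h6] at h7
    refine ⟨q j, k, hj1.2, by omega, by omega, ?_⟩
    rw [← h5, ← SimpleGraph.dist_eq_one_iff_adj, hq j (j - 1) hj1.1 (by omega)]
    omega
  · push Not at hcase
    obtain ⟨i, k, hk, h5⟩ := hcase d le_rfl
    rw [hqd] at h5
    have hi : i = 2 := by
      by_contra hi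
      have := h3 i (D + 4) k hi (by omega) hk
      rw [← h5, ← hz] at this
      omega
    subst hi
    have h7 := h1 2 (D + 4) k (by omega) hk
    rw [← h5, ← hz] at h7
    -- three neighbours
    have hnb : ∀ i, Γ.Adj (g • a i 1) (a 2 k) := by
      intro i
      rw [← h5, hw, ← h0 i]
      apply hadj
      rw [← SimpleGraph.dist_eq_one_iff_adj, h1 i 1 0 (by omega) (by omega)]
    have hne : ∀ i j, i ≠ j → g • a i 1 ≠ g • a j 1 := by
      intro i j hij h
      have h8 := MulAction.injective g h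
      have h9 := h2 i j 1 1 hij le_rfl (by omega) le_rfl (by omega)
      rw [h8, SimpleGraph.dist_self] at h9
      omega
    by_cases hout : ∃ i, ∀ j l, l ≤ N → g • a i 1 ≠ a j l
    · obtain ⟨i, hi⟩ := hout
      exact ⟨_, k, hi, by omega, by omega, hnb i⟩
    · exfalso
      push Not at hout
      have hin : ∀ i, g • a i 1 = a 2 (k - 1) ∨ g • a i 1 = a 2 (k + 1) := by
        intro i
        obtain ⟨j, l, hl, h8⟩ := hout i
        have h9 := SimpleGraph.dist_eq_one_iff_adj.2 (hnb i)
        rw [h8, SimpleGraph.dist_comm] at h9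
        have hj : j = 2 := by
          by_contra hj
          have := h3 j k l hj hk hl
          omega
        subst hj
        rw [h1 2 k l hk hl] at h9
        rw [h8]
        have : l = k - 1 ∨ l = k + 1 := by omega
        rcases this with h | h
        · left; rw [h]
        · right; rw [h]
      have c01 := hne 0 1 (by decide)
      have c02 := hne 0 2 (by decide)
      have c12 := hne 1 2 (by decide)
      rcases hin 0 with e0 | e0 <;> rcases hin 1 with e1 | e1 <;> rcases hin 2 with e2 | e2 <;>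
        first
        | exact c01 (e0.trans e1.symm)
        | exact c02 (e0.trans e2.symm)
        | exact c12 (e1.trans e2.symm)

theorem noTripod_closed {Γ : SimpleGraph V} (hΓ : Γ.Connected) (col : V → Bool)
    (hcol : ∀ u v, Γ.Adj u v → col u ≠ col v)
    (W : V → V → ℝ) (hsymm : ∀ u v, W u v = W v u) (hWΓ : ∀ u v, ¬ Γ.Adj u v → W u v = 0)
    (hW1 : ∀ u v, Γ.Adj u v → 1 ≤ |W u v|) (c : ℝ) (hc0 : 0 < c) (hc2 : c ^ 2 ≤ 9 / 2)
    (hc : ∀ (s : Finset V) (f : V → ℝ),
      ∑ u ∈ s, ∑ v ∈ s, W u v * f u * f v ≤ c * ∑ u ∈ s, f u ^ 2)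
    (hadj : ∀ (g : S) u v, Γ.Adj u v → Γ.Adj (g • u) (g • v))
    (R : Finset V) (hR : ∀ v : V, ∃ g : S, ∃ r ∈ R, g • r = v) :
    ∃ N, ¬ HasTripod2 Γ N := by
  classical
  obtain ⟨D, hD⟩ := exists_pendant (S := S) hΓ hadj R hR
  refine ⟨2 * D + 20, ?_⟩
  rintro ⟨a, o, h0, h1, h2, h3⟩
  obtain ⟨y, k, hy, hk4, hkD, hyk⟩ := hD (2 * D + 20) (by omega) a o h0 h1 h2 h3
  set N := 2 * D + 20 with hN
  set t : ℝ := Real.sqrt (1 / 2) with ht
  have ht2 : t ^ 2 = 1 / 2 := Real.sq_sqrt (by norm_num)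
  have ht0 : 0 < t := Real.sqrt_pos.2 (by norm_num)
  have h3t : c ≤ 3 * t := by
    have : c ^ 2 ≤ (3 * t) ^ 2 := by rw [mul_pow, ht2]; linarith
    exact le_of_sq_le_sq this (by positivity)
  -- the first neighbour
  have hex : ∃ m, m ≤ N ∧ Γ.Adj y (a 2 m) := ⟨k, by omega, hyk⟩
  have hm1 := Nat.find_spec hex
  have hm2 := @Nat.find_min _ _ hex
  have hm3 : Nat.find hex ≤ k := Nat.find_min' hex ⟨by omega, hyk⟩
  set m := Nat.find hex with hm
  have hedge : ∀ i k, k < N → Γ.Adj (a i k) (a i (k + 1)) := by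
    intro i k hk
    rw [← SimpleGraph.dist_eq_one_iff_adj, h1 i k (k + 1) (by omega) (by omega)]
    omega
  have hinj : ∀ i j k l, k ≤ N → l ≤ N → a i k = a j l → (k = 0 ∧ l = 0) ∨ (i = j ∧ k = l) := by
    intro i j k l hk hl h
    by_cases hij : i = j
    · subst hij
      right
      refine ⟨rfl, ?_⟩
      have := h1 i k l hk hl
      rw [h, SimpleGraph.dist_self] at this
      omega
    · rcases Nat.eq_zero_or_pos k with hk0 | hk0
      · left
        refine ⟨hk0, ?_⟩
        subst hk0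
        rw [h0 i, ← h0 j] at h
        have := h1 j 0 l (by omega) hl
        rw [h, SimpleGraph.dist_self] at this
        omega
      · rcases Nat.eq_zero_or_pos l with hl0 | hl0
        · exfalso
          subst hl0
          rw [h0 j, ← h0 i] at h
          have := h1 i k 0 hk (by omega)
          rw [h, SimpleGraph.dist_self] at this
          omega
        · exfalso
          have := h2 i j k l hij hk0 hk hl0 hl
          rw [h, SimpleGraph.dist_self] at this
          omega
  refine tripod_gt W hsymm c hc0 hc N a o h0 hinj ?_ ?_ ?_ t ht0 ht2 h3t y hy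
    (hWΓ _ _ Γ.irrefl) m (by omega) (hW1 _ _ hm1.2) ?_
  · intro i k l hk hl h4 h5
    apply hWΓ
    intro h
    have := SimpleGraph.dist_eq_one_iff_adj.2 h
    rw [h1 i k l hk hl] at this
    omega
  · intro i j k l hij hk0 hk hl0 hl
    apply hWΓ
    intro h
    have := SimpleGraph.dist_eq_one_iff_adj.2 h
    have := h2 i j k l hij hk0 hk hl0 hl
    omega
  · intro i k hk
    exact hW1 _ _ (hedge i k hk)
  · intro i l hl hne
    have hyl : Γ.Adj y (a i l) := by
      by_contra h
      exact hne (hWΓ _ _ h)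
    have d1 := SimpleGraph.dist_eq_one_iff_adj.2 hyl
    have d2 := SimpleGraph.dist_eq_one_iff_adj.2 hyk
    have d3 := SimpleGraph.dist_eq_one_iff_adj.2 hm1.2
    have hi : i = 2 := by
      by_contra hi
      have e1 := h3 i k l hi (by omega) hl
      have e2 := hΓ.dist_triangle (u := a 2 k) (v := y) (w := a i l)
      rw [SimpleGraph.dist_comm (u := a 2 k) (v := y), d1, d2] at e2
      omega
    subst hi
    refine ⟨rfl, ?_⟩
    have e3 : m ≤ l := by
      by_contra h
      exact hm2 (m := l) (by omega) ⟨hl, hyl⟩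
    have e4 := hΓ.dist_triangle (u := a 2 m) (v := y) (w := a 2 l)
    rw [SimpleGraph.dist_comm (u := a 2 m) (v := y), d1, d3, h1 2 m l (by omega) hl] at e4
    have e5 : l ≠ m + 1 := by
      rintro rfl
      have c1 := hcol _ _ (hedge 2 m (by omega))
      have c2 := hcol _ _ hyl
      have c3 := hcol _ _ hm1.2
      exact three_bool _ _ _ c1 c2 c3
    omega

end action

end Pool.Agent.N510.CT
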