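import Pool.Agent.Y477.AV.TFc
import Pool.Agent.TH6.PF.KMod
import Pool.Agent.N510.CT.Struct
import Pool.Agent.N510.CT.Dom

set_option autoImplicit false
set_option linter.unusedSectionVars false
set_option linter.style.haveILetI false

/-! Kernel dimensions at the norm `3 / √2` and above. -/

open scoped InnerProductSpace ENNReal
open Filter Topology

namespace Pool.Agent.N510.CT

open Pool.Agent Pool.Agent.TH25.AD
open Pool.Agent.W656.VA
open Pool.Agent.H80R2
open Pool.Agent.H80R2.BC (L2 GMat vdim kerA Coef)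
open TH57.Thr TH57.Thr.Ati Pool.Agent.Y477.AV Matrix TH6.PF

section below

variable {G : Type} [Group G]

/-- **Below the threshold.** -/
theorem kap_thin2 {K L : Type} [Fintype K] [Fintype L] [DecidableEq K] [DecidableEq L]
    (N : Matrix K L (MonoidAlgebra ℤ G)) (c : ℝ) (hc0 : 0 < c) (hc : c ^ 2 ≤ 9 / 2)
    (hN : NormLE N c) (A : Matrix K L (MonoidAlgebra ℂ G))
    (hA : ∀ i j g, (A i j).coeff g ≠ 0 → (N i j).coeff g ≠ 0) : kap A ∈ Lam G := by
  classical
  obtain ⟨ρ, u, C, hC, hst⟩ := structure_vc2 N c hc0 hc hN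
  let D1 : Matrix K K (MonoidAlgebra ℂ G) :=
    Matrix.diagonal fun i => MonoidAlgebra.single (u (Sum.inl i)) 1
  let D1' : Matrix K K (MonoidAlgebra ℂ G) :=
    Matrix.diagonal fun i => MonoidAlgebra.single (u (Sum.inl i))⁻¹ 1
  let D2 : Matrix L L (MonoidAlgebra ℂ G) :=
    Matrix.diagonal fun j => MonoidAlgebra.single (u (Sum.inr j))⁻¹ 1
  let D2' : Matrix L L (MonoidAlgebra ℂ G) :=
    Matrix.diagonal fun j => MonoidAlgebra.single (u (Sum.inr j)) 1
  have h1 : D1 * D1' = 1 := by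
    simp only [D1, D1']
    rw [Matrix.diagonal_mul_diagonal, ← Matrix.diagonal_one]
    congr 1
    funext i
    rw [MonoidAlgebra.single_mul_single, mul_inv_cancel, mul_one, MonoidAlgebra.one_def]
  have h2 : D2 * D2' = 1 := by
    simp only [D2, D2']
    rw [Matrix.diagonal_mul_diagonal, ← Matrix.diagonal_one]
    congr 1
    funext i
    rw [MonoidAlgebra.single_mul_single, inv_mul_cancel, mul_one, MonoidAlgebra.one_def]
  have hB : ∀ i j, (D1 * A * D2) i j = MonoidAlgebra.single (u (Sum.inl i)) 1 * A i j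
      * MonoidAlgebra.single (u (Sum.inr j))⁻¹ 1 := by
    intro i j
    simp only [D1, D2]
    rw [Matrix.mul_diagonal, Matrix.diagonal_mul]
  have hBc : ∀ i j g, ((D1 * A * D2) i j).coeff g ≠ 0 →
      ρ (Sum.inl i) = ρ (Sum.inr j) ∧ g ∈ C (ρ (Sum.inl i)) := by
    intro i j g hg
    rw [hB, MonoidAlgebra.coeff_mul_single_apply, MonoidAlgebra.coeff_single_mul_apply, one_mul,
      mul_one, inv_inv] at hg
    have h1 := hst i j _ (hA i j _ hg)
    refine ⟨h1.1, ?_⟩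
    have h2 := h1.2
    have h3 : u (Sum.inl i) * ((u (Sum.inl i))⁻¹ * (g * u (Sum.inr j))) * (u (Sum.inr j))⁻¹
        = g := by group
    rwa [h3] at h2
  have h3 : kap (D1 * A * D2) = kap A := by
    rw [kap_unit_right _ h2, kap_mul_left D1 (Rop_inj h1)]
  rw [← h3, kap_eq]
  let e := Fintype.equivFin (K ⊕ L)
  let C' : ℕ → Subgroup G := fun b => if h : b < Fintype.card (K ⊕ L) then C (e.symm ⟨b, h⟩) else ⊥
  have hC' : ∀ b, ∃ s : C' b, (Subgroup.zpowers s).FiniteIndex := by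
    intro b
    by_cases h : b < Fintype.card (K ⊕ L)
    · have e1 : C' b = C (e.symm ⟨b, h⟩) := dif_pos h
      rw [e1]
      exact hC _
    · have e1 : C' b = ⊥ := dif_neg h
      rw [e1]
      exact ⟨1, inferInstance⟩
  have hCe : ∀ x, C' (e x) = C x := by
    intro x
    have : C' (e x) = C (e.symm ⟨e x, (e x).2⟩) := dif_pos (e x).2
    rw [this]
    congr 1
    exact e.symm_apply_apply x
  refine vdim_blocks C' hC' (Fintype.card (K ⊕ L)) (gm (D1 * A * D2))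
    (fun i => e (ρ (Sum.inl i))) (fun j => e (ρ (Sum.inr j))) (fun i => (e _).2) ?_
  intro j i g hne
  rw [gm_apply] at hne
  obtain ⟨h4, h5⟩ := hBc i j _ hne
  refine ⟨by rw [h4], ?_⟩
  rw [hCe]
  exact (Subgroup.inv_mem_iff _).1 h5

/-- At the critical norm. -/
theorem below2 {m n : ℕ} (N : Matrix (Fin m) (Fin n) (MonoidAlgebra ℤ G))
    (c : ℝ) (hc : c ^ 2 ≤ 9 / 2) (hN : NormLE N c) (A : Matrix (Fin m) (Fin n) (G →₀ ℂ))
    (hA : ∀ i j g, A i j g ≠ 0 → (N i j).coeff g ≠ 0) :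
    Pool.Agent.W656.VA.kerDim A ∈ Lam G := by
  rw [kerDim_kap]
  set c' := Real.sqrt (9 / 2) with hc'
  have h0 : (0 : ℝ) < 9 / 2 := by norm_num
  have h1 : c' ^ 2 = 9 / 2 := Real.sq_sqrt h0.le
  refine kap_thin2 N c' (Real.sqrt_pos.2 h0) h1.le ?_ (ofm A) hA
  intro x
  refine (hN x).trans ?_
  have h2 : 0 ≤ normSq x := normSq_nonneg x
  have h3 : c ^ 2 ≤ c' ^ 2 := by rw [h1]; exact hc
  exact mul_le_mul_of_nonneg_right h3 h2

theorem below_tf2 (hG : TorsionFree G) {m n : ℕ}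
    (N : Matrix (Fin m) (Fin n) (MonoidAlgebra ℤ G)) (c : ℝ) (hc : c ^ 2 ≤ 9 / 2)
    (hN : NormLE N c) (A : Matrix (Fin m) (Fin n) (G →₀ ℂ))
    (hA : ∀ i j g, A i j g ≠ 0 → (N i j).coeff g ≠ 0) : ∃ z : ℤ, W656.VA.kerDim A = z := by
  obtain ⟨z, hz⟩ := Lam_int G 1 (fun F hF => (W656.VA.isLcm_one hG).2.1 F hF) _
    (below2 N c hc hN A hA)
  refine ⟨z, ?_⟩
  rw [← hz]
  simp

end below

/-- coefficients `0`, `1`, `-1` and a support pattern of norm at most `c` -/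
def Thin1 {G : Type} [Group G] {m n : ℕ} (N : Matrix (Fin m) (Fin n) (MonoidAlgebra ℤ G))
    (c : ℝ) : Prop :=
  (∀ i j g, (N i j).coeff g = 0 ∨ (N i j).coeff g = 1 ∨ (N i j).coeff g = -1) ∧
    NormLE (pat N) c

/-- every integer matrix has the same kernel dimension as one with a thin pattern -/
theorem skap_red {G : Type} [Group G] {m n : ℕ} (A : Matrix (Fin m) (Fin n) (MonoidAlgebra ℤ G))
    (c : ℝ) (hc : 9 / 2 < c ^ 2) :
    ∃ (m' n' : ℕ) (B : Matrix (Fin m') (Fin n') (MonoidAlgebra ℤ G)),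
      Thin1 B c ∧ kap (toC B) = kap (toC A) := by
  have hr0 : 0 < Real.sqrt 2 := Real.sqrt_pos.2 two_pos
  have hr : Real.sqrt 2 ^ 2 = 2 := Real.sq_sqrt two_pos.le
  set r := Real.sqrt 2 with hrd
  have hc0 : 0 < |c| := by
    rw [abs_pos]; rintro rfl; norm_num at hc
  have hγ : 3 < |c| * r := by
    have h1 : 3 ^ 2 < (|c| * r) ^ 2 := by
      rw [mul_pow, sq_abs, hr]; linarith
    exact lt_of_pow_lt_pow_left₀ 2 (by positivity) h1
  obtain ⟨q, i1, i2, X, Y, Z, W, hZ, hZW, hWZ, hB, hcard, sX, sY, sZ, hN⟩ :=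
    LT.mod_all gens_int hr0 hr hγ A
  set M : Matrix (Fin m ⊕ q) (Fin n ⊕ q) (MonoidAlgebra ℤ G) := fromBlocks 0 X Y Z with hM
  have hNc : NormLE (pat M) |c| := by
    refine normLE_of_ip' _ |c| hc0 fun v v' => ?_
    rw [hM, ip_blocks']
    have h1 := hN (v ∘ Sum.inl) (v' ∘ Sum.inl) (v' ∘ Sum.inr) (v ∘ Sum.inr)
    have n1 := normSq_nonneg (v ∘ Sum.inl)
    have n2 := normSq_nonneg (v' ∘ Sum.inl)
    refine le_of_mul_le_mul_left ?_ hr0
    rw [normSq_sum v, normSq_sum v']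
    nlinarith
  have hNc' : NormLE (pat M) c := by
    intro v
    have := hNc v
    rwa [sq_abs] at this
  have hS : LT.CS ({1, -1} : Set ℤ) M := LT.CS_fromBlocks (LT.CS_zero _) sX sY sZ
  -- the kernel dimension
  let P : Matrix (Fin m ⊕ q) (Fin m ⊕ q) (MonoidAlgebra ℤ G) := fromBlocks 1 (X * W) 0 1
  let P' : Matrix (Fin m ⊕ q) (Fin m ⊕ q) (MonoidAlgebra ℤ G) := fromBlocks 1 (-(X * W)) 0 1
  let D : Matrix (Fin m ⊕ q) (Fin n ⊕ q) (MonoidAlgebra ℤ G) := fromBlocks A 0 0 1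
  let Q : Matrix (Fin n ⊕ q) (Fin n ⊕ q) (MonoidAlgebra ℤ G) := fromBlocks 1 0 Y Z
  let Q' : Matrix (Fin n ⊕ q) (Fin n ⊕ q) (MonoidAlgebra ℤ G) := fromBlocks 1 0 (-(W * Y)) W
  have hPP : P * P' = 1 := by
    simp only [P, P']
    rw [Matrix.fromBlocks_multiply, ← Matrix.fromBlocks_one]
    simp
  have hQQ : Q * Q' = 1 := by
    simp only [Q, Q']
    rw [Matrix.fromBlocks_multiply, ← Matrix.fromBlocks_one]
    congr 1
    · simp
    · simp
    · rw [Matrix.mul_one, Matrix.mul_neg, ← Matrix.mul_assoc, hZW, Matrix.one_mul, add_neg_cancel]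
    · rw [Matrix.mul_zero, zero_add, hZW]
  have hMf : M = P * D * Q := by
    simp only [P, D, Q, hM]
    rw [Matrix.fromBlocks_multiply, Matrix.fromBlocks_multiply]
    congr 1
    · simp only [Matrix.one_mul, Matrix.mul_zero, add_zero, zero_add, Matrix.mul_one]
      rw [← hB]
      abel
    · simp only [Matrix.one_mul, Matrix.mul_zero, add_zero, zero_add, Matrix.mul_one]
      rw [Matrix.mul_assoc, hWZ, Matrix.mul_one]
    · simp
    · simp
  have hkap : kap (M.map (MonoidAlgebra.mapRingHom G (Int.castRingHom ℂ))) = kap (toC A) := by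
    rw [hMf, toC_mul, toC_mul]
    have h1 : Q.map (MonoidAlgebra.mapRingHom G (Int.castRingHom ℂ))
        * Q'.map (MonoidAlgebra.mapRingHom G (Int.castRingHom ℂ)) = 1 := by
      rw [← toC_mul, hQQ, toC_one]
    have h3 : P.map (MonoidAlgebra.mapRingHom G (Int.castRingHom ℂ))
        * P'.map (MonoidAlgebra.mapRingHom G (Int.castRingHom ℂ)) = 1 := by
      rw [← toC_mul, hPP, toC_one]
    rw [kap_unit_right _ h1, kap_mul_left _ (Rop_inj h3)]
    have h4 : D.map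
        (MonoidAlgebra.mapRingHom G (Int.castRingHom ℂ)) = fromBlocks (toC A) 0 0 1 := by
      simp only [D]
      rw [Matrix.fromBlocks_map, toC_one, Matrix.map_zero _ (map_zero _),
        Matrix.map_zero _ (map_zero _)]
      rfl
    rw [h4, kap_stab]
  let e : Fin (m + Fintype.card q) ≃ Fin m ⊕ q :=
    finSumFinEquiv.symm.trans (Equiv.sumCongr (Equiv.refl _) (Fintype.equivFin q).symm)
  let e' : Fin (n + Fintype.card q) ≃ Fin n ⊕ q :=
    finSumFinEquiv.symm.trans (Equiv.sumCongr (Equiv.refl _) (Fintype.equivFin q).symm)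
  refine ⟨m + Fintype.card q, n + Fintype.card q, M.submatrix e e', ⟨fun i j g => ?_, ?_⟩, ?_⟩
  · by_cases h : (M (e i) (e' j)).coeff g = 0
    · exact Or.inl h
    · exact Or.inr (hS (e i) (e' j) g h)
  · rw [pat_submatrix]
    exact NormLE_re2 e e' (pat M) c hNc'
  · rw [← hkap]
    exact kap_re e e' (M.map (MonoidAlgebra.mapRingHom G (Int.castRingHom ℂ)))

/-- every value of an integer matrix is a value of an integer matrix of small norm -/
theorem sval_small_norm {G : Type} [Group G] {v : ℝ} (hv : Val (Int.castRingHom ℂ).range G v)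
    (c : ℝ) (hc : 9 / 2 < c ^ 2) :
    ∃ (m n : ℕ) (N : Matrix (Fin m) (Fin n) (MonoidAlgebra ℤ G)), Thin1 N c ∧
      Pool.Agent.W656.VA.kerDim (cx N) = v := by
  classical
  obtain ⟨m, n, A, hA, hAv⟩ := exists_kerDim hv
  let f : ℂ → ℤ := fun x => if h : ∃ z : ℤ, (z : ℂ) = x then Classical.choose h else 0
  have hf : ∀ x, (∃ z : ℤ, (z : ℂ) = x) → ((f x : ℤ) : ℂ) = x := by
    intro x h
    simp only [f, dif_pos h]
    exact Classical.choose_spec h
  have hf0 : f 0 = 0 := by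
    have := hf 0 ⟨0, by simp⟩
    exact_mod_cast this
  let N0 : Matrix (Fin m) (Fin n) (MonoidAlgebra ℤ G) :=
    Matrix.of fun i j => MonoidAlgebra.ofCoeff ((A i j).mapRange f hf0)
  have hN0 : ofm A = toC N0 := by
    ext i j g
    rw [toC_coeff]
    change A i j g = ((f (A i j g) : ℤ) : ℂ)
    obtain ⟨z, hz⟩ := hA i j g
    exact (hf _ ⟨z, hz⟩).symm
  obtain ⟨m', n', B, hB, hk⟩ := skap_red N0 c hc
  refine ⟨m', n', B, hB, ?_⟩
  rw [kerDim_cx, hk, ← hN0, ← kerDim_kap, hAv]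

/-- **Above the threshold.** -/
theorem sabove (c : ℝ) (hc : 9 / 2 < c ^ 2) (r : ℝ) (hr : 0 ≤ r) :
    ∃ (G : Type) (_ : Group G), Group.FG G ∧ Group.IsSolvable G ∧
      (∀ g : G, IsOfFinOrder g → g ^ 2 = 1) ∧
      ∃ (m n : ℕ) (N : Matrix (Fin m) (Fin n) (MonoidAlgebra ℤ G)), Thin1 N c ∧
        Pool.Agent.W656.VA.kerDim (cx N) = r := by
  obtain ⟨K, iK, h1, h2, h3, h4⟩ := val_fg r hr
  refine ⟨K, iK, h1, h2, ?_, sval_small_norm h4 c hc⟩
  intro g hg
  obtain ⟨m, hm, hg⟩ := isOfFinOrder_iff_pow_eq_one.1 hg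
  exact h3 g m hm hg

/-- **The conjecture is a statement about integer matrices of norm close to the threshold.** -/
theorem sgap_iff (c : ℝ) (hc : 9 / 2 < c ^ 2) (C : (G : Type) → [Group G] → Prop)
    (hprod : ∀ (G H : Type) [Group G] [Group H], C G → C H → C (G × H))
    (hfree : ∀ (G : Type) [Group G] (m : ℕ), C G → C (Monoid.Coprod G (FreeGroup (Fin m)))) :
    (∀ (G : Type) [Group G], C G → ∀ d : ℕ, IsLcm G d →
      ∀ (m n : ℕ) (A : Matrix (Fin m) (Fin n) (G →₀ ℂ)),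
        ∃ z : ℤ, (d : ℝ) * Pool.Agent.W656.VA.kerDim A = z) ↔
    ∃ a b : ℝ, 0 ≤ a ∧ a < b ∧ ∀ (G : Type) [Group G], C G → ∀ d : ℕ, IsLcm G d →
      ∀ (m n : ℕ) (N : Matrix (Fin m) (Fin n) (MonoidAlgebra ℤ G)), Thin1 N c →
        ¬ (a < (d : ℝ) * Pool.Agent.W656.VA.kerDim (cx N) ∧
          (d : ℝ) * Pool.Agent.W656.VA.kerDim (cx N) < b) := by
  constructor
  · intro h
    refine ⟨0, 1, le_rfl, one_pos, ?_⟩
    rintro G _ hG d hd m n N _ ⟨h1, h2⟩
    obtain ⟨z, hz⟩ := h G hG d hd m n (cx N)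
    rw [hz] at h1 h2
    have h3 : 0 < z := by exact_mod_cast h1
    have h4 : z < 1 := by exact_mod_cast h2
    omega
  · rintro ⟨a, b, ha, hab, h⟩ G _ hG d hd m n A
    have hR : ∀ (G : Type) [Group G], C G → ∀ d : ℕ, IsLcm G d → ∀ v : ℝ,
        Val (Int.castRingHom ℂ).range G v → ∃ z : ℤ, (d : ℝ) * v = z := by
      intro G _ hG d hd v hv
      refine gap_val C hprod hfree (Int.castRingHom ℂ).range a b ha hab ?_ G hG d hd v hv
      intro H _ hH e he v hv
      obtain ⟨m', n', N, hN, rfl⟩ := sval_small_norm hv c hc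
      exact h H hH e he m' n' N hN
    exact base_change C hprod hfree _ hR ⊤ G hG d hd _
      (val_kerDim A (fun _ _ _ => Subring.mem_top _))

/-- **Dichotomy at the threshold.** -/
theorem sdichotomy {C : (G : Type) → [Group G] → Prop} (hC : ClosedClass C) (c : ℝ)
    (hc : 9 / 2 < c ^ 2) :
    (∀ (G : Type) [Group G], C G → ∀ (m n : ℕ) (A : Matrix (Fin m) (Fin n) (G →₀ ℂ)),
      ∃ z : ℤ, W656.VA.kerDim A = z) ∨
    ∀ r : ℝ, 0 ≤ r → ∃ (G : Type) (_ : Group G), C G ∧ Group.FG G ∧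
      ∃ (m n : ℕ) (N : Matrix (Fin m) (Fin n) (MonoidAlgebra ℤ G)), Thin1 N c ∧
        W656.VA.kerDim (cx N) = r := by
  by_cases h : ∀ (G : Type) [Group G], C G → ∀ (m n : ℕ) (A : Matrix (Fin m) (Fin n) (G →₀ ℂ)),
      ∃ z : ℤ, W656.VA.kerDim A = z
  · exact Or.inl h
  right
  intro r hr
  obtain ⟨H, _, hH, hv⟩ := all_values hC h r hr
  obtain ⟨K, hK, m, n, A, hA, hAv⟩ := fg_val_sub hv
  have hv' : W656.VA.Val (Int.castRingHom ℂ).range K r := by
    refine ⟨m, n, A, fun k i g => ?_, hAv⟩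
    obtain ⟨z, hz⟩ := Subring.mem_bot.1 (hA k i g)
    exact ⟨z, hz⟩
  exact ⟨K, inferInstance, hC.subgroup K H K.subtype K.subtype_injective hH, hK,
    sval_small_norm hv' c hc⟩


end Pool.Agent.N510.CT
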