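import Pool.Agent.TH6.PF.BassT
import Pool.Agent.N510.CT.Struct

set_option autoImplicit false
set_option linter.unusedSectionVars false

/-! The Bass trace conjecture at the norm `3 / √2`. -/

namespace Pool.Agent.N510.CT

open Matrix TH57.Thr TH6.LF TH6.PF
open Pool.Agent.H23R2.Cyc (ell ell_single ell_mul_comm ell_eq_sum tf tf_apply)
open Pool.Agent.H26R2.Bass (tf_zero_of_prime tf_zero_of_finite almostDiv_of_tf ell_class tau
  tau_eq ind_comm)

/-- **The Bass trace conjecture for projective modules with a thin presentation.** -/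
theorem bass_thin2 {R : Type} [CommRing R] [IsDomain R] {G : Type} [Group G] (c : ℝ) (hc0 : 0 < c)
    (hc : c ^ 2 ≤ 9 / 2) {m n : ℕ} (M : Matrix (Fin m) (Fin n) (MonoidAlgebra R G))
    (N : Matrix (Fin m) (Fin n) (MonoidAlgebra ℤ G)) (hN : NormLE N c)
    (hMN : ∀ i j g, (M i j).coeff g ≠ 0 → (N i j).coeff g ≠ 0)
    (X : Matrix (Fin n) (Fin m) (MonoidAlgebra R G)) (hX : M * X * M = M)
    (g : G) (hg : ¬ IsUnit ((orderOf g : ℕ) : R)) : tau (1 - X * M) g = 0 := by
  classical
  have hidem : (1 - X * M) * (1 - X * M) = 1 - X * M := by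
    have h2 : X * M * (X * M) = X * M := by rw [Matrix.mul_assoc, ← Matrix.mul_assoc M, hX]
    rw [Matrix.mul_sub, Matrix.sub_mul, Matrix.sub_mul, h2, Matrix.mul_one, Matrix.one_mul,
      sub_self, sub_zero, Matrix.mul_one]
  rw [tau_eq]
  by_cases hfin : orderOf g = 0
  · rw [map_sub]
    obtain ⟨ρ, u, C, hC, hst⟩ := structure_vc2 N c hc0 hc hN
    have h1 : tf (Pool.Agent.H26R2.Bass.ind R g) (X * M) = 0 :=
      bass_pattern M (fun i => ρ (Sum.inl i)) (fun j => ρ (Sum.inr j)) C
        (fun i => u (Sum.inl i)) (fun j => u (Sum.inr j))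
        (fun i j h hh => hst i j h (hMN i j h hh)) hC X hX g hfin
    have h2 : tf (Pool.Agent.H26R2.Bass.ind R g)
        (1 : Matrix (Fin n) (Fin n) (MonoidAlgebra R G)) = 0 := by
      rw [tf_apply]
      refine Finset.sum_eq_zero fun i _ => ?_
      rw [Matrix.one_apply_eq, MonoidAlgebra.one_def, ell_single, one_mul]
      unfold Pool.Agent.H26R2.Bass.ind
      rw [if_neg]
      intro h3
      have h4 : g = 1 := isConj_one_right.1 h3
      rw [h4, orderOf_one] at hfin
      exact one_ne_zero hfin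
    rw [h1, h2, sub_zero]
  · exact tf_zero_of_finite _ hidem g hfin hg

/-- **The Bass trace conjecture for projective modules with a thin presentation**, for the
idempotent matrices representing them. -/
theorem bass_thin_module2 {R : Type} [CommRing R] [IsDomain R] {G : Type} [Group G] (c : ℝ)
    (hc0 : 0 < c) (hc : c ^ 2 ≤ 9 / 2) {k m n : ℕ}
    (A : Matrix (Fin k) (Fin k) (MonoidAlgebra R G)) (hA : A * A = A)
    (M : Matrix (Fin m) (Fin n) (MonoidAlgebra R G)) (N : Matrix (Fin m) (Fin n) (MonoidAlgebra ℤ G))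
    (hN : NormLE N c) (hMN : ∀ i j g, (M i j).coeff g ≠ 0 → (N i j).coeff g ≠ 0)
    (φ : LinearMap.range A.vecMulLinear ≃ₗ[MonoidAlgebra R G] Coker M)
    (g : G) (hg : ¬ IsUnit ((orderOf g : ℕ) : R)) : tau A g = 0 := by
  have hP : Module.Projective (MonoidAlgebra R G) (LinearMap.range A.vecMulLinear) := by
    refine Module.Projective.of_split (LinearMap.range A.vecMulLinear).subtype
      A.vecMulLinear.rangeRestrict ?_
    refine LinearMap.ext fun z => ?_
    obtain ⟨_, ⟨x, rfl⟩⟩ := z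
    apply Subtype.ext
    change (x ᵥ* A) ᵥ* A = x ᵥ* A
    rw [Matrix.vecMul_vecMul, hA]
  obtain ⟨X, hX⟩ := regular_of_projective M _ hP φ
  obtain ⟨U, V, h1, h2⟩ := idem_iso A hA M X hX φ
  have h3 := bass_thin2 c hc0 hc M N hN hMN X hX g hg
  rw [tau_eq] at h3 ⊢
  rw [← h1, tf_mul_rect _ (ind_comm g), h2, h3]


end Pool.Agent.N510.CT
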