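import Pool.Agent.TH6.PF.KMod
import Pool.Agent.N510.CT.Dom
import Pool.Agent.TH57.FF.Defs

set_option autoImplicit false
set_option linter.unusedSectionVars false

/-! Linear models with a thin support pattern. -/

namespace Pool.Agent.N510.CT

open Matrix TH57.Thr TH6.LF TH6.PF TH57.FF

/-- coefficients `0`, `1`, `-1` and a support pattern of norm at most `c` -/
def TM {G : Type} [Group G] {m n : ℕ} (N : Matrix (Fin m) (Fin n) (MonoidAlgebra ℤ G))
    (c : ℝ) : Prop :=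
  (∀ i j g, (N i j).coeff g = 0 ∨ (N i j).coeff g = 1 ∨ (N i j).coeff g = -1) ∧
    NormLE (pat N) c

theorem thin_model {R : Type} [Ring R] [Nontrivial R] {S : Set R} (hS : LT.Gens S) {G : Type}
    [Group G] {p n : Type} [Fintype p] [Fintype n] [DecidableEq p] [DecidableEq n]
    (A : Matrix p n (MonoidAlgebra R G)) (c : ℝ) (hc : 9 / 2 < c ^ 2) :
    ∃ (q : Type) (_ : Fintype q) (_ : DecidableEq q) (X : Matrix p q (MonoidAlgebra R G))
      (Y : Matrix q n (MonoidAlgebra R G)) (Z W : Matrix q q (MonoidAlgebra R G)),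
      Z ∈ El (R := MonoidAlgebra R G) q ∧ Z * W = 1 ∧ W * Z = 1 ∧ -(X * W * Y) = A ∧
      3 ≤ Fintype.card q ∧ LT.CS S (fromBlocks 0 X Y Z) ∧ ThinLE (fromBlocks 0 X Y Z) c := by
  have hr0 : 0 < Real.sqrt 2 := Real.sqrt_pos.2 two_pos
  have hr : Real.sqrt 2 ^ 2 = 2 := Real.sq_sqrt two_pos.le
  set r := Real.sqrt 2 with hrd
  have hc0 : 0 < |c| := by
    rw [abs_pos]; rintro rfl; norm_num at hc
  have hγ : 3 < |c| * r := by
    have h1 : 3 ^ 2 < (|c| * r) ^ 2 := by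
      rw [mul_pow, sq_abs, hr]; linarith
    exact lt_of_pow_lt_pow_left₀ 2 (by positivity) h1
  obtain ⟨q, i1, i2, X, Y, Z, W, hZ, hZW, hWZ, hB, hcard, sX, sY, sZ, hN⟩ :=
    LT.mod_all hS hr0 hr hγ A
  refine ⟨q, i1, i2, X, Y, Z, W, hZ, hZW, hWZ, hB, hcard,
    LT.CS_fromBlocks (LT.CS_zero _) sX sY sZ, ?_⟩
  have hNc : NormLE (pat (fromBlocks 0 X Y Z : Matrix (p ⊕ q) (n ⊕ q) (MonoidAlgebra R G)))
      |c| := by
    refine normLE_of_ip' _ |c| hc0 fun v v' => ?_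
    rw [ip_blocks']
    have h1 := hN (v ∘ Sum.inl) (v' ∘ Sum.inl) (v' ∘ Sum.inr) (v ∘ Sum.inr)
    have n1 := normSq_nonneg (v ∘ Sum.inl)
    have n2 := normSq_nonneg (v' ∘ Sum.inl)
    refine le_of_mul_le_mul_left ?_ hr0
    rw [normSq_sum v, normSq_sum v']
    nlinarith
  intro v
  have := hNc v
  rwa [sq_abs] at this

/-- the model of a rectangular matrix, and the maps between the cokernels -/
theorem score_red {G : Type} [Group G] {m k : ℕ} (A : Matrix (Fin m) (Fin k) (MonoidAlgebra ℤ G))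
    (c : ℝ) (hc : 9 / 2 < c ^ 2) :
    ∃ (m' k' : ℕ) (A' : Matrix (Fin m') (Fin k') (MonoidAlgebra ℤ G))
      (T : Matrix (Fin k') (Fin k) (MonoidAlgebra ℤ G))
      (S : Matrix (Fin k) (Fin k') (MonoidAlgebra ℤ G)), TM A' c ∧ S * T = 1 ∧
      ∀ v : Fin k' → MonoidAlgebra ℤ G, (∃ y : Fin m → MonoidAlgebra ℤ G, y ᵥ* A = v ᵥ* T) ↔
        ∃ y : Fin m' → MonoidAlgebra ℤ G, y ᵥ* A' = v := by
  obtain ⟨q, i1, i2, X, Y, Z, W, hZ, hZW, hWZ, hB, hcard, hS, hN⟩ :=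
    thin_model gens_int A c hc
  set M : Matrix (Fin m ⊕ q) (Fin k ⊕ q) (MonoidAlgebra ℤ G) := fromBlocks 0 X Y Z with hM
  let e : Fin (m + Fintype.card q) ≃ Fin m ⊕ q :=
    finSumFinEquiv.symm.trans (Equiv.sumCongr (Equiv.refl _) (Fintype.equivFin q).symm)
  let e' : Fin (k + Fintype.card q) ≃ Fin k ⊕ q :=
    finSumFinEquiv.symm.trans (Equiv.sumCongr (Equiv.refl _) (Fintype.equivFin q).symm)
  let J : Matrix (Fin k ⊕ q) (Fin k) (MonoidAlgebra ℤ G) := fromRows 1 (-(W * Y))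
  let J' : Matrix (Fin k) (Fin k ⊕ q) (MonoidAlgebra ℤ G) := fromCols 1 0
  have hJ : J' * J = 1 := by
    simp only [J, J']
    rw [Matrix.fromCols_mul_fromRows]
    simp
  have hvJ : ∀ w : Fin k ⊕ q → MonoidAlgebra ℤ G,
      w ᵥ* J = w ∘ Sum.inl - (w ∘ Sum.inr) ᵥ* (W * Y) := by
    intro w
    simp only [J]
    rw [Matrix.vecMul_fromRows, Matrix.vecMul_one, Matrix.vecMul_neg, sub_eq_add_neg]
  have hvM : ∀ x : Fin m ⊕ q → MonoidAlgebra ℤ G, x ᵥ* M
      = Sum.elim ((x ∘ Sum.inr) ᵥ* Y) ((x ∘ Sum.inl) ᵥ* X + (x ∘ Sum.inr) ᵥ* Z) := by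
    intro x
    rw [hM]
    conv_lhs => rw [← Sum.elim_comp_inl_inr x]
    rw [Matrix.vecMul_fromBlocks]
    simp
  have hXWY : X * (W * Y) = -A := by rw [← hB, neg_neg, Matrix.mul_assoc]
  refine ⟨m + Fintype.card q, k + Fintype.card q, M.submatrix e e',
    J.submatrix e' (Equiv.refl _), J'.submatrix (Equiv.refl _) e', ⟨fun i j g => ?_, ?_⟩, ?_, ?_⟩
  · by_cases h : (M (e i) (e' j)).coeff g = 0
    · exact Or.inl h
    · exact Or.inr (hS (e i) (e' j) g h)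
  · rw [pat_submatrix]
    exact NormLE_re3 e e' (pat M) c hN
  · rw [Matrix.submatrix_mul_equiv, hJ]
    rfl
  · intro v
    have h1 : v ᵥ* J.submatrix e' (Equiv.refl _) = (v ∘ e'.symm) ᵥ* J := by
      rw [vecMul_submatrix_equiv]
      rfl
    have h2 : ∀ y : Fin (m + Fintype.card q) → MonoidAlgebra ℤ G,
        y ᵥ* M.submatrix e e' = v ↔ (y ∘ e.symm) ᵥ* M = v ∘ e'.symm := by
      intro y
      rw [vecMul_submatrix_equiv]
      constructor
      · intro h3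
        rw [← h3]
        funext j
        simp
      · intro h3
        rw [h3]
        funext j
        simp
    rw [h1, hvJ]
    set w := v ∘ e'.symm with hw
    constructor
    · rintro ⟨a, ha⟩
      set b := (w ∘ Sum.inr - a ᵥ* X) ᵥ* W with hb
      refine ⟨(Sum.elim a b) ∘ e, (h2 _).2 ?_⟩
      have h3 : ((Sum.elim a b) ∘ e) ∘ e.symm = Sum.elim a b := by
        funext j
        simp
      rw [h3, hvM, Sum.elim_comp_inl, Sum.elim_comp_inr]
      have e1 : b ᵥ* Z = w ∘ Sum.inr - a ᵥ* X := by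
        rw [hb, Matrix.vecMul_vecMul, hWZ, Matrix.vecMul_one]
      have e2 : b ᵥ* Y = w ∘ Sum.inl := by
        rw [hb, Matrix.vecMul_vecMul, Matrix.sub_vecMul, Matrix.vecMul_vecMul, hXWY,
          Matrix.vecMul_neg, ha]
        abel
      rw [e1, e2, add_sub_cancel, Sum.elim_comp_inl_inr]
    · rintro ⟨y, hy⟩
      rw [h2, hvM] at hy
      refine ⟨(y ∘ e.symm) ∘ Sum.inl, ?_⟩
      rw [← hy, Sum.elim_comp_inl, Sum.elim_comp_inr, Matrix.add_vecMul, Matrix.vecMul_vecMul,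
        Matrix.vecMul_vecMul, hXWY, ← Matrix.mul_assoc Z, hZW, Matrix.one_mul, Matrix.vecMul_neg]
      abel

end Pool.Agent.N510.CT
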