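import Pool.Agent.TH57.FF.Bd
import Pool.Agent.N510.CT.Struct
import Pool.Agent.N510.CT.Model

set_option autoImplicit false
set_option linter.unusedSectionVars false
set_option linter.style.haveILetI false

/-! Boundary matrices of free resolutions at the norm `3 / √2` and above. -/

namespace Pool.Agent.N510.CT

open Matrix TH57.Thr TH57.FF

section group

variable {Γ : Type} [Group Γ] (htf : ∀ g : Γ, ∀ k : ℕ, 0 < k → g ^ k = 1 → g = 1)

include htf in
/-- **Matrices of small norm have cokernels with finite free resolutions.** -/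
theorem Res_small2 {ι κ : Type} [Fintype κ] [DecidableEq κ] [Fintype ι] [DecidableEq ι]
    (A : Matrix ι κ (MonoidAlgebra ℤ Γ)) (c : ℝ) (hc0 : 0 < c) (hc : c ^ 2 ≤ 9 / 2)
    (hA : NormLE A c) : Res 2 A := by
  obtain ⟨ρ, u, C, hC, hst⟩ := structure_thm2 htf _ c hc0 hc hA
  set P := dgu (fun i => u (Sum.inl i)) with hP
  set Q := dgu (fun j => u (Sum.inr j)) with hQ
  set B : Matrix ι κ (MonoidAlgebra ℤ Γ) := P.val * A * Q⁻¹.val with hBdef
  have hB : ∀ i j, B i j = MonoidAlgebra.single (u (Sum.inl i)) 1 * A i j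
        * MonoidAlgebra.single (u (Sum.inr j))⁻¹ 1 := by
    intro i j
    change (Matrix.diagonal (fun i => MonoidAlgebra.single (u (Sum.inl i)) (1 : ℤ))
      * A * Matrix.diagonal (fun j => MonoidAlgebra.single (u (Sum.inr j))⁻¹ (1 : ℤ)) :
        Matrix ι κ (MonoidAlgebra ℤ Γ)) i j = _
    rw [Matrix.mul_diagonal, Matrix.diagonal_mul]
  have hBc : ∀ i j g, (B i j).coeff g ≠ 0 →
      ρ (Sum.inl i) = ρ (Sum.inr j) ∧ g ∈ C (ρ (Sum.inl i)) := by
    intro i j g hg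
    rw [hB, MonoidAlgebra.coeff_mul_single_apply, MonoidAlgebra.coeff_single_mul_apply, one_mul,
      mul_one, inv_inv] at hg
    have h1 := hst i j _ hg
    refine ⟨h1.1, ?_⟩
    have h2 := h1.2
    have h3 : u (Sum.inl i) * ((u (Sum.inl i))⁻¹ * (g * u (Sum.inr j))) * (u (Sum.inr j))⁻¹
        = g := by group
    rwa [h3] at h2
  have h1 : Res 2 B := Res_pattern htf _ ι κ le_rfl _ (fun i => ρ (Sum.inl i))
    (fun j => ρ (Sum.inr j)) C hC B hBc
  have h2 : Res 2 (P⁻¹.val * B) := Res_left 2 B P⁻¹.val P.val P.inv_mul P.mul_inv h1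
  have h3 : Res 2 (P⁻¹.val * B * Q.val) := Res_right 2 _ Q.val Q⁻¹.val Q.mul_inv h2
  have h4 : P⁻¹.val * B * Q.val = A := by
    have hPP : P⁻¹.val * P.val = 1 := P.inv_mul
    have hQQ : Q⁻¹.val * Q.val = 1 := Q.inv_mul
    calc P⁻¹.val * B * Q.val = (P⁻¹.val * P.val) * A * (Q⁻¹.val * Q.val) := by
          rw [hBdef]; simp only [Matrix.mul_assoc]
      _ = A := by rw [hPP, hQQ, Matrix.mul_one, Matrix.one_mul]
  rwa [h4] at h3

end group

theorem small_boundary2 {G : Type} [Group G] (htf : ∀ g : G, ∀ k : ℕ, 0 < k → g ^ k = 1 → g = 1)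
    (n : ℕ) {m k : ℕ} (A : Matrix (Fin m) (Fin k) (MonoidAlgebra ℤ G)) (h : Bd G n A)
    (c : ℝ) (hc0 : 0 < c) (hc : c ^ 2 ≤ 9 / 2) (hA : NormLE A c) : FFle G (n + 3) := by
  have h1 := FFle_of_FR n A h 2 (FR_of_Res 2 A (Res_small2 htf A c hc0 hc hA))
  have h2 : 2 + n + 1 = n + 3 := by ring
  rwa [h2] at h1

theorem sBd_red {G : Type} [Group G] (n : ℕ) {m k : ℕ}
    (A : Matrix (Fin m) (Fin k) (MonoidAlgebra ℤ G)) (h : Bd G n A) (c : ℝ) (hc : 9 / 2 < c ^ 2) :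
    ∃ (m' k' : ℕ) (A' : Matrix (Fin m') (Fin k') (MonoidAlgebra ℤ G)), Bd G n A' ∧ TM A' c := by
  obtain ⟨m', k', A', T, S, hN, hST, hT⟩ := score_red A c hc
  refine ⟨m', k', A', ?_, hN⟩
  cases n with
  | zero =>
    obtain ⟨ε, h1, h2, h3⟩ := h
    refine ⟨ε.comp T.vecMulLinear.toAddMonoidHom, ?_, ?_, ?_⟩
    · intro g x
      change ε ((MonoidAlgebra.of ℤ G g • x) ᵥ* T) = ε (x ᵥ* T)
      rw [Matrix.smul_vecMul, h1]
    · intro z
      obtain ⟨x, hx⟩ := h2 z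
      refine ⟨x ᵥ* S, ?_⟩
      change ε ((x ᵥ* S) ᵥ* T) = z
      rw [Matrix.vecMul_vecMul, hST, Matrix.vecMul_one, hx]
    · intro x
      change ε (x ᵥ* T) = 0 ↔ _
      rw [h3, hT]
  | succ n =>
    obtain ⟨l, B, h1, h2⟩ := h
    refine ⟨l, T * B, ?_, fun x => ?_⟩
    · apply Bd_range n B _ _ h1
      intro x
      constructor
      · rintro ⟨y, rfl⟩
        refine ⟨y ᵥ* S, ?_⟩
        rw [← Matrix.vecMul_vecMul, Matrix.vecMul_vecMul y, hST, Matrix.vecMul_one]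
      · rintro ⟨y, rfl⟩
        exact ⟨y ᵥ* T, Matrix.vecMul_vecMul _ _ _⟩
    · rw [← Matrix.vecMul_vecMul, h2, hT]


end Pool.Agent.N510.CT
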