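import Pool.Agent.TH6.PF.LBelow
import Pool.Agent.N510.CT.Struct

set_option autoImplicit false
set_option linter.unusedSectionVars false
set_option linter.style.haveILetI false

/-! Symmetric patterns and quadratic forms at the norm `3 / √2`. -/

namespace Pool.Agent.N510.CT

open Matrix TH57.Thr TH6.LF TH6.PF Subgroup SimpleGraph

section sym

variable {G : Type} [Group G] {ι : Type} (A : Matrix ι ι (MonoidAlgebra ℤ G))
  (hsym : ∀ i j h, (A i j).coeff h ≠ 0 → (A j i).coeff h⁻¹ ≠ 0)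

theorem stb_vc2 [Fintype ι] [DecidableEq ι]
    (c : ℝ) (hc0 : 0 < c) (hc : c ^ 2 ≤ 9 / 2) (hA : NormLE A c) (i : ι) :
    IsVC (stb A hsym i) := by
  classical
  have hle : stab A (Sum.inl (1, i)) ≤ stb A hsym i := by
    intro g hg
    rw [mem_stab] at hg
    left
    simpa [TH57.Thr.mv] using hg
  refine isVC_of_relIndex (stab A (Sum.inl (1, i))) (stb A hsym i) hle ?_
    (stab_vc2 A c hc0 hc hA (Sum.inl (1, i)))
  have hfin : ((stab A (Sum.inl (1, i))).subgroupOf (stb A hsym i)).FiniteIndex := by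
    have hkey : ∀ s t : stb A hsym i, s.1 ∉ stab A (Sum.inl (1, i)) →
        t.1 ∉ stab A (Sum.inl (1, i)) → (s.1)⁻¹ * t.1 ∈ stab A (Sum.inl (1, i)) := by
      have aux : ∀ s : stb A hsym i, s.1 ∉ stab A (Sum.inl (1, i)) →
          (gr A).Reachable (Sum.inl (1, i)) (Sum.inr (s.1, i)) := by
        intro s hs
        rcases s.2 with h | h
        · exact absurd (by rw [mem_stab]; simpa [TH57.Thr.mv] using h) hs
        · exact h
      intro s t hs ht
      have h1 := aux s hs
      have h2 := aux t ht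
      have h3 := reachable_mv A (s.1)⁻¹ (h1.symm.trans h2)
      simp only [TH57.Thr.mv, inv_mul_cancel] at h3
      have h4 := reachable_sw A hsym h3
      rw [mem_stab]
      simpa [TH57.Thr.mv, sw] using h4
    rw [Subgroup.finiteIndex_iff_finite_quotient]
    refine Finite.of_injective (β := Prop)
      (fun x : (stb A hsym i) ⧸ ((stab A (Sum.inl (1, i))).subgroupOf (stb A hsym i)) =>
        x = QuotientGroup.mk 1) ?_
    intro x y hxy
    induction x using QuotientGroup.induction_on with | H s => ?_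
    induction y using QuotientGroup.induction_on with | H t => ?_
    simp only [eq_iff_iff] at hxy
    rw [eq_comm (a := (QuotientGroup.mk s : _ ⧸ _)),
      eq_comm (a := (QuotientGroup.mk t : _ ⧸ _))] at hxy
    rw [QuotientGroup.eq, QuotientGroup.eq] at hxy
    simp only [inv_one, one_mul, mem_subgroupOf] at hxy
    rw [QuotientGroup.eq, mem_subgroupOf]
    by_cases h : s.1 ∈ stab A (Sum.inl (1, i))
    · exact mul_mem (inv_mem h) (hxy.1 h)
    · exact hkey s t h (fun h' => h (hxy.2 h'))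
  exact hfin.index_ne_zero

/-- The structure theorem for symmetric patterns, all groups. -/
theorem sym_structure_vc2 [Fintype ι] [DecidableEq ι]
    (A : Matrix ι ι (MonoidAlgebra ℤ G))
    (hsym : ∀ i j h, (A i j).coeff h ≠ 0 → (A j i).coeff h⁻¹ ≠ 0)
    (c : ℝ) (hc0 : 0 < c) (hc : c ^ 2 ≤ 9 / 2) (hA : NormLE A c) :
    ∃ (ρ : ι → ι) (u : ι → G) (C : ι → Subgroup G),
      (∀ b, IsVC (C b)) ∧ ∀ i j h, (A i j).coeff h ≠ 0 →
        ρ i = ρ j ∧ u i * h * (u j)⁻¹ ∈ C (ρ i) := by
  classical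
  let st : Setoid ι :=
    { r := fun p q => ∃ g : G, Rl A (1, p) (g, q)
      iseqv := by
        refine ⟨fun p => ⟨1, Rl.refl A _⟩, ?_, ?_⟩
        · rintro p q ⟨g, hg⟩
          refine ⟨g⁻¹, ?_⟩
          have := Rl.mv A g⁻¹ hg
          simp only [mul_one, inv_mul_cancel] at this
          exact Rl.symm A hsym this
        · rintro p q r ⟨g, hg⟩ ⟨h, hh⟩
          refine ⟨g * h, Rl.trans A hsym hg ?_⟩
          have := Rl.mv A g hh
          simpa only [mul_one] using this }
  let ρ : ι → ι := fun p => (Quotient.mk st p).out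
  have hρ : ∀ p, ∃ g : G, Rl A (1, ρ p) (g, p) := fun p =>
    Quotient.exact (Quotient.out_eq (Quotient.mk st p))
  choose u hu using hρ
  refine ⟨ρ, u, fun b => stb A hsym b, fun b => stb_vc2 A hsym c hc0 hc hA _, ?_⟩
  intro i j h hne
  have hadj : Rl A (1, i) (h, j) := by
    right
    apply SimpleGraph.Adj.reachable
    rw [gr_adj]
    simp only [wt]
    simpa using hne
  have heq : ρ i = ρ j := by
    have : Quotient.mk st i = Quotient.mk st j := Quotient.sound ⟨h, hadj⟩
    simp only [ρ, this]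
  refine ⟨heq, ?_⟩
  rw [mem_stb]
  have h1 := hu i
  have h2 := Rl.mv A (u i) hadj
  have h3 := hu j
  rw [← heq] at h3
  have h4 := Rl.mv A (u i * h * (u j)⁻¹) h3
  simp only [mul_one, inv_mul_cancel_right] at h2 h4
  exact Rl.trans A hsym (Rl.trans A hsym h1 h2) (Rl.symm A hsym h4)

end sym

section forms

variable {R : Type} [Ring R] [StarRing R] {G : Type} [Group G] (w : G →* ℤˣ)
variable {κ : Type} [Fintype κ] [DecidableEq κ]

/-- **Forms with thin symmetrised support pattern.** -/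
theorem thin_forms2 (c : ℝ) (hc0 : 0 < c) (hc : c ^ 2 ≤ 9 / 2)
    (ψ : Matrix κ κ (MonoidAlgebra R G)) (hψ : NormLE (symPat ψ) c) :
    ∃ (ρ : κ → κ) (u : κ → G) (C : κ → Subgroup G)
      (θ : ∀ a, Matrix {i // ρ i = a} {i // ρ i = a} (MonoidAlgebra R (C a))),
      (∀ a, IsVC (C a)) ∧
      (dmU R u).val * ψ * sadj w (dmU R u).val = blockSum ρ ρ C θ ∧
      ∀ ε : ℤ, IsUnit (ψ + ε • sadj w ψ) →
        ∀ a, IsUnit (θ a + ε • sadj (w.comp (C a).subtype) (θ a)) := by
  classical
  have hnn : ∀ r : R, 0 ≤ ind r := by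
    intro r
    by_cases h : r = 0
    · rw [h, ind_zero]
    · rw [ind_of_ne h]; norm_num
  have hsym : ∀ i j h, (symPat ψ i j).coeff h ≠ 0 → (symPat ψ j i).coeff h⁻¹ ≠ 0 := by
    intro i j h hne
    rw [coeff_symPat, inv_inv, add_comm]
    rwa [coeff_symPat] at hne
  obtain ⟨ρ, u, C, hC, hst⟩ := sym_structure_vc2 (symPat ψ) hsym c hc0 hc hψ
  have hψs : ∀ i j g, (ψ i j).coeff g ≠ 0 → (symPat ψ i j).coeff g ≠ 0 := by
    intro i j g h
    rw [coeff_symPat, ind_of_ne h]
    have := hnn ((ψ j i).coeff g⁻¹)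
    omega
  set D := dmU R u with hD
  set φ := D.val * ψ * sadj w D.val with hφ
  have hφs : ∀ i j g, (φ i j).coeff g ≠ 0 → ρ i = ρ j ∧ g ∈ C (ρ i) := by
    intro i j g hg
    rw [hφ, hD, coeff_conj_dmU] at hg
    have h1 := hst i j _ (hψs i j _ (left_ne_zero_of_mul hg))
    refine ⟨h1.1, ?_⟩
    have h2 := h1.2
    have h3 : u i * ((u i)⁻¹ * g * u j) * (u j)⁻¹ = g := by group
    rwa [h3] at h2
  refine ⟨ρ, u, C, blk ρ ρ C φ, hC, (blockSum_blk ρ ρ C φ hφs).symm, ?_⟩
  intro ε hunit a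
  set B := φ + ε • sadj w φ with hB
  have hBs : ∀ i j g, (B i j).coeff g ≠ 0 → ρ i = ρ j ∧ g ∈ C (ρ i) := by
    intro i j g hg
    rw [hB, Matrix.add_apply, MonoidAlgebra.coeff_add, Finsupp.add_apply, Matrix.smul_apply,
      MonoidAlgebra.coeff_smul, Finsupp.smul_apply, sadj_apply, coeff_sbar] at hg
    by_cases h1 : (φ i j).coeff g = 0
    · rw [h1, zero_add] at hg
      have h2 : (φ j i).coeff g⁻¹ ≠ 0 := by
        intro h0
        rw [h0, star_zero, smul_zero, smul_zero] at hg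
        exact hg rfl
      have h3 := hφs j i _ h2
      refine ⟨h3.1.symm, ?_⟩
      have h4 := inv_mem h3.2
      rw [inv_inv, h3.1] at h4
      exact h4
    · exact hφs i j g h1
  have hBA : B = D.val * (ψ + ε • sadj w ψ) * sadj w D.val := by
    rw [hB, hφ, sadj_mul, sadj_mul, sadj_sadj, Matrix.mul_add, Matrix.add_mul,
      Matrix.mul_smul, Matrix.smul_mul, Matrix.mul_assoc D.val (sadj w ψ)]
  obtain ⟨v, hv⟩ := hunit
  have hDs := isUnit_sadj w D
  let V : (Matrix κ κ (MonoidAlgebra R G))ˣ := ⟨sadj w D.val, sadj w D⁻¹.val, hDs.1, hDs.2⟩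
  have hBu : B = (D * v * V).val := by
    rw [hBA, ← hv]; rfl
  set x := D * v * V with hx
  have h1 := blk_mul ρ ρ C x.val x⁻¹.val x.mul_inv (by rw [← hBu]; exact hBs) a
  have h2 := blk_mul' ρ ρ C x.val x⁻¹.val x.inv_mul (by rw [← hBu]; exact hBs) a
  have h3 : blk ρ ρ C φ a + ε • sadj (w.comp (C a).subtype) (blk ρ ρ C φ a)
      = blk ρ ρ C x.val a := by
    rw [← hBu]
    ext i j g
    rw [Matrix.add_apply, MonoidAlgebra.coeff_add, Finsupp.add_apply, Matrix.smul_apply,
      MonoidAlgebra.coeff_smul, Finsupp.smul_apply, sadj_apply, coeff_sbar]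
    simp only [blk, MonoidAlgebra.coeff_comapDomain, Finsupp.comapDomain_apply]
    rw [hB, Matrix.add_apply, MonoidAlgebra.coeff_add, Finsupp.add_apply, Matrix.smul_apply,
      MonoidAlgebra.coeff_smul, Finsupp.smul_apply, sadj_apply, coeff_sbar]
    rfl
  rw [h3]
  exact ⟨⟨_, _, h1, h2⟩, rfl⟩

end forms

end Pool.Agent.N510.CT
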