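import Pool.Agent.TH57.Thr.KGr
import Pool.Agent.TH57.Thr.VCK
import Pool.Agent.TH57.Thr.VCM
import Pool.Agent.TH57.Thr.Asm
import Pool.Agent.TH6.PF.KMod
import Pool.Agent.N510.LT.UMod
import Pool.Agent.N510.CT.Struct

set_option autoImplicit false
set_option linter.unusedSectionVars false
set_option linter.style.haveILetI false
set_option linter.unusedVariables false

/-! Matrices and modules over group rings at the norm `3 / √2` and above. -/

namespace Pool.Agent.N510.CT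

open Matrix TH57.Thr TH6.LF TH6.PF

section wh

variable {Γ : Type} [Group Γ]

/-- **Small norm invertible matrices are stably trivial.** -/
theorem TT_small2 (htf : ∀ g : Γ, ∀ k : ℕ, 0 < k → g ^ k = 1 → g = 1)
    {κ : Type} [Fintype κ] [DecidableEq κ] (A : (Matrix κ κ (MonoidAlgebra ℤ Γ))ˣ)
    (c : ℝ) (hc0 : 0 < c) (hc : c ^ 2 ≤ 9 / 2)
    (hA : NormLE (A : Matrix κ κ (MonoidAlgebra ℤ Γ)) c) : TT (TU Γ) A := by
  obtain ⟨ρ, u, C, hC, hst⟩ := structure_thm2 htf _ c hc0 hc hA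
  let B : (Matrix κ κ (MonoidAlgebra ℤ Γ))ˣ := dgu (fun i => u (Sum.inl i)) * A
    * (dgu (fun j => u (Sum.inr j)))⁻¹
  have hB : ∀ i j, (B : Matrix κ κ (MonoidAlgebra ℤ Γ)) i j
      = MonoidAlgebra.single (u (Sum.inl i)) 1 * (A : Matrix κ κ (MonoidAlgebra ℤ Γ)) i j
        * MonoidAlgebra.single (u (Sum.inr j))⁻¹ 1 := by
    intro i j
    change (Matrix.diagonal (fun i => MonoidAlgebra.single (u (Sum.inl i)) (1 : ℤ))
      * (A : Matrix κ κ (MonoidAlgebra ℤ Γ))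
      * Matrix.diagonal (fun j => MonoidAlgebra.single (u (Sum.inr j))⁻¹ (1 : ℤ)) :
        Matrix κ κ (MonoidAlgebra ℤ Γ)) i j = _
    rw [Matrix.mul_diagonal, Matrix.diagonal_mul]
  have hBc : ∀ i j g, ((B : Matrix κ κ (MonoidAlgebra ℤ Γ)) i j).coeff g ≠ 0 →
      ρ (Sum.inl i) = ρ (Sum.inr j) ∧ g ∈ C (ρ (Sum.inl i)) := by
    intro i j g hg
    rw [hB, MonoidAlgebra.coeff_mul_single_apply, MonoidAlgebra.coeff_single_mul_apply, one_mul,
      mul_one, inv_inv] at hg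
    have h1 := hst i j _ hg
    refine ⟨h1.1, ?_⟩
    have h2 := h1.2
    have h3 : u (Sum.inl i) * ((u (Sum.inl i))⁻¹ * (g * u (Sum.inr j))) * (u (Sum.inr j))⁻¹
        = g := by group
    rwa [h3] at h2
  obtain ⟨σ, hσ⟩ := aug_perm B
  have hlab : ∀ i, ρ (Sum.inl (σ i)) = ρ (Sum.inr i) := by
    intro i
    have h1 := hσ i
    by_contra h2
    apply h1
    ext g
    by_contra h3
    exact h2 (hBc _ _ g h3).1
  have hP : TT (TU Γ) (pu (R := MonoidAlgebra ℤ Γ) σ) := by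
    have h1 : pu (R := MonoidAlgebra ℤ Γ) σ
        = Units.map (mpm (Int.castRingHom (MonoidAlgebra ℤ Γ))) (pu (R := ℤ) σ) := by
      apply Units.ext
      ext1 i j
      change (1 : Matrix κ κ (MonoidAlgebra ℤ Γ)) (σ i) j
        = (((1 : Matrix κ κ ℤ) (σ i) j : ℤ) : MonoidAlgebra ℤ Γ)
      rw [Matrix.one_apply, Matrix.one_apply]
      split_ifs <;> simp
    rw [h1]
    exact TT_im _
  have hPB : TT (TU Γ) (pu (R := MonoidAlgebra ℤ Γ) σ * B) := by
    apply TT_blocks htf _ κ le_rfl _ (fun i => ρ (Sum.inr i)) C hC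
    intro i j g hg
    have h1 : ((pu (R := MonoidAlgebra ℤ Γ) σ * B : (Matrix κ κ (MonoidAlgebra ℤ Γ))ˣ) :
        Matrix κ κ (MonoidAlgebra ℤ Γ)) i j = (B : Matrix κ κ (MonoidAlgebra ℤ Γ)) (σ i) j := by
      change ((1 : Matrix κ κ (MonoidAlgebra ℤ Γ)).submatrix σ id
        * (B : Matrix κ κ (MonoidAlgebra ℤ Γ))) i j = _
      rw [← Matrix.submatrix_id_id (B : Matrix κ κ (MonoidAlgebra ℤ Γ)),
        ← Matrix.submatrix_mul _ _ σ id id Function.bijective_id, Matrix.one_mul,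
        Matrix.submatrix_id_id]
      rfl
    rw [h1] at hg
    have h2 := hBc _ _ g hg
    rw [hlab] at h2
    exact h2
  have hA2 : A = (dgu (fun i => u (Sum.inl i)))⁻¹ * ((pu (R := MonoidAlgebra ℤ Γ) σ)⁻¹
      * (pu (R := MonoidAlgebra ℤ Γ) σ * B)) * dgu (fun j => u (Sum.inr j)) := by
    simp only [B]; group
  rw [hA2]
  exact TT_mul _ _ _ (TT_mul _ _ _ (TT_inv _ _ (TT_dgu htf _))
    (TT_mul _ _ _ (TT_inv _ _ hP) hPB)) (TT_dgu htf _)



end wh

section kgr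

variable {Γ : Type} [Group Γ] (htf : ∀ g : Γ, ∀ k : ℕ, 0 < k → g ^ k = 1 → g = 1)

include htf in
/-- **Matrices of small norm with projective cokernel.** -/
theorem SFC_small2 {ι κ : Type} [Fintype κ] [DecidableEq κ] [Fintype ι] [DecidableEq ι]
    (A : Matrix ι κ (MonoidAlgebra ℤ Γ)) (Y : Matrix κ ι (MonoidAlgebra ℤ Γ))
    (hY : A * Y * A = A) (c : ℝ) (hc0 : 0 < c) (hc : c ^ 2 ≤ 9 / 2) (hA : NormLE A c) :
    SFC A := by
  obtain ⟨ρ, u, C, hC, hst⟩ := structure_thm2 htf _ c hc0 hc hA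
  set P := dgu (fun i => u (Sum.inl i)) with hP
  set Q := dgu (fun j => u (Sum.inr j)) with hQ
  set B : Matrix ι κ (MonoidAlgebra ℤ Γ) := P.val * A * Q⁻¹.val with hBdef
  have hB : ∀ i j, B i j = MonoidAlgebra.single (u (Sum.inl i)) 1 * A i j
        * MonoidAlgebra.single (u (Sum.inr j))⁻¹ 1 := by
    intro i j
    change (Matrix.diagonal (fun i => MonoidAlgebra.single (u (Sum.inl i)) (1 : ℤ))
      * A * Matrix.diagonal (fun j => MonoidAlgebra.single (u (Sum.inr j))⁻¹ (1 : ℤ)) :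
        Matrix ι κ (MonoidAlgebra ℤ Γ)) i j = _
    rw [Matrix.mul_diagonal, Matrix.diagonal_mul]
  have hBc : ∀ i j g, (B i j).coeff g ≠ 0 →
      ρ (Sum.inl i) = ρ (Sum.inr j) ∧ g ∈ C (ρ (Sum.inl i)) := by
    intro i j g hg
    rw [hB, MonoidAlgebra.coeff_mul_single_apply, MonoidAlgebra.coeff_single_mul_apply, one_mul,
      mul_one, inv_inv] at hg
    have h1 := hst i j _ hg
    refine ⟨h1.1, ?_⟩
    have h2 := h1.2
    have h3 : u (Sum.inl i) * ((u (Sum.inl i))⁻¹ * (g * u (Sum.inr j))) * (u (Sum.inr j))⁻¹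
        = g := by group
    rwa [h3] at h2
  have hPP : P⁻¹.val * P.val = 1 := P.inv_mul
  have hQQ : Q⁻¹.val * Q.val = 1 := Q.inv_mul
  have hBY : B * (Q.val * Y * P⁻¹.val) * B = B := by
    calc B * (Q.val * Y * P⁻¹.val) * B
        = P.val * (A * (Q⁻¹.val * Q.val) * Y * (P⁻¹.val * P.val) * A) * Q⁻¹.val := by
          rw [hBdef]; simp only [Matrix.mul_assoc]
      _ = B := by rw [hPP, hQQ, Matrix.mul_one, Matrix.mul_one, hY]
  have h1 : SFC B := SFC_pattern htf _ ι κ le_rfl _ (fun i => ρ (Sum.inl i))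
    (fun j => ρ (Sum.inr j)) C hC B _ hBY hBc
  have h2 : SFC (P⁻¹.val * B * Q.val) := SFC_conj B h1 P⁻¹.val P.val Q.val Q⁻¹.val
    P.mul_inv Q.mul_inv Q.inv_mul
  have h3 : P⁻¹.val * B * Q.val = A := by
    calc P⁻¹.val * B * Q.val = (P⁻¹.val * P.val) * A * (Q⁻¹.val * Q.val) := by
          rw [hBdef]; simp only [Matrix.mul_assoc]
      _ = A := by rw [hPP, hQQ, Matrix.mul_one, Matrix.one_mul]
  rwa [h3] at h2

end kgr

section vck

variable {Γ : Type} [Group Γ]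

/-- **Small norm invertible matrices, all groups.** -/
theorem small_form2 {κ : Type} [Fintype κ] [DecidableEq κ] (A : (Matrix κ κ (MonoidAlgebra ℤ Γ))ˣ)
    (c : ℝ) (hc0 : 0 < c) (hc : c ^ 2 ≤ 9 / 2)
    (hA : NormLE (A : Matrix κ κ (MonoidAlgebra ℤ Γ)) c) :
    (∃ (r : κ → κ ⊕ κ) (V : κ ⊕ κ → Subgroup Γ) (u w : κ → Γ) (σ : Equiv.Perm κ),
      (∀ b, VCy (V b)) ∧
      (∀ i j g, ((A : Matrix κ κ (MonoidAlgebra ℤ Γ)) (σ i) j).coeff g ≠ 0 →
        r i = r j ∧ u (σ i) * g * (w j)⁻¹ ∈ V (r i)) ∧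
      (∀ i j g, ((↑A⁻¹ : Matrix κ κ (MonoidAlgebra ℤ Γ)) i (σ j)).coeff g ≠ 0 →
        r i = r j ∧ w i * g * (u (σ j))⁻¹ ∈ V (r i))) ∧
    A ∈ VCG ℤ Γ κ := by
  obtain ⟨ρ, u, C, hC, hst⟩ := structure_vc2 _ c hc0 hc hA
  obtain ⟨σ, hσ⟩ := aug_perm A
  have hlab : ∀ i, ρ (Sum.inl (σ i)) = ρ (Sum.inr i) := by
    intro i
    have h1 := hσ i
    by_contra h2
    apply h1
    ext g
    by_contra h3
    exact h2 (hst _ _ g h3).1
  have hpat : ∀ i j g, ((A : Matrix κ κ (MonoidAlgebra ℤ Γ)) (σ i) j).coeff g ≠ 0 →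
      ρ (Sum.inr i) = ρ (Sum.inr j) ∧
        u (Sum.inl (σ i)) * g * (u (Sum.inr j))⁻¹ ∈ C (ρ (Sum.inr i)) := by
    intro i j g hg
    have h2 := hst _ _ g hg
    rwa [hlab] at h2
  obtain ⟨h1, h2⟩ := monomial_form A (fun i => ρ (Sum.inr i)) C (fun i => u (Sum.inl i))
    (fun j => u (Sum.inr j)) σ hpat
  refine ⟨⟨fun i => ρ (Sum.inr i), C, fun i => u (Sum.inl i), fun j => u (Sum.inr j), σ, hC,
    hpat, h2⟩, ?_⟩
  obtain ⟨M, hM, hAM⟩ := h1 (VCG ℤ Γ κ) (fun i => glim_le_VCG _ (hC _))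
  rw [hAM]
  have hz : ∀ g : Γ, glim ℤ κ (Subgroup.zpowers g) ≤ VCG ℤ Γ κ := fun g =>
    glim_le_VCG _ (VCy_zpowers g)
  have hb : glim ℤ κ (⊥ : Subgroup Γ) ≤ VCG ℤ Γ κ := by
    have := hz 1
    rwa [Subgroup.zpowers_one_eq_bot] at this
  exact mul_mem (mul_mem (mul_mem (inv_mem (dguR_mem _ _ hz)) (inv_mem (puR_mem _ _ hb))) hM)
    (dguR_mem _ _ hz)

end vck

theorem module_small2 (G : Type) [Group G]
    (P : Type) [AddCommGroup P] [Module (MonoidAlgebra ℤ G) P]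
    (m n : ℕ) (A : Matrix (Fin m) (Fin n) (MonoidAlgebra ℤ G))
    (e : P ≃ₗ[MonoidAlgebra ℤ G]
      ((Fin n → MonoidAlgebra ℤ G) ⧸ LinearMap.range A.vecMulLinear))
    (c : ℝ) (hc0 : 0 < c) (hc : c ^ 2 ≤ 9 / 2) (hA : NormLE A c) :
    ∃ (k : ℕ) (V : Fin k → Subgroup G) (p q : Fin k → ℕ)
      (B : ∀ b, Matrix (Fin (p b)) (Fin (q b)) (MonoidAlgebra ℤ (V b))),
      (∀ b, VCy (V b)) ∧
      Nonempty (P ≃ₗ[MonoidAlgebra ℤ G] ∀ b, ((Fin (q b) → MonoidAlgebra ℤ G) ⧸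
        LinearMap.range ((B b).map
          (MonoidAlgebra.mapDomainRingHom ℤ (V b).subtype)).vecMulLinear)) ∧
      (Module.Projective (MonoidAlgebra ℤ G) P →
        ∀ b, Module.Projective (MonoidAlgebra ℤ (V b)) ((Fin (q b) → MonoidAlgebra ℤ (V b)) ⧸
          LinearMap.range (B b).vecMulLinear)) := by
  classical
  obtain ⟨ρ, u, C, hC, hst⟩ := structure_vc2 A c hc0 hc hA
  let r : Fin m → Fin (m + n) := fun i => finSumFinEquiv (ρ (Sum.inl i))
  let s : Fin n → Fin (m + n) := fun j => finSumFinEquiv (ρ (Sum.inr j))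
  let V : Fin (m + n) → Subgroup G := fun b => C (finSumFinEquiv.symm b)
  let u₁ : Fin m → G := fun i => u (Sum.inl i)
  let w₁ : Fin n → G := fun j => u (Sum.inr j)
  have h : ∀ i j g, (A i j).coeff g ≠ 0 → r i = s j ∧ u₁ i * g * (w₁ j)⁻¹ ∈ V (r i) := by
    intro i j g hg
    have h1 := hst i j g hg
    refine ⟨congrArg _ h1.1, ?_⟩
    simp only [V, r, Equiv.symm_apply_apply]
    exact h1.2
  let er : ∀ b, Fin (Fintype.card {i // r i = b}) ≃ {i // r i = b} := fun b =>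
    (Fintype.equivFin _).symm
  let es : ∀ b, Fin (Fintype.card {j // s j = b}) ≃ {j // s j = b} := fun b =>
    (Fintype.equivFin _).symm
  refine ⟨m + n, V, fun b => Fintype.card {i // r i = b}, fun b => Fintype.card {j // s j = b},
    fun b => (blkm A r s V u₁ w₁ b).submatrix (er b) (es b), fun b => hC _, ?_, ?_⟩
  · obtain ⟨φ⟩ := coker_pattern A r s V u₁ w₁ h
    have h2 : ∀ b, Nonempty (((({j // s j = b} → MonoidAlgebra ℤ G) ⧸
        LinearMap.range (ind (blkm A r s V u₁ w₁ b)).vecMulLinear)) ≃ₗ[MonoidAlgebra ℤ G]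
        ((Fin (Fintype.card {j // s j = b}) → MonoidAlgebra ℤ G) ⧸
        LinearMap.range (((blkm A r s V u₁ w₁ b).submatrix (er b) (es b)).map
          (MonoidAlgebra.mapDomainRingHom ℤ (V b).subtype)).vecMulLinear)) := fun b =>
      coker_reindex (ind (blkm A r s V u₁ w₁ b)) (er b) (es b)
    exact ⟨(e.trans φ).trans (LinearEquiv.piCongrRight fun b => (h2 b).some)⟩
  · intro hP b
    obtain ⟨Y, hY⟩ := regular_of_projective A P hP e
    obtain ⟨Z, hZ⟩ := regular_blocks A r s V u₁ w₁ h Y hY b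
    obtain ⟨ψ⟩ := coker_reindex (blkm A r s V u₁ w₁ b) (er b) (es b)
    haveI := projective_of_regular _ Z hZ
    exact Module.Projective.of_equiv ψ


/-- **Modules with a thin presentation.** -/
theorem thin_modules2 (R : Type) [Ring R] (G : Type) [Group G]
    (P : Type) [AddCommGroup P] [Module (MonoidAlgebra R G) P]
    (m n : ℕ) (A : Matrix (Fin m) (Fin n) (MonoidAlgebra R G))
    (e : P ≃ₗ[MonoidAlgebra R G]
      ((Fin n → MonoidAlgebra R G) ⧸ LinearMap.range A.vecMulLinear))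
    (c : ℝ) (hc0 : 0 < c) (hc : c ^ 2 ≤ 9 / 2) (hA : ThinLE A c) :
    ∃ (k : ℕ) (V : Fin k → Subgroup G) (p q : Fin k → ℕ)
      (B : ∀ b, Matrix (Fin (p b)) (Fin (q b)) (MonoidAlgebra R (V b))),
      (∀ b, ∃ s : V b, (Subgroup.zpowers s).FiniteIndex) ∧
      ((∀ g : G, ∀ k : ℕ, 0 < k → g ^ k = 1 → g = 1) → ∀ b, IsCyclic (V b)) ∧
      Nonempty (P ≃ₗ[MonoidAlgebra R G] ∀ b, ((Fin (q b) → MonoidAlgebra R G) ⧸
        LinearMap.range ((B b).map
          (MonoidAlgebra.mapDomainRingHom R (V b).subtype)).vecMulLinear)) ∧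
      (Module.Projective (MonoidAlgebra R G) P →
        ∀ b, Module.Projective (MonoidAlgebra R (V b)) ((Fin (q b) → MonoidAlgebra R (V b)) ⧸
          LinearMap.range (B b).vecMulLinear)) := by
  classical
  obtain ⟨ρ, u, C, hC, hst⟩ := structure_vc2 (pat A) c hc0 hc hA
  let r : Fin m → Fin (m + n) := fun i => finSumFinEquiv (ρ (Sum.inl i))
  let s : Fin n → Fin (m + n) := fun j => finSumFinEquiv (ρ (Sum.inr j))
  let V : Fin (m + n) → Subgroup G := fun b => C (finSumFinEquiv.symm b)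
  let u₁ : Fin m → G := fun i => u (Sum.inl i)
  let w₁ : Fin n → G := fun j => u (Sum.inr j)
  have h : ∀ i j g, (A i j).coeff g ≠ 0 → r i = s j ∧ u₁ i * g * (w₁ j)⁻¹ ∈ V (r i) := by
    intro i j g hg
    have h1 := hst i j g ((pat_ne _ _ _ _).2 hg)
    refine ⟨congrArg _ h1.1, ?_⟩
    simp only [V, r, Equiv.symm_apply_apply]
    exact h1.2
  let er : ∀ b, Fin (Fintype.card {i // r i = b}) ≃ {i // r i = b} := fun b =>
    (Fintype.equivFin _).symm
  let es : ∀ b, Fin (Fintype.card {j // s j = b}) ≃ {j // s j = b} := fun b =>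
    (Fintype.equivFin _).symm
  refine ⟨m + n, V, fun b => Fintype.card {i // r i = b}, fun b => Fintype.card {j // s j = b},
    fun b => (blkm A r s V u₁ w₁ b).submatrix (er b) (es b), fun b => hC _, ?_, ?_, ?_⟩
  · intro htf b
    obtain ⟨t, ht⟩ := hC (finSumFinEquiv.symm b)
    exact isCyclic_of_finiteIndex (S := V b) (fun g n hn h => Subtype.ext
      (htf g.1 n hn (by simpa using congrArg Subtype.val h))) (Subgroup.zpowers t)
      inferInstance ht
  · obtain ⟨φ⟩ := coker_pattern A r s V u₁ w₁ h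
    have h2 : ∀ b, Nonempty (((({j // s j = b} → MonoidAlgebra R G) ⧸
        LinearMap.range (TH57.Thr.ind (blkm A r s V u₁ w₁ b)).vecMulLinear)) ≃ₗ[MonoidAlgebra R G]
        ((Fin (Fintype.card {j // s j = b}) → MonoidAlgebra R G) ⧸
        LinearMap.range (((blkm A r s V u₁ w₁ b).submatrix (er b) (es b)).map
          (MonoidAlgebra.mapDomainRingHom R (V b).subtype)).vecMulLinear)) := fun b =>
      coker_reindex (TH57.Thr.ind (blkm A r s V u₁ w₁ b)) (er b) (es b)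
    exact ⟨(e.trans φ).trans (LinearEquiv.piCongrRight fun b => (h2 b).some)⟩
  · intro hP b
    obtain ⟨Y, hY⟩ := regular_of_projective A P hP e
    obtain ⟨Z, hZ⟩ := regular_blocks A r s V u₁ w₁ h Y hY b
    obtain ⟨ψ⟩ := coker_reindex (blkm A r s V u₁ w₁ b) (er b) (es b)
    haveI := projective_of_regular _ Z hZ
    exact Module.Projective.of_equiv ψ


open Pool.Agent.N510.LT

theorem sthin_pres {R : Type} [Ring R] [Nontrivial R] {S : Set R} (hS : Gens S) {G : Type}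
    [Group G] (P : Type) [AddCommGroup P]
    [Module (MonoidAlgebra R G) P]
    (hP : Module.FinitePresentation (MonoidAlgebra R G) P) (c : ℝ) (hc : 9 / 2 < c ^ 2) :
    ∃ (m n : ℕ) (A : Matrix (Fin m) (Fin n) (MonoidAlgebra R G)), CS S A ∧ ThinLE A c ∧
      Nonempty (P ≃ₗ[MonoidAlgebra R G]
        ((Fin n → MonoidAlgebra R G) ⧸ LinearMap.range A.vecMulLinear)) := by
  obtain ⟨n, Ks, e0, hK⟩ := Module.FinitePresentation.exists_fin (MonoidAlgebra R G) P
  obtain ⟨m, g, hg⟩ := Ks.fg_iff_exists_fin_linearMap.1 hK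
  set A : Matrix (Fin m) (Fin n) (MonoidAlgebra R G) := LinearMap.toMatrixRight' g with hA
  have hgA : A.vecMulLinear = g := LinearMap.toMatrixRight'.symm_apply_apply g
  have hKS : Ks = LinearMap.range A.vecMulLinear := by rw [← hg, ← hgA]
  have hr0 : 0 < Real.sqrt 2 := Real.sqrt_pos.2 two_pos
  have hr : Real.sqrt 2 ^ 2 = 2 := Real.sq_sqrt two_pos.le
  set r := Real.sqrt 2 with hrd
  have hc0 : 0 < |c| := by
    rw [abs_pos]; rintro rfl; norm_num at hc
  have hγ : 3 < |c| * r := by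
    have h1 : 3 ^ 2 < (|c| * r) ^ 2 := by
      rw [mul_pow, sq_abs, hr]; linarith
    exact lt_of_pow_lt_pow_left₀ 2 (by positivity) h1
  obtain ⟨q, i1, i2, X, Y, Z, W, hZ, hZW, hWZ, hB, hcard, sX, sY, sZ, hN⟩ :=
    LT.mod_all hS hr0 hr hγ A
  set M : Matrix (Fin m ⊕ q) (Fin n ⊕ q) (MonoidAlgebra R G) := fromBlocks 0 X Y Z with hM
  have hNc : NormLE (pat M) |c| := by
    refine normLE_of_ip' _ |c| hc0 fun v v' => ?_
    rw [hM, ip_blocks']
    have h1 := hN (v ∘ Sum.inl) (v' ∘ Sum.inl) (v' ∘ Sum.inr) (v ∘ Sum.inr)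
    have n1 := normSq_nonneg (v ∘ Sum.inl)
    have n2 := normSq_nonneg (v' ∘ Sum.inl)
    refine le_of_mul_le_mul_left ?_ hr0
    rw [normSq_sum v, normSq_sum v']
    nlinarith
  have hNc' : NormLE (pat M) c := by
    intro v
    have := hNc v
    rwa [sq_abs] at this
  let e : Fin (m + Fintype.card q) ≃ Fin m ⊕ q :=
    finSumFinEquiv.symm.trans (Equiv.sumCongr (Equiv.refl _) (Fintype.equivFin q).symm)
  let e' : Fin (n + Fintype.card q) ≃ Fin n ⊕ q :=
    finSumFinEquiv.symm.trans (Equiv.sumCongr (Equiv.refl _) (Fintype.equivFin q).symm)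
  obtain ⟨φ1⟩ := coker_model A X Y Z W hZW hWZ hB
  obtain ⟨φ2⟩ := coker_reindex M e e'
  exact ⟨m + Fintype.card q, n + Fintype.card q, M.submatrix e e',
    CS_submatrix (CS_fromBlocks (CS_zero S) sX sY sZ) e e', NormLE_re3 e e' (pat M) c hNc',
    ⟨((e0.trans (Submodule.quotEquivOfEq _ _ hKS)).trans φ1).trans φ2⟩⟩


end Pool.Agent.N510.CT
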