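import Pool.Agent.TH57.Thr.Tri

set_option autoImplicit false

/-! A weighted graph which contains an induced tripod with long arms and one more vertex
adjacent to the tripod in at most two vertices of one arm has norm more than `3 / √2`. -/

namespace Pool.Agent.N510.CT

open TH57.Thr

theorem tripod_fun {V : Type*} [DecidableEq V] (W : V → V → ℝ)
    (hsymm : ∀ u v, W u v = W v u)
    (N : ℕ) (a : Fin 3 → ℕ → V) (o : V) (h0 : ∀ i, a i 0 = o)
    (hinj : ∀ i j k l, k ≤ N → l ≤ N → a i k = a j l → (k = 0 ∧ l = 0) ∨ (i = j ∧ k = l))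
    (hW0 : ∀ i k l, k ≤ N → l ≤ N → k + 1 ≠ l → l + 1 ≠ k → W (a i k) (a i l) = 0)
    (hWc : ∀ i j k l, i ≠ j → 1 ≤ k → k ≤ N → 1 ≤ l → l ≤ N → W (a i k) (a j l) = 0)
    (hW1 : ∀ i k, k < N → 1 ≤ |W (a i k) (a i (k + 1))|) (t : ℝ) (ht0 : 0 < t)
    (ht : t ^ 2 = 1 / 2) :
    ∃ (s : Finset V) (f : V → ℝ), (∀ v ∈ s, ∃ i k, k ≤ N ∧ v = a i k) ∧
      (∀ i k, k ≤ N → a i k ∈ s) ∧ (∀ i k, k ≤ N → |f (a i k)| = t ^ k) ∧
      ∑ u ∈ s, f u ^ 2 = 4 - 3 * (1 / 2) ^ N ∧
      3 * t * (1 - (1 / 2) ^ N) * 4 ≤ ∑ u ∈ s, ∑ v ∈ s, W u v * f u * f v := by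
  classical
  set w : Fin 3 → ℕ → ℝ := fun i k => W (a i k) (a i (k + 1)) with hw
  set φ : Fin 3 → ℕ → ℝ := fun i k => sg (w i) k * t ^ k with hφ
  have hφ0 : ∀ i, φ i 0 = 1 := fun i => by simp [hφ, sg]
  have hφsq : ∀ i k, φ i k ^ 2 = (1 / 2) ^ k := by
    intro i k
    simp only [hφ]
    rw [mul_pow, ← ht, ← pow_mul, ← pow_mul, mul_comm 2 k, sq (sg (w i) k), sg_sq]
    ring
  have hB : ∀ i k, k < N → t * (1 / 2) ^ k ≤ w i k * φ i k * φ i (k + 1) := by
    intro i k hk
    have h1 : w i k * φ i k * φ i (k + 1) = |w i k| * (t * (1 / 2) ^ k) := by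
      rw [← sg_step (w i) k]
      simp only [hφ]
      rw [← ht, ← pow_mul]
      ring
    rw [h1]
    have h2 := hW1 i k hk
    have h3 : 0 ≤ t * (1 / 2 : ℝ) ^ k := by positivity
    nlinarith
  -- index type
  let τ : Option (Fin 3 × Fin N) → V := fun p => p.elim o (fun q => a q.1 (q.2 + 1))
  let F : Option (Fin 3 × Fin N) → ℝ := fun p => p.elim 1 (fun q => φ q.1 (q.2 + 1))
  have hτ : Function.Injective τ := by
    intro p q h
    rcases p with _ | ⟨i, k⟩ <;> rcases q with _ | ⟨j, l⟩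
    · rfl
    · exfalso
      simp only [τ, Option.elim] at h
      rw [← h0 j] at h
      rcases hinj j j 0 (l + 1) (by omega) (by omega) h with h | h <;> omega
    · exfalso
      simp only [τ, Option.elim] at h
      rw [← h0 i] at h
      rcases hinj i i (k + 1) 0 (by omega) (by omega) h with h | h <;> omega
    · simp only [τ, Option.elim] at h
      rcases hinj i j (k + 1) (l + 1) (by omega) (by omega) h with h | h
      · omega
      · obtain ⟨rfl, h2⟩ := h
        congr 2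
        ext
        omega
  let s : Finset V := Finset.univ.image τ
  let f : V → ℝ := fun v => ∑ p, if τ p = v then F p else 0
  have hf : ∀ p, f (τ p) = F p := by
    intro p
    simp only [f]
    rw [Finset.sum_eq_single p]
    · simp
    · intro q _ hq
      rw [if_neg (fun h => hq (hτ h))]
    · simp
  have hsum : ∀ g : V → ℝ, ∑ u ∈ s, g u = ∑ p, g (τ p) := by
    intro g
    simp only [s]
    rw [Finset.sum_image (fun x _ y _ h => hτ h)]
  -- the square sum
  have hS : ∑ k ∈ Finset.range N, ((1 : ℝ) / 2) ^ k = 2 - 2 * (1 / 2) ^ N := geom_half N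
  have hnorm : ∑ p, F p ^ 2 = 1 + 3 * (∑ k ∈ Finset.range N, (1 / 2 : ℝ) ^ (k + 1)) := by
    rw [Fintype.sum_option, Fintype.sum_prod_type]
    simp only [F, Option.elim, hφsq]
    rw [one_pow, Finset.sum_const, Finset.card_univ, Fintype.card_fin,
      Fin.sum_univ_eq_sum_range (fun k => (1 / 2 : ℝ) ^ (k + 1)) N]
    simp
  have hnorm2 : ∑ p, F p ^ 2 = 4 - 3 * (1 / 2) ^ N := by
    rw [hnorm]
    have : ∑ k ∈ Finset.range N, (1 / 2 : ℝ) ^ (k + 1)
        = (1 / 2) * ∑ k ∈ Finset.range N, (1 / 2 : ℝ) ^ k := by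
      rw [Finset.mul_sum]
      exact Finset.sum_congr rfl fun k _ => by ring
    rw [this, hS]; ring
  -- lower bound of the quadratic form
  have hcen : ∑ q, W (τ none) (τ q) * F none * F q
      = ∑ i : Fin 3, if 0 < N then w i 0 * φ i 0 * φ i 1 else 0 := by
    rw [Fintype.sum_option, Fintype.sum_prod_type]
    have h1 : W (τ none) (τ none) = 0 := by
      have := hW0 0 0 0 (by omega) (by omega) (by omega) (by omega)
      rw [h0] at this
      exact this
    rw [h1]
    simp only [zero_mul, zero_add]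
    refine Finset.sum_congr rfl fun i _ => ?_
    simp only [τ, F, Option.elim]
    rw [Fin.sum_univ_eq_sum_range (fun k => W o (a i (k + 1)) * 1 * φ i (k + 1)) N]
    split_ifs with hN
    · rw [Finset.sum_eq_single 0]
      · simp only [hw, hφ0, h0, zero_add]
      · intro k hk hk0
        rw [← h0 i, hW0 i 0 (k + 1) (by omega) (by have := Finset.mem_range.1 hk; omega)
          (by omega) (by omega)]
        ring
      · intro h
        exact absurd (Finset.mem_range.2 hN) h
    · have : N = 0 := by omega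
      subst this
      simp
  have harm : ∀ i : Fin 3, ∀ k : Fin N,
      ∑ q, W (τ (some (i, k))) (τ q) * F (some (i, k)) * F q
      = w i k * φ i k * φ i (k + 1)
        + (if (k : ℕ) + 1 < N then w i (k + 1) * φ i (k + 1) * φ i (k + 2) else 0) := by
    intro i k
    rw [Fintype.sum_option, Fintype.sum_prod_type]
    have h1 : ∑ j : Fin 3, ∑ l : Fin N,
        W (τ (some (i, k))) (τ (some (j, l))) * F (some (i, k)) * F (some (j, l))
        = ∑ l : Fin N, W (τ (some (i, k))) (τ (some (i, l))) * F (some (i, k)) * F (some (i, l)) := by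
      rw [Finset.sum_eq_single i]
      · intro j _ hj
        refine Finset.sum_eq_zero fun l _ => ?_
        simp only [τ, Option.elim]
        rw [hWc i j (k + 1) (l + 1) (Ne.symm hj) (by omega) (by omega) (by omega) (by omega)]
        ring
      · simp
    rw [h1]
    simp only [τ, F, Option.elim]
    rw [Fin.sum_univ_eq_sum_range
      (fun l => W (a i (k + 1)) (a i (l + 1)) * φ i (k + 1) * φ i (l + 1)) N]
    have h2 : W (a i (k + 1)) o * φ i (k + 1) * 1
        + ∑ l ∈ Finset.range N, W (a i (k + 1)) (a i (l + 1)) * φ i (k + 1) * φ i (l + 1)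
        = ∑ l ∈ Finset.range (N + 1), W (a i (k + 1)) (a i l) * φ i (k + 1) * φ i l := by
      rw [Finset.sum_range_succ', h0, hφ0]
      ring
    rw [h2]
    have hk := k.2
    split_ifs with hkN
    · rw [Finset.sum_eq_add (k : ℕ) ((k : ℕ) + 2) (by omega)]
      · simp only [hw]
        rw [hsymm (a i (k + 1)) (a i k)]
        ring
      · rintro l hl ⟨h3, h4⟩
        rw [hW0 i (k + 1) l (by omega) (by have := Finset.mem_range.1 hl; omega) (by omega)
          (by omega)]
        ring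
      · intro h
        exact absurd (Finset.mem_range.2 (by omega)) h
      · intro h
        exact absurd (Finset.mem_range.2 (by omega)) h
    · rw [Finset.sum_eq_single (k : ℕ)]
      · simp only [hw]
        rw [hsymm (a i (k + 1)) (a i k)]
        ring
      · intro l hl h3
        rw [hW0 i (k + 1) l (by omega) (by have := Finset.mem_range.1 hl; omega)
          (by have := Finset.mem_range.1 hl; omega) (by omega)]
        ring
      · intro h
        exact absurd (Finset.mem_range.2 (by omega)) h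
  have hQ : ∑ p, ∑ q, W (τ p) (τ q) * F p * F q
      = ∑ i : Fin 3, 2 * ∑ k ∈ Finset.range N, w i k * φ i k * φ i (k + 1) := by
    rw [Fintype.sum_option, Fintype.sum_prod_type, hcen]
    simp only [harm]
    rw [← Finset.sum_add_distrib]
    refine Finset.sum_congr rfl fun i _ => ?_
    rw [Finset.sum_add_distrib]
    rw [Fin.sum_univ_eq_sum_range (fun k => w i k * φ i k * φ i (k + 1)) N]
    rw [Fin.sum_univ_eq_sum_range
      (fun k => if k + 1 < N then w i (k + 1) * φ i (k + 1) * φ i (k + 2) else 0) N]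
    have h3 : (if 0 < N then w i 0 * φ i 0 * φ i 1 else 0)
        + ∑ k ∈ Finset.range N, (if k + 1 < N then w i (k + 1) * φ i (k + 1) * φ i (k + 2) else 0)
        = ∑ k ∈ Finset.range (N + 1), (if k < N then w i k * φ i k * φ i (k + 1) else 0) := by
      rw [Finset.sum_range_succ']
      rw [add_comm]
    have h4 : ∑ k ∈ Finset.range (N + 1), (if k < N then w i k * φ i k * φ i (k + 1) else 0)
        = ∑ k ∈ Finset.range N, w i k * φ i k * φ i (k + 1) := by
      rw [Finset.sum_range_succ, if_neg (lt_irrefl N), add_zero]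
      exact Finset.sum_congr rfl fun k hk => by rw [if_pos (Finset.mem_range.1 hk)]
    linarith [h3, h4]
  have hQ2 : 3 * (2 * (t * (2 - 2 * (1 / 2) ^ N))) ≤ ∑ p, ∑ q, W (τ p) (τ q) * F p * F q := by
    rw [hQ]
    have : ∀ i : Fin 3, 2 * (t * (2 - 2 * (1 / 2) ^ N))
        ≤ 2 * ∑ k ∈ Finset.range N, w i k * φ i k * φ i (k + 1) := by
      intro i
      rw [← hS, Finset.mul_sum]
      have := Finset.sum_le_sum fun k (hk : k ∈ Finset.range N) => hB i k (Finset.mem_range.1 hk)
      linarith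
    have h5 := Finset.sum_le_sum fun i (_ : i ∈ Finset.univ) => this i
    rw [Finset.sum_const, Finset.card_univ, Fintype.card_fin] at h5
    simpa using h5
  have hτa : ∀ i k, k ≤ N → ∃ p, τ p = a i k ∧ |F p| = t ^ k := by
    intro i k hk
    rcases Nat.eq_zero_or_pos k with h | h
    · subst h
      exact ⟨none, (h0 i).symm, by
        change |(1 : ℝ)| = t ^ 0
        rw [abs_one, pow_zero]⟩
    · refine ⟨some (i, ⟨k - 1, by omega⟩), ?_, ?_⟩
      · change a i (k - 1 + 1) = a i k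
        rw [Nat.sub_add_cancel h]
      · change |φ i (k - 1 + 1)| = t ^ k
        rw [Nat.sub_add_cancel h]
        simp only [hφ]
        have h1 : |sg (w i) k| = 1 := by
          have h2 := sg_sq (w i) k
          have h3 : |sg (w i) k| * |sg (w i) k| = 1 := by rw [← abs_mul, h2, abs_one]
          have h4 := abs_nonneg (sg (w i) k)
          nlinarith
        rw [abs_mul, h1, one_mul, abs_of_nonneg (pow_nonneg ht0.le _)]
  refine ⟨s, f, ?_, ?_, ?_, ?_, ?_⟩
  · intro v hv
    simp only [s, Finset.mem_image, Finset.mem_univ, true_and] at hv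
    obtain ⟨p, rfl⟩ := hv
    rcases p with _ | ⟨i, k⟩
    · exact ⟨0, 0, Nat.zero_le _, (h0 0).symm⟩
    · exact ⟨i, k + 1, by omega, rfl⟩
  · intro i k hk
    obtain ⟨p, hp, _⟩ := hτa i k hk
    rw [← hp]
    exact Finset.mem_image_of_mem _ (Finset.mem_univ _)
  · intro i k hk
    obtain ⟨p, hp, hp2⟩ := hτa i k hk
    rw [← hp, hf, hp2]
  · rw [hsum]
    simp only [hf]
    exact hnorm2
  · rw [hsum]
    simp only [hsum, hf]
    linarith


/-- One more vertex. -/
theorem pert {V : Type*} [DecidableEq V] (W : V → V → ℝ)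
    (hsymm : ∀ u v, W u v = W v u) (c : ℝ)
    (hc : ∀ (s : Finset V) (f : V → ℝ),
      ∑ u ∈ s, ∑ v ∈ s, W u v * f u * f v ≤ c * ∑ u ∈ s, f u ^ 2)
    (s : Finset V) (f : V → ℝ) (y : V) (hy : y ∉ s) (hyy : W y y = 0) (e : ℝ) :
    ∑ u ∈ s, ∑ v ∈ s, W u v * f u * f v + 2 * e * ∑ p ∈ s, W y p * f p
      ≤ c * (∑ u ∈ s, f u ^ 2 + e ^ 2) := by
  have h1 := hc (insert y s) (Function.update f y e)
  have hne : ∀ p ∈ s, Function.update f y e p = f p := fun p hp =>
    Function.update_of_ne (fun h => hy (by rw [← h]; exact hp)) _ _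
  rw [Finset.sum_insert hy, Finset.sum_insert hy, Finset.sum_insert hy] at h1
  simp only [Function.update_self] at h1
  have h2 : ∑ u ∈ s, Function.update f y e u ^ 2 = ∑ u ∈ s, f u ^ 2 :=
    Finset.sum_congr rfl fun u hu => by rw [hne u hu]
  have h3 : ∑ v ∈ s, W y v * e * Function.update f y e v = e * ∑ p ∈ s, W y p * f p := by
    rw [Finset.mul_sum]
    exact Finset.sum_congr rfl fun u hu => by rw [hne u hu]; ring
  have h4 : ∑ u ∈ s, ∑ v ∈ insert y s,
        W u v * Function.update f y e u * Function.update f y e v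
      = e * ∑ p ∈ s, W y p * f p + ∑ u ∈ s, ∑ v ∈ s, W u v * f u * f v := by
    rw [Finset.mul_sum, ← Finset.sum_add_distrib]
    refine Finset.sum_congr rfl fun u hu => ?_
    rw [Finset.sum_insert hy, hne u hu, Function.update_self, hsymm u y]
    congr 1
    · ring
    · exact Finset.sum_congr rfl fun v hv => by rw [hne v hv]
  rw [h2, h3, h4, hyy] at h1
  nlinarith

/-- Stars with two leaves. -/
theorem star {V : Type*} [DecidableEq V] (W : V → V → ℝ)
    (hsymm : ∀ u v, W u v = W v u) (c : ℝ) (hc0 : 0 < c)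
    (hc : ∀ (s : Finset V) (f : V → ℝ),
      ∑ u ∈ s, ∑ v ∈ s, W u v * f u * f v ≤ c * ∑ u ∈ s, f u ^ 2)
    (x a y : V) (hxa : x ≠ a) (hxy : x ≠ y) (hay : a ≠ y) (h1 : W x x = 0) (h2 : W a a = 0)
    (h3 : W y y = 0) (h4 : W a y = 0) : W x a ^ 2 + W x y ^ 2 ≤ c ^ 2 := by
  have h5 := pert W hsymm c hc {a, y} (fun v => if v = a then W x a else W x y) x
    (by simp [hxa, hxy]) h1 c
  rw [Finset.sum_pair hay, Finset.sum_pair hay, Finset.sum_pair hay, Finset.sum_pair hay,
    Finset.sum_pair hay] at h5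
  simp only [if_true, if_neg hay.symm, h2, h3, h4, hsymm y a] at h5
  have h6 : c * (W x a ^ 2 + W x y ^ 2) ≤ c * c ^ 2 := by nlinarith
  exact le_of_mul_le_mul_left h6 hc0

theorem tripod_gt {V : Type*} [DecidableEq V] (W : V → V → ℝ)
    (hsymm : ∀ u v, W u v = W v u) (c : ℝ) (hc0 : 0 < c)
    (hc : ∀ (s : Finset V) (f : V → ℝ),
      ∑ u ∈ s, ∑ v ∈ s, W u v * f u * f v ≤ c * ∑ u ∈ s, f u ^ 2)
    (N : ℕ) (a : Fin 3 → ℕ → V) (o : V) (h0 : ∀ i, a i 0 = o)
    (hinj : ∀ i j k l, k ≤ N → l ≤ N → a i k = a j l → (k = 0 ∧ l = 0) ∨ (i = j ∧ k = l))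
    (hW0 : ∀ i k l, k ≤ N → l ≤ N → k + 1 ≠ l → l + 1 ≠ k → W (a i k) (a i l) = 0)
    (hWc : ∀ i j k l, i ≠ j → 1 ≤ k → k ≤ N → 1 ≤ l → l ≤ N → W (a i k) (a j l) = 0)
    (hW1 : ∀ i k, k < N → 1 ≤ |W (a i k) (a i (k + 1))|) (t : ℝ) (ht0 : 0 < t)
    (ht : t ^ 2 = 1 / 2) (hct : c ≤ 3 * t)
    (y : V) (hy : ∀ i k, k ≤ N → y ≠ a i k) (hyy : W y y = 0) (m : ℕ) (hm : m + 11 ≤ N)
    (hWy : 1 ≤ |W y (a 2 m)|)
    (hoth : ∀ i k, k ≤ N → W y (a i k) ≠ 0 → i = 2 ∧ (k = m ∨ k = m + 2)) : False := by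
  obtain ⟨s, f, hs1, hs2, hf, hn, hq⟩ := tripod_fun W hsymm N a o h0 hinj hW0 hWc hW1 t ht0 ht
  have hys : y ∉ s := fun h => by
    obtain ⟨i, k, hk, h1⟩ := hs1 y h
    exact hy i k hk h1
  set L := ∑ p ∈ s, W y p * f p with hL
  have hne : a 2 m ≠ a 2 (m + 2) := fun h => by
    rcases hinj 2 2 m (m + 2) (by omega) (by omega) h with h | h <;> omega
  have hL2 : L = W y (a 2 m) * f (a 2 m) + W y (a 2 (m + 2)) * f (a 2 (m + 2)) := by
    rw [hL, Finset.sum_eq_add (a 2 m) (a 2 (m + 2)) hne]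
    · rintro p hp ⟨h1, h2⟩
      obtain ⟨i, k, hk, rfl⟩ := hs1 p hp
      by_contra h3
      obtain ⟨rfl, h4⟩ := hoth i k hk (fun h => h3 (by rw [h, zero_mul]))
      rcases h4 with rfl | rfl
      · exact h1 rfl
      · exact h2 rfl
    · intro h
      exact absurd (hs2 2 m (by omega)) h
    · intro h
      exact absurd (hs2 2 (m + 2) (by omega)) h
  -- the weight is less than two
  have hv : |W y (a 2 (m + 2))| ≤ 15 / 8 := by
    have h1 := star W hsymm c hc0 hc (a 2 (m + 2)) (a 2 (m + 1)) y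
      (fun h => by rcases hinj 2 2 _ _ (by omega) (by omega) h with h | h <;> omega)
      (fun h => hy 2 (m + 2) (by omega) h.symm) (fun h => hy 2 (m + 1) (by omega) h.symm)
      (hW0 2 _ _ (by omega) (by omega) (by omega) (by omega))
      (hW0 2 _ _ (by omega) (by omega) (by omega) (by omega)) hyy
      (by
        rw [hsymm]
        by_contra h
        obtain ⟨-, h1⟩ := hoth 2 (m + 1) (by omega) h
        omega)
    have h2 := hW1 2 (m + 1) (by omega)
    rw [hsymm, show m + 1 + 1 = m + 2 from rfl] at h2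
    rw [hsymm _ y] at h1
    have h3 : 1 ≤ W (a 2 (m + 2)) (a 2 (m + 1)) ^ 2 := by
      rw [← sq_abs]
      nlinarith
    have h4 : c ^ 2 ≤ 9 / 2 := by nlinarith
    have h5 : |W y (a 2 (m + 2))| ^ 2 ≤ (15 / 8) ^ 2 := by
      rw [sq_abs]
      nlinarith
    exact le_of_sq_le_sq h5 (by norm_num)
  set z := t ^ m with hz
  have hz0 : 0 < z := by positivity
  have hLabs : z / 16 ≤ |L| := by
    have h1 : |W y (a 2 m) * f (a 2 m)| = |W y (a 2 m)| * z := by
      rw [abs_mul, hf 2 m (by omega)]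
    have h2 : |W y (a 2 (m + 2)) * f (a 2 (m + 2))| ≤ 15 / 16 * z := by
      rw [abs_mul, hf 2 (m + 2) (by omega)]
      have h3 : t ^ (m + 2) = z / 2 := by rw [pow_add, ht, ← hz]; ring
      rw [h3]
      nlinarith
    have h3 := abs_sub_abs_le_abs_sub (W y (a 2 m) * f (a 2 m))
      (-(W y (a 2 (m + 2)) * f (a 2 (m + 2))))
    rw [abs_neg, sub_neg_eq_add, ← hL2, h1] at h3
    nlinarith
  obtain ⟨sg, hsg, hsg2⟩ : ∃ sg : ℝ, sg ^ 2 = 1 ∧ sg * L = |L| := by
    rcases le_total 0 L with h | h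
    · exact ⟨1, by norm_num, by rw [one_mul, abs_of_nonneg h]⟩
    · exact ⟨-1, by norm_num, by rw [abs_of_nonpos h]; ring⟩
  have key := pert W hsymm c hc s f y hys hyy (sg * (z / (48 * t)))
  rw [hn, ← hL] at key
  set E := z / (48 * t) with hE
  have hE3 : E * (48 * t) = z := by
    rw [hE]
    field_simp
  have hE0 : 0 < E := by positivity
  have e1 : 2 * (sg * E) * L = 2 * E * |L| := by rw [← hsg2]; ring
  have e2 : (sg * E) ^ 2 = E ^ 2 := by rw [mul_pow, hsg, one_mul]
  rw [e1, e2] at key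
  set Y := (1 / 2 : ℝ) ^ N with hY
  have hY0 : 0 < Y := by positivity
  have hY1 : Y ≤ 1 := pow_le_one₀ (by norm_num) (by norm_num)
  have k1 : c * (4 - 3 * Y + E ^ 2) ≤ 3 * t * (4 - 3 * Y + E ^ 2) :=
    mul_le_mul_of_nonneg_right hct (by nlinarith [sq_nonneg E])
  have k2 : 2 * E * (z / 16) ≤ 2 * E * |L| := by
    apply mul_le_mul_of_nonneg_left hLabs
    positivity
  -- 2 E z / 16 = 6 t E ^ 2
  have k3 : 2 * E * (z / 16) = 6 * t * E ^ 2 := by rw [← hE3]; ring
  have k4 : 3 * t * E ^ 2 ≤ 3 * t * Y := by nlinarith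
  have k5 : E ^ 2 ≤ Y := le_of_mul_le_mul_left k4 (by positivity)
  have k6 : E ^ 2 * (48 ^ 2 * t ^ 2) = (1 / 2) ^ m := by
    have h1 : z ^ 2 = (1 / 2) ^ m := by
      rw [hz, ← pow_mul, mul_comm, pow_mul, ht]
    rw [← h1, ← hE3]; ring
  rw [ht] at k6
  have k7 : Y ≤ (1 / 2) ^ (m + 11) := pow_le_pow_of_le_one (by norm_num) (by norm_num) hm
  have k8 : (1 / 2 : ℝ) ^ (m + 11) = (1 / 2) ^ m / 2048 := by
    rw [pow_add]; norm_num; ring
  rw [k8] at k7
  have k9 : 0 < (1 / 2 : ℝ) ^ m := by positivity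
  linarith

end Pool.Agent.N510.CT
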