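import Pool.Agent.N510.CT.Graded
import Pool.Agent.N510.CT.Mod

set_option autoImplicit false
set_option linter.style.haveILetI false
set_option linter.unusedSectionVars false
set_option linter.unusedVariables false

/-! Modules over crossed products above the norm `3 / √2`. -/

namespace Pool.Agent.N510.CT

open Matrix TH57.Thr TH6.LF TH6.PF TH6.FB

theorem graded_pres {T R : Type} [Ring T] [Ring R] [Nontrivial R] {G : Type} [Group G]
    (ϑ : T →+* MonoidAlgebra R G) (hϑ : Function.Injective ϑ)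
    (hgen : AddSubgroup.closure {x : T | ∃ g r, ϑ x = MonoidAlgebra.single g r} = ⊤)
    (P : Type) [AddCommGroup P] [Module T P] (hP : Module.FinitePresentation T P)
    (c : ℝ) (hc : 9 / 2 < c ^ 2) :
    ∃ (m n : ℕ) (M : Matrix (Fin m) (Fin n) T) (A : Matrix (Fin m) (Fin n) (MonoidAlgebra ℤ G)),
      NormLE A c ∧ (∀ i j g, (ϑ (M i j)).coeff g ≠ 0 → (A i j).coeff g ≠ 0) ∧
      Nonempty (P ≃ₗ[T] Coker M) := by
  obtain ⟨n, Ks, e0, hK⟩ := Module.FinitePresentation.exists_fin T P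
  obtain ⟨m, g, hg⟩ := Ks.fg_iff_exists_fin_linearMap.1 hK
  set A : Matrix (Fin m) (Fin n) T := LinearMap.toMatrixRight' g with hA
  have hgA : A.vecMulLinear = g := LinearMap.toMatrixRight'.symm_apply_apply g
  have hKS : Ks = LinearMap.range A.vecMulLinear := by rw [← hg, ← hgA]
  have hr0 : 0 < Real.sqrt 2 := Real.sqrt_pos.2 two_pos
  have hr : Real.sqrt 2 ^ 2 = 2 := Real.sq_sqrt two_pos.le
  set r := Real.sqrt 2 with hrd
  have hc0 : 0 < |c| := by
    rw [abs_pos]; rintro rfl; norm_num at hc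
  have hγ : 3 < |c| * r := by
    have h1 : 3 ^ 2 < (|c| * r) ^ 2 := by
      rw [mul_pow, sq_abs, hr]; linarith
    exact lt_of_pow_lt_pow_left₀ 2 (by positivity) h1
  obtain ⟨q, i1, i2, X, Y, Z, W, hZ, hZW, hWZ, hB, hcard, hN⟩ :=
    Gr.mod_all ϑ hϑ hgen hr0 hr hγ A
  set N : Matrix (Fin m ⊕ q) (Fin n ⊕ q) T := fromBlocks 0 X Y Z with hN'
  have hmap : N.map ϑ = fromBlocks 0 (X.map ϑ) (Y.map ϑ) (Z.map ϑ) := by
    rw [hN', fromBlocks_map, Matrix.map_zero _ (map_zero ϑ)]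
  have hNc : NormLE (pat (N.map ϑ)) |c| := by
    refine normLE_of_ip' _ |c| hc0 fun v v' => ?_
    rw [hmap, ip_blocks']
    have h1 := hN (v ∘ Sum.inl) (v' ∘ Sum.inl) (v' ∘ Sum.inr) (v ∘ Sum.inr)
    unfold Gr.tq at h1
    have n1 := normSq_nonneg (v ∘ Sum.inl)
    have n2 := normSq_nonneg (v' ∘ Sum.inl)
    refine le_of_mul_le_mul_left ?_ hr0
    rw [normSq_sum v, normSq_sum v']
    nlinarith
  have hNc' : NormLE (pat (N.map ϑ)) c := by
    intro v
    have := hNc v
    rwa [sq_abs] at this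
  let e : Fin (m + Fintype.card q) ≃ Fin m ⊕ q :=
    finSumFinEquiv.symm.trans (Equiv.sumCongr (Equiv.refl _) (Fintype.equivFin q).symm)
  let e' : Fin (n + Fintype.card q) ≃ Fin n ⊕ q :=
    finSumFinEquiv.symm.trans (Equiv.sumCongr (Equiv.refl _) (Fintype.equivFin q).symm)
  obtain ⟨φ1⟩ := coker_model A X Y Z W hZW hWZ hB
  obtain ⟨φ2⟩ := coker_reindex N e e'
  refine ⟨m + Fintype.card q, n + Fintype.card q, N.submatrix e e',
    (pat (N.map ϑ)).submatrix e e', NormLE_re3 e e' (pat (N.map ϑ)) c hNc', ?_,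
    ⟨((e0.trans (Submodule.quotEquivOfEq _ _ hKS)).trans φ1).trans φ2⟩⟩
  intro i j x hx
  change (pat (N.map ϑ) (e i) (e' j)).coeff x ≠ 0
  rw [pat_ne]
  exact hx

theorem crossed_pres {S : Type} [Ring S] {G : Type} [Group G] (X : CrossedProduct S G)
    (P : Type) [AddCommGroup P] [Module S P] (hP : Module.FinitePresentation S P)
    (c : ℝ) (hc : 9 / 2 < c ^ 2) :
    ∃ (m n : ℕ) (M : Matrix (Fin m) (Fin n) S) (A : Matrix (Fin m) (Fin n) (MonoidAlgebra ℤ G)),
      NormLE A c ∧ CtrlC X A M ∧ Nonempty (P ≃ₗ[S] Coker M) := by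
  cases subsingleton_or_nontrivial S with
  | inl hS =>
    haveI : Subsingleton P := Module.subsingleton S P
    haveI : Subsingleton (Coker (0 : Matrix (Fin 0) (Fin 0) S)) := Module.subsingleton S _
    refine ⟨0, 0, 0, 0, ?_, fun i => i.elim0, ⟨LinearEquiv.ofSubsingleton _ _⟩⟩
    intro v
    have h1 : ∀ w : Fin 0 → MonoidAlgebra ℝ G, normSq w = 0 := fun w => by
      unfold normSq
      exact Fintype.sum_empty _
    rw [h1, h1, mul_zero]
  | inr hS =>
    refine graded_pres X.δ X.inj ?_ P hP c hc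
    rw [eq_top_iff]
    intro x hx
    clear hx
    rw [← X.sum_comp x]
    refine AddSubgroup.sum_mem _ fun g _ => ?_
    exact AddSubgroup.subset_closure ⟨g, _, X.comp x g⟩

end Pool.Agent.N510.CT
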