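import Pool.Agent.N510.LT.UMod
import Pool.Agent.N510.CT.Fib

set_option autoImplicit false
set_option linter.unusedSectionVars false
set_option linter.unusedSimpArgs false
set_option linter.style.haveILetI false
set_option linter.unusedVariables false

/-! Linear models of matrices over a ring graded by a group, with small support patterns. -/

namespace Pool.Agent.N510.CT.Gr

open Matrix TH57.Thr TH6.LF TH6.PF TH6.FB

variable {T R : Type} [Ring T] [Ring R] {G : Type} [Group G]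

/-- the pattern of a matrix -/
noncomputable def tq (ϑ : T →+* MonoidAlgebra R G) {ι κ : Type} (A : Matrix ι κ T) :
    Matrix ι κ (MonoidAlgebra ℝ G) := tp (A.map ϑ)

section tq

variable (ϑ : T →+* MonoidAlgebra R G) {ι κ : Type}

theorem tq_zero : tq ϑ (0 : Matrix ι κ T) = 0 := by
  unfold tq
  rw [Matrix.map_zero _ (map_zero ϑ), tp_zero]

theorem tq_neg (A : Matrix ι κ T) : tq ϑ (-A) = tq ϑ A := by
  unfold tq
  have h : (-A).map ϑ = -(A.map ϑ) := by
    ext1 i j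
    exact map_neg ϑ _
  rw [h, tp_neg]

theorem tq_one [Nontrivial R] [Fintype ι] [DecidableEq ι] : tq ϑ (1 : Matrix ι ι T) = 1 := by
  unfold tq
  rw [Matrix.map_one _ (map_zero ϑ) (map_one ϑ), tp_one]

theorem tq_fromBlocks {ι' κ' : Type} (A : Matrix ι κ T) (B : Matrix ι κ' T)
    (C : Matrix ι' κ T) (D : Matrix ι' κ' T) :
    tq ϑ (fromBlocks A B C D) = fromBlocks (tq ϑ A) (tq ϑ B) (tq ϑ C) (tq ϑ D) := by
  unfold tq
  rw [Matrix.fromBlocks_map, tp_fromBlocks]

theorem tq_fromCols {κ' : Type} (A : Matrix ι κ T) (B : Matrix ι κ' T) :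
    tq ϑ (fromCols A B) = fromCols (tq ϑ A) (tq ϑ B) := by
  unfold tq
  rw [← tp_fromCols]
  congr 1
  ext1 i j
  rcases j with j | j <;> rfl

theorem tq_fromRows {κ' : Type} (A : Matrix ι κ T) (B : Matrix κ' κ T) :
    tq ϑ (fromRows A B) = fromRows (tq ϑ A) (tq ϑ B) := by
  unfold tq
  rw [← tp_fromRows]
  congr 1
  ext1 i j
  rcases i with i | i <;> rfl

theorem vq_fromCols {p n q : Type} [Fintype p] [Fintype q] (B : Matrix p n T)
    (x : p → MonoidAlgebra ℝ G) :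
    x ᵥ* tq ϑ (fromCols B (0 : Matrix p q T)) = Sum.elim (x ᵥ* tq ϑ B) 0 := by
  rw [tq_fromCols, tq_zero]
  funext j
  rcases j with j | j <;> simp [Matrix.vecMul, dotProduct]

theorem vq_fromRows {p n q : Type} [Fintype p] [Fintype q] (B : Matrix p n T)
    (x : p ⊕ q → MonoidAlgebra ℝ G) :
    x ᵥ* tq ϑ (fromRows B (0 : Matrix q n T)) = (x ∘ Sum.inl) ᵥ* tq ϑ B := by
  rw [tq_fromRows, tq_zero, Matrix.vecMul_fromRows, Matrix.vecMul_zero, add_zero]

theorem vq_fromRows' {p n q : Type} [Fintype p] [Fintype q] (B : Matrix p n T)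
    (x : q ⊕ p → MonoidAlgebra ℝ G) :
    x ᵥ* tq ϑ (fromRows (0 : Matrix q n T) B) = (x ∘ Sum.inr) ᵥ* tq ϑ B := by
  rw [tq_fromRows, tq_zero, Matrix.vecMul_fromRows, Matrix.vecMul_zero, zero_add]

/-- the squared norm of the pattern is at most `w` -/
def PX [Fintype ι] [Fintype κ] (P : Matrix ι κ T) (w : ℝ) : Prop := PS (P.map ϑ) w

theorem PX_one [Nontrivial R] [Fintype ι] [DecidableEq ι] : PX ϑ (1 : Matrix ι ι T) 1 := by
  unfold PX
  rw [Matrix.map_one _ (map_zero ϑ) (map_one ϑ)]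
  exact PS_one

theorem PX_ext [Nontrivial R] {p n r : Type} [Fintype p] [Fintype n] [Fintype r] [DecidableEq r]
    (B : Matrix p n T) (h : PX ϑ B 2) : PX ϑ (fromBlocks B 0 0 (1 : Matrix r r T)) 2 := by
  unfold PX
  rw [Matrix.fromBlocks_map, Matrix.map_zero _ (map_zero ϑ), Matrix.map_zero _ (map_zero ϑ),
    Matrix.map_one _ (map_zero ϑ) (map_one ϑ)]
  exact PS_ext _ h

end tq

variable [Nontrivial R]

/-- `B` is a product of `k + 1` matrices whose patterns have squared norm at most two. -/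
def PrX (ϑ : T →+* MonoidAlgebra R G) : ℕ → ∀ (p n : Type) [Fintype p] [Fintype n],
    Matrix p n T → Prop
  | 0, _, _, _, _, B => PX ϑ B 2
  | k + 1, p, n, _, _, B => ∃ (r : Type) (_ : Fintype r) (_ : DecidableEq r)
      (P : Matrix p r T) (C : Matrix r n T),
      PX ϑ P 2 ∧ PrX ϑ k r n C ∧ B = P * C

variable (ϑ : T →+* MonoidAlgebra R G)

theorem PrX_mul : ∀ (k : ℕ) (p n l : Type) [Fintype p] [Fintype n] [Fintype l]
    [DecidableEq n] (B : Matrix p n T) (Q : Matrix n l T),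
    PrX ϑ k p n B → PX ϑ Q 2 → PrX ϑ (k + 1) p l (B * Q) := by
  intro k
  induction k with
  | zero =>
    intro p n l _ _ _ _ B Q h hQ
    exact ⟨n, inferInstance, inferInstance, B, Q, h, hQ, rfl⟩
  | succ k ih =>
    intro p n l _ _ _ _ B Q h hQ
    obtain ⟨r, i1, i2, P, C, hP, hC, rfl⟩ := h
    exact ⟨r, i1, i2, P, C * Q, hP, ih r n l C Q hC hQ, Matrix.mul_assoc _ _ _⟩

theorem PrX_ext : ∀ (k : ℕ) (p n r : Type) [Fintype p] [Fintype n] [Fintype r]
    [DecidableEq r] (B : Matrix p n T), PrX ϑ k p n B →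
    PrX ϑ k (p ⊕ r) (n ⊕ r) (fromBlocks B 0 0 (1 : Matrix r r T)) := by
  intro k
  induction k with
  | zero =>
    intro p n r _ _ _ _ B h
    exact PX_ext ϑ B h
  | succ k ih =>
    intro p n r _ _ _ _ B h
    obtain ⟨t, i1, i2, P, C, hP, hC, rfl⟩ := h
    refine ⟨t ⊕ r, inferInstance, inferInstance, fromBlocks P 0 0 1, fromBlocks C 0 0 1,
      PX_ext ϑ P hP, ih t n r C hC, ?_⟩
    rw [Matrix.fromBlocks_multiply]; simp

section add

variable {p n : Type} [Fintype p] [Fintype n] [DecidableEq p] [DecidableEq n]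

theorem PrX_add (k : ℕ) (B : Matrix p n T) (h : PrX ϑ k p n B)
    (i : p) (j : n) (g : G) (r : R) (hr : r ≠ 0) (a : T) (ha : ϑ a = MonoidAlgebra.single g r) :
    PrX ϑ (k + 2) p n (B + Matrix.single i j a) := by
  let C1 : Matrix p (p ⊕ Unit) T := fromCols 1 (fun k _ => if k = i then 1 else 0)
  let C2 : Matrix (n ⊕ Unit) n T := fromRows 1 (fun _ l => if l = j then a else 0)
  have hC1l : ∀ k l, C1 k (Sum.inl l) = if k = l then 1 else 0 := fun k l => Matrix.one_apply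
  have hC1r : ∀ k l, C1 k (Sum.inr l) = if k = i then 1 else 0 := fun k l => rfl
  have hC2l : ∀ k l, C2 (Sum.inl k) l = if k = l then 1 else 0 := fun k l => Matrix.one_apply
  have hC2r : ∀ k l, C2 (Sum.inr k) l = if l = j then a else 0 := fun k l => rfl
  have m1 : MonoidAlgebra.map (Int.castAddHom ℝ) (1 : MonoidAlgebra ℤ G) = 1 := by
    ext h; simp [MonoidAlgebra.one_def]
  have m0 : MonoidAlgebra.map (Int.castAddHom ℝ) (0 : MonoidAlgebra ℤ G) = 0 := by
    ext h; simp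
  have ma : MonoidAlgebra.map (Int.castAddHom ℝ) (MonoidAlgebra.single g (1 : ℤ))
      = MonoidAlgebra.single g 1 := by
    ext h; simp
  have hC1 : PX ϑ C1 2 := by
    intro x
    have h1 : x ᵥ* tp (C1.map ϑ) = Sum.elim x (fun _ => x i) := by
      funext l
      rcases l with l | l
      · simp [tp, Matrix.vecMul, dotProduct, hC1l, apply_ite, pat1_one, m1, map_one ϑ, map_zero ϑ]
      · simp [tp, Matrix.vecMul, dotProduct, hC1r, apply_ite, pat1_one, m1, map_one ϑ, map_zero ϑ]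
    rw [h1, normSq_elim]
    have h2 : normSq (fun _ : Unit => x i) ≤ normSq x := by
      rw [normSq_eq, normSq_eq]
      simp only [Finset.univ_unique, Finset.sum_const, Finset.card_singleton, one_smul]
      exact Finset.single_le_sum (f := fun i => n1 (x i)) (fun _ _ => n1_nonneg _)
        (Finset.mem_univ i)
    linarith
  have hC2 : PX ϑ C2 2 := by
    intro x
    have h1 : x ᵥ* tp (C2.map ϑ) = (x ∘ Sum.inl)
        + (fun l => if l = j then x (Sum.inr ()) * MonoidAlgebra.single g (1 : ℝ) else 0) := by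
      funext l
      simp only [tp, Matrix.vecMul, dotProduct, Fintype.sum_sum_type, Matrix.map_apply, hC2l,
        hC2r, apply_ite, map_one ϑ, map_zero ϑ, pat1_one, pat1_zero, m1, m0, mul_one, mul_zero, Finset.sum_ite_eq',
        Finset.mem_univ, if_true, Pi.add_apply, Function.comp_apply, Finset.univ_unique,
        Finset.sum_singleton, ha, pat1_single g r hr, ma]
      by_cases hl : l = j
      · simp [hl]
      · simp [hl]
    have h3 : normSq (fun l => if l = j then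
        x (Sum.inr ()) * MonoidAlgebra.single g (1 : ℝ) else 0) = n1 (x (Sum.inr ())) := by
      rw [normSq_eq]
      rw [Finset.sum_eq_single j]
      · rw [if_pos rfl]
        exact n1_mul_single _ _
      · intro l _ hl
        rw [if_neg hl, n1_zero]
      · intro h; exact absurd (Finset.mem_univ _) h
    have h4 : normSq (x ∘ Sum.inr) = n1 (x (Sum.inr ())) := by
      rw [normSq_eq]; simp
    rw [h1]
    have h2 := normSq_add_le (x ∘ Sum.inl) (fun l => if l = j then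
      x (Sum.inr ()) * MonoidAlgebra.single g (1 : ℝ) else 0) 1 one_pos
    rw [h3] at h2
    rw [normSq_sum x, h4]
    linarith
  have h1 := PrX_mul ϑ k _ _ _ _ C2 (PrX_ext ϑ k p n Unit B h) hC2
  refine ⟨p ⊕ Unit, inferInstance, inferInstance, C1, _, hC1, h1, ?_⟩
  ext1 k l
  simp only [Matrix.mul_apply, Fintype.sum_sum_type, hC1l, hC1r, hC2l, hC2r, fromBlocks_apply₁₁,
    fromBlocks_apply₁₂, fromBlocks_apply₂₁, fromBlocks_apply₂₂, Matrix.zero_apply, zero_mul,
    Finset.sum_const_zero, add_zero, zero_add, Finset.univ_unique, Finset.sum_singleton,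
    Matrix.one_apply_eq, one_mul, mul_ite, mul_one, mul_zero, Finset.sum_ite_eq', Finset.mem_univ,
    if_true, ite_mul, Finset.sum_ite_eq, Matrix.add_apply, Matrix.single_apply]
  congr 1
  · simp
  · by_cases hk : k = i
    · subst hk
      by_cases hl : l = j
      · subst hl; simp
      · have hl' : ¬ j = l := fun h => hl h.symm
        simp [hl, hl']
    · have hk' : ¬ i = k := fun h => hk h.symm
      simp [hk, hk']

theorem PrX_all (hϑ : Function.Injective ϑ)
    (hgen : AddSubgroup.closure {x : T | ∃ g r, ϑ x = MonoidAlgebra.single g r} = ⊤)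
    (A : Matrix p n T) : ∃ k, PrX ϑ k p n A := by
  have key : ∀ M : Matrix p n T, ∀ A : Matrix p n T,
      (∃ k, PrX ϑ k p n A) → ∃ k, PrX ϑ k p n (A + M) := by
    intro M
    induction M using Matrix.induction_on' with
    | h_zero => intro A h; simpa using h
    | h_add P Q hP hQ =>
      intro A h
      rw [← add_assoc]
      exact hQ _ (hP _ h)
    | h_std_basis i j a =>
      have ha : a ∈ AddSubgroup.closure {x : T | ∃ g r, ϑ x = MonoidAlgebra.single g r} := by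
        rw [hgen]; trivial
      have hset : ({x : T | ∃ g r, ϑ x = MonoidAlgebra.single g r} ∪
          -{x : T | ∃ g r, ϑ x = MonoidAlgebra.single g r}) =
          {x : T | ∃ g r, ϑ x = MonoidAlgebra.single g r} := by
        ext x
        constructor
        · rintro (h | h)
          · exact h
          · obtain ⟨g, r, h1⟩ := h
            refine ⟨g, -r, ?_⟩
            rw [MonoidAlgebra.single_neg, ← h1, map_neg, neg_neg]
        · exact Or.inl
      rw [← AddSubgroup.mem_toAddSubmonoid, AddSubgroup.closure_toAddSubmonoid, hset] at ha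
      induction ha using AddSubmonoid.closure_induction with
      | zero => intro A h; simpa using h
      | add a b _ _ ha hb =>
        intro A h
        rw [Matrix.single_add, ← add_assoc]
        exact hb _ (ha _ h)
      | mem a ha =>
        intro A h
        obtain ⟨g, r, hgr⟩ := ha
        by_cases hr0 : r = 0
        · have h0 : a = 0 := by
            apply hϑ
            rw [hgr, hr0, MonoidAlgebra.single_zero, map_zero]
          subst h0; simpa using h
        · obtain ⟨k, hk⟩ := h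
          exact ⟨k + 2, PrX_add ϑ k _ hk i j g r hr0 a hgr⟩
  have h0 : PX ϑ (0 : Matrix p n T) 2 := by
    unfold PX
    rw [Matrix.map_zero _ (map_zero ϑ)]
    intro x
    rw [tp_zero, Matrix.vecMul_zero]
    have : normSq (0 : n → MonoidAlgebra ℝ G) = 0 := by
      rw [normSq_eq]
      exact Finset.sum_eq_zero fun i _ => n1_zero
    rw [this]
    exact mul_nonneg (by norm_num) (normSq_nonneg _)
  obtain ⟨k, hk⟩ := key A 0 ⟨0, h0⟩
  exact ⟨k, by simpa using hk⟩

end add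

/-- A linear model of the matrix `B`. -/
def Mod (ϑ : T →+* MonoidAlgebra R G) (r γ β : ℝ) {p n : Type} [Fintype p] [Fintype n]
    (B : Matrix p n T) : Prop :=
  ∃ (q : Type) (_ : Fintype q) (_ : DecidableEq q) (X : Matrix p q T)
    (Y : Matrix q n T) (Z W : Matrix q q T),
    Z ∈ El (R := T) q ∧ Z * W = 1 ∧ W * Z = 1 ∧ -(X * W * Y) = B ∧
    3 ≤ Fintype.card q ∧
    ∀ (x : p → MonoidAlgebra ℝ G) (y : n → MonoidAlgebra ℝ G) (a b : q → MonoidAlgebra ℝ G),
      r * (2 * |ip (x ᵥ* tq ϑ X) a + ip (b ᵥ* tq ϑ Z) a + ip (b ᵥ* tq ϑ Y) y|) ≤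
        β * normSq x + 2 * normSq y + γ * (normSq a + normSq b)

section mod

variable {p n m : Type} [Fintype p] [Fintype n] [Fintype m] [DecidableEq p] [DecidableEq n]
  [DecidableEq m]

theorem Mod.mono {r γ β β' : ℝ} {B : Matrix p n T} (h : Mod ϑ r γ β B)
    (hb : β ≤ β') : Mod ϑ r γ β' B := by
  obtain ⟨q, i1, i2, X, Y, Z, W, h1, h2, h3, h4, h5, h6⟩ := h
  refine ⟨q, i1, i2, X, Y, Z, W, h1, h2, h3, h4, h5, 
    fun x y a b => (h6 x y a b).trans ?_⟩
  have := mul_le_mul_of_nonneg_right hb (normSq_nonneg x)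
  linarith

theorem mod_base {r γ : ℝ} (hr0 : 0 < r) (hr : r ^ 2 = 2) (hγ : 3 ≤ γ)
    (B : Matrix p n T) (hB' : PX ϑ B 2) : Mod ϑ r γ 2 B := by
  have hB := hB'
  refine ⟨n ⊕ Fin 3, inferInstance, inferInstance, fromCols B 0, fromRows (-1) 0, 1, 1,
    one_mem _, by rw [Matrix.one_mul], by rw [Matrix.one_mul], ?_, by simp,
    ?_⟩
  · rw [Matrix.mul_one, Matrix.fromCols_mul_fromRows]
    simp
  · intro x y a b
    rw [vq_fromCols, tq_one, Matrix.vecMul_one, vq_fromRows, tq_neg, tq_one, Matrix.vecMul_one,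
      ip_elim, ip_elim b a]
    have e4 : (Sum.elim (x ᵥ* tq ϑ B) (0 : Fin 3 → MonoidAlgebra ℝ G)) ∘ Sum.inl
        = x ᵥ* tq ϑ B := rfl
    have e5 : (Sum.elim (x ᵥ* tq ϑ B) (0 : Fin 3 → MonoidAlgebra ℝ G)) ∘ Sum.inr = 0 := rfl
    rw [e4, e5, ip_zero_left, normSq_sum a, normSq_sum b]
    set a1 := a ∘ Sum.inl
    set a2 := a ∘ Sum.inr
    set b1 := b ∘ Sum.inl
    set b2 := b ∘ Sum.inr
    have f1 := rip hr0 hr (x ᵥ* tq ϑ B) a1 1 one_pos
    have f2 := rip hr0 hr b1 a1 2 two_pos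
    have f3 := rip hr0 hr b1 y 1 one_pos
    have f4 := rip hr0 hr b2 a2 1 one_pos
    have f5 : normSq (x ᵥ* tq ϑ B) ≤ 2 * normSq x := hB x
    have g1 := normSq_nonneg a1
    have g2 := normSq_nonneg a2
    have g3 := normSq_nonneg b1
    have g4 := normSq_nonneg b2
    have habs : |ip (x ᵥ* tq ϑ B) a1 + 0 + (ip b1 a1 + ip b2 a2) + ip b1 y| ≤
        |ip (x ᵥ* tq ϑ B) a1| + |ip b1 a1| + |ip b2 a2| + |ip b1 y| := by
      have t1 := abs_add_le (ip (x ᵥ* tq ϑ B) a1 + 0 + (ip b1 a1 + ip b2 a2)) (ip b1 y)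
      have t2 := abs_add_le (ip (x ᵥ* tq ϑ B) a1 + 0) (ip b1 a1 + ip b2 a2)
      have t3 := abs_add_le (ip b1 a1) (ip b2 a2)
      rw [add_zero] at t2 t1 ⊢
      linarith
    have hm := mul_le_mul_of_nonneg_left habs (show 0 ≤ r * 2 by positivity)
    have h1 : γ * (normSq a1 + normSq a2 + (normSq b1 + normSq b2))
        ≥ 3 * (normSq a1 + normSq a2 + (normSq b1 + normSq b2)) :=
      mul_le_mul_of_nonneg_right hγ (by positivity)
    norm_num at f1 f2 f3 f4
    nlinarith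

theorem mod_step {r γ β w : ℝ} (hr0 : 0 < r) (hr : r ^ 2 = 2) (hβ : β < γ)
    (hδ : 0 < γ - 2 / (γ - β)) (P : Matrix m p T) (hP' : PX ϑ P w)
    (B : Matrix p n T) (h : Mod ϑ r γ β B) :
    Mod ϑ r γ (2 * w / (γ - 2 / (γ - β))) (P * B) := by
  have hP := hP'
  obtain ⟨q, i1, i2, X, Y, Z, W, h1, h2, h3, h4, h5, h6⟩ := h
  refine ⟨p ⊕ q, inferInstance, inferInstance, fromCols (-P) 0, fromRows 0 Y,
    fromBlocks 1 X 0 Z, fromBlocks 1 (-(X * W)) 0 W, ?_, ?_, ?_, ?_, ?_,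
    ?_⟩
  · have e : fromBlocks 1 X 0 Z = fromBlocks (1 : Matrix p p T) 0 0 Z
        * (1 + fromBlocks 0 X 0 0) := by
      rw [← Matrix.fromBlocks_one, Matrix.fromBlocks_add, Matrix.fromBlocks_multiply]
      simp
    rw [e]
    refine mul_mem (el_ext2 Z h1) (el_unip (Finset.univ.filter fun v : p ⊕ q => v.isLeft) _ ?_)
    rintro (i | i) (j | j) h <;> simp at h ⊢
  · rw [Matrix.fromBlocks_multiply, ← Matrix.fromBlocks_one]
    simp [h2]
  · rw [Matrix.fromBlocks_multiply, ← Matrix.fromBlocks_one]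
    simp [h3, Matrix.mul_assoc]
  · rw [Matrix.fromCols_mul_fromBlocks, Matrix.fromCols_mul_fromRows, ← h4]
    simp [Matrix.mul_assoc]
  · rw [Fintype.card_sum]; omega
  · intro x y a b
    have e2 : b ᵥ* tq ϑ (fromBlocks (1 : Matrix p p T) X 0 Z)
        = Sum.elim (b ∘ Sum.inl) ((b ∘ Sum.inl) ᵥ* tq ϑ X + (b ∘ Sum.inr) ᵥ* tq ϑ Z) := by
      rw [tq_fromBlocks, tq_one, tq_zero]
      conv_lhs => rw [← Sum.elim_comp_inl_inr b]
      rw [Matrix.vecMul_fromBlocks]
      simp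
    rw [vq_fromCols, tq_neg, e2, vq_fromRows', ip_elim, ip_elim (Sum.elim _ _) a]
    have e4 : (Sum.elim (x ᵥ* tq ϑ P) (0 : q → MonoidAlgebra ℝ G)) ∘ Sum.inl
        = x ᵥ* tq ϑ P := rfl
    have e5 : (Sum.elim (x ᵥ* tq ϑ P) (0 : q → MonoidAlgebra ℝ G)) ∘ Sum.inr = 0 := rfl
    have e6 : (Sum.elim (b ∘ Sum.inl) ((b ∘ Sum.inl) ᵥ* tq ϑ X + (b ∘ Sum.inr) ᵥ* tq ϑ Z))
        ∘ Sum.inl = b ∘ Sum.inl := rfl
    have e7 : (Sum.elim (b ∘ Sum.inl) ((b ∘ Sum.inl) ᵥ* tq ϑ X + (b ∘ Sum.inr) ᵥ* tq ϑ Z))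
        ∘ Sum.inr = (b ∘ Sum.inl) ᵥ* tq ϑ X + (b ∘ Sum.inr) ᵥ* tq ϑ Z := rfl
    rw [e4, e5, e6, e7, ip_zero_left, normSq_sum a, normSq_sum b, ip_add_left]
    set a1 := a ∘ Sum.inl
    set a2 := a ∘ Sum.inr
    set b1 := b ∘ Sum.inl
    set b2 := b ∘ Sum.inr
    have f0 := h6 b1 y a2 b2
    have hγβ : 0 < γ - β := by linarith
    have f1 := rip hr0 hr b1 a1 (γ - β) hγβ
    have f2 := rip hr0 hr (x ᵥ* tq ϑ P) a1 (2 / (γ - 2 / (γ - β))) (by positivity)
    have f3 : normSq (x ᵥ* tq ϑ P) ≤ w * normSq x := hP x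
    set δ := γ - 2 / (γ - β) with hδd
    have f4 : 2 / (2 / δ) = δ := by field_simp
    rw [f4] at f2
    have f5 : 2 / δ * normSq (x ᵥ* tq ϑ P) ≤ 2 * w / δ * normSq x := by
      have := mul_le_mul_of_nonneg_left f3 (show 0 ≤ 2 / δ by positivity)
      calc _ ≤ 2 / δ * (w * normSq x) := this
        _ = _ := by ring
    have habs : |ip (x ᵥ* tq ϑ P) a1 + 0 + (ip b1 a1 + (ip (b1 ᵥ* tq ϑ X) a2
        + ip (b2 ᵥ* tq ϑ Z) a2)) + ip (b2 ᵥ* tq ϑ Y) y| ≤
        |ip (x ᵥ* tq ϑ P) a1| + |ip b1 a1| + |ip (b1 ᵥ* tq ϑ X) a2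
        + ip (b2 ᵥ* tq ϑ Z) a2 + ip (b2 ᵥ* tq ϑ Y) y| := by
      have t1 := abs_add_le (ip (x ᵥ* tq ϑ P) a1) (ip b1 a1 + (ip (b1 ᵥ* tq ϑ X) a2
        + ip (b2 ᵥ* tq ϑ Z) a2 + ip (b2 ᵥ* tq ϑ Y) y))
      have t2 := abs_add_le (ip b1 a1) (ip (b1 ᵥ* tq ϑ X) a2
        + ip (b2 ᵥ* tq ϑ Z) a2 + ip (b2 ᵥ* tq ϑ Y) y)
      have t3 : ip (x ᵥ* tq ϑ P) a1 + 0 + (ip b1 a1 + (ip (b1 ᵥ* tq ϑ X) a2
        + ip (b2 ᵥ* tq ϑ Z) a2)) + ip (b2 ᵥ* tq ϑ Y) y
        = ip (x ᵥ* tq ϑ P) a1 + (ip b1 a1 + (ip (b1 ᵥ* tq ϑ X) a2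
        + ip (b2 ᵥ* tq ϑ Z) a2 + ip (b2 ᵥ* tq ϑ Y) y)) := by ring
      rw [t3]
      linarith
    have hm := mul_le_mul_of_nonneg_left habs (show 0 ≤ r * 2 by positivity)
    have h7 : δ * normSq a1 = γ * normSq a1 - 2 / (γ - β) * normSq a1 := by
      rw [hδd]; ring
    rw [h7] at f2
    linarith

theorem mod_reduce {r γ : ℝ} (hr0 : 0 < r) (hr : r ^ 2 = 2) (hγ : 3 < γ)
    (B : Matrix p n T) (h : Mod ϑ r γ 2 B) : Mod ϑ r γ 1 B := by
  set η : ℝ := (γ - 3) / ((γ - 2) * (γ + 1)) with hη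
  have hη0 : 0 < η := div_pos (by linarith) (mul_pos (by linarith) (by linarith))
  have key : ∀ k : ℕ, ∀ β : ℝ, β ≤ 2 → β ≤ 1 + k * η → Mod ϑ r γ β B → Mod ϑ r γ 1 B := by
    intro k
    induction k with
    | zero =>
      intro β _ hb hB
      exact Mod.mono ϑ hB (by simpa using hb)
    | succ k ih =>
      intro β hβ2 hb hB
      by_cases h1 : β ≤ 1
      · exact Mod.mono ϑ hB h1
      push Not at h1
      have hγβ : 0 < γ - β := by linarith
      have hD : 0 < γ * (γ - β) - 2 := by nlinarith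
      have hδ : γ - 2 / (γ - β) = (γ * (γ - β) - 2) / (γ - β) := by
        field_simp
      have hδ0 : 0 < γ - 2 / (γ - β) := by rw [hδ]; positivity
      have hstep := mod_step ϑ hr0 hr (by linarith) hδ0 (1 : Matrix p p T)
        (PX_one ϑ) B hB
      rw [Matrix.one_mul, mul_one, hδ] at hstep
      have hval : 2 / ((γ * (γ - β) - 2) / (γ - β)) = 2 * (γ - β) / (γ * (γ - β) - 2) := by
        field_simp
      rw [hval] at hstep
      have hle : 2 * (γ - β) / (γ * (γ - β) - 2) ≤ β - η := by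
        have h2 : (γ - 3) / ((γ - 2) * (γ + 1)) ≤ (γ - 3) / (γ * (γ - β) - 2) := by
          apply div_le_div_of_nonneg_left (by linarith) hD
          nlinarith
        have h3 : 2 * (γ - β) / (γ * (γ - β) - 2) + (γ - 3) / (γ * (γ - β) - 2) ≤ β := by
          rw [← add_div, div_le_iff₀ hD]
          nlinarith [mul_nonneg (show 0 ≤ β - 1 by linarith) (show 0 ≤ 2 - β by linarith),
            mul_nonneg (mul_nonneg (show 0 ≤ β - 1 by linarith) (show 0 ≤ 2 - β by linarith))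
              (show 0 ≤ γ by linarith),
            mul_nonneg (show 0 ≤ γ - 3 by linarith) (show 0 ≤ β - 1 by linarith),
            mul_nonneg (mul_nonneg (show 0 ≤ γ - 3 by linarith) (show 0 ≤ β - 1 by linarith))
              (show 0 ≤ γ by linarith)]
        linarith
      refine ih _ (by linarith) ?_ hstep
      push_cast at hb
      linarith
  obtain ⟨k, hk⟩ := exists_nat_gt (1 / η)
  refine key k 2 le_rfl ?_ h
  rw [div_lt_iff₀ hη0] at hk
  linarith

theorem mod_of_Pr {r γ : ℝ} (hr0 : 0 < r) (hr : r ^ 2 = 2) (hγ : 3 < γ) :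
    ∀ (k : ℕ) (p n : Type) [Fintype p] [Fintype n] [DecidableEq p] [DecidableEq n]
      (B : Matrix p n T), PrX ϑ k p n B → Mod ϑ r γ 1 B := by
  intro k
  induction k with
  | zero =>
    intro p n _ _ _ _ B h
    exact mod_reduce ϑ hr0 hr hγ B (mod_base ϑ hr0 hr hγ.le B h)
  | succ k ih =>
    intro p n _ _ _ _ B h
    obtain ⟨r', i1, i2, P, C, hP, hC, rfl⟩ := h
    have h1 := ih r' n C hC
    have h2 : γ - 2 / (γ - 1) ≥ 2 := by
      have h3 : 0 < γ - 1 := by linarith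
      have : 2 / (γ - 1) ≤ 1 := by rw [div_le_one h3]; linarith
      linarith
    have h3 := mod_step ϑ hr0 hr (by linarith) (by linarith) P hP C h1
    refine mod_reduce ϑ hr0 hr hγ _ (Mod.mono ϑ h3 ?_)
    rw [div_le_iff₀ (by linarith)]
    linarith

theorem mod_all (hϑ : Function.Injective ϑ)
    (hgen : AddSubgroup.closure {x : T | ∃ g r, ϑ x = MonoidAlgebra.single g r} = ⊤)
    {r γ : ℝ} (hr0 : 0 < r) (hr : r ^ 2 = 2) (hγ : 3 < γ)
    (B : Matrix p n T) : Mod ϑ r γ 1 B := by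
  obtain ⟨k, hk⟩ := PrX_all ϑ hϑ hgen B
  exact mod_of_Pr ϑ hr0 hr hγ k p n B hk

end mod

end Pool.Agent.N510.CT.Gr
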