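import Pool.Agent.TH6.PF.PGen
import Pool.Agent.TH6.PF.PK
import Pool.Agent.N510.LT.UMod
import Pool.Agent.N510.CT.Struct

set_option autoImplicit false
set_option linter.unusedSectionVars false
set_option linter.style.haveILetI false

/-! Invertible matrices over the group ring of a ring at the norm `3 / √2` and above. -/

namespace Pool.Agent.N510.CT

open Matrix TH57.Thr TH6.LF TH6.PF

section below

variable {R : Type} [Ring R] {G : Type} [Group G] {κ : Type} [Fintype κ] [DecidableEq κ]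

/-- **Invertible matrices with thin support pattern.** -/
theorem thin_below2 (A : (Matrix κ κ (MonoidAlgebra R G))ˣ) (c : ℝ) (hc0 : 0 < c)
    (hc : c ^ 2 ≤ 9 / 2) (hA : ThinLE A.val c) :
    A ∈ VCGen R G κ ∧
    ∃ (ρ σ : κ → κ ⊕ κ) (u v : κ → G) (C : κ ⊕ κ → Subgroup G)
      (θ : ∀ a, Matrix {i // ρ i = a} {j // σ j = a} (MonoidAlgebra R (C a)))
      (η : ∀ a, Matrix {j // σ j = a} {i // ρ i = a} (MonoidAlgebra R (C a))),
      (∀ a, IsVC (C a)) ∧ (∀ a, θ a * η a = 1 ∧ η a * θ a = 1) ∧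
      (dmU R u).val * A.val * (dmU R v)⁻¹.val = blockSum ρ σ C θ := by
  obtain ⟨r, w, C, hC, hst⟩ := structure_vc2 (pat A.val) c hc0 hc hA
  set ρ : κ → κ ⊕ κ := fun i => r (Sum.inl i) with hρ
  set σ : κ → κ ⊕ κ := fun j => r (Sum.inr j) with hσ
  set u : κ → G := fun i => w (Sum.inl i) with hu
  set v : κ → G := fun j => w (Sum.inr j) with hv
  set B : (Matrix κ κ (MonoidAlgebra R G))ˣ := dmU R u * A * (dmU R v)⁻¹ with hBd
  have hBs : ∀ i j g, (B.val i j).coeff g ≠ 0 → ρ i = σ j ∧ g ∈ C (ρ i) := by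
    intro i j g hg
    rw [hBd, Units.val_mul, Units.val_mul, coeff_dmU] at hg
    have h1 := hst i j _ ((pat_ne _ _ _ _).2 hg)
    refine ⟨h1.1, ?_⟩
    have h2 := h1.2
    have h3 : w (Sum.inl i) * ((u i)⁻¹ * g * v j) * (w (Sum.inr j))⁻¹ = g := by
      rw [hu, hv]; group
    rwa [h3] at h2
  refine ⟨?_, ρ, σ, u, v, C, blk ρ σ C B.val, blk σ ρ C B⁻¹.val, hC, fun a =>
    ⟨blk_mul ρ σ C _ _ B.mul_inv hBs a, blk_mul' ρ σ C _ _ B.inv_mul hBs a⟩, ?_⟩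
  · have h1 := block_mem C hC ρ σ B hBs
    have h2 : A = (dmU R u)⁻¹ * B * dmU R v := by rw [hBd]; group
    rw [h2]
    exact mul_mem (mul_mem (inv_mem (dmU_mem u)) h1) (dmU_mem v)
  · rw [← Units.val_mul, ← Units.val_mul, ← hBd]
    exact (blockSum_blk ρ σ C B.val hBs).symm

/-- **Invertible integral matrices of small norm.** -/
theorem small_below2 (A : (Matrix κ κ (MonoidAlgebra ℤ G))ˣ) (c : ℝ) (hc0 : 0 < c)
    (hc : c ^ 2 ≤ 9 / 2) (hA : NormLE A.val c) :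
    A ∈ VCGen ℤ G κ ∧
    ∃ (ρ σ : κ → κ ⊕ κ) (u v : κ → G) (C : κ ⊕ κ → Subgroup G)
      (θ : ∀ a, Matrix {i // ρ i = a} {j // σ j = a} (MonoidAlgebra ℤ (C a)))
      (η : ∀ a, Matrix {j // σ j = a} {i // ρ i = a} (MonoidAlgebra ℤ (C a))),
      (∀ a, IsVC (C a)) ∧ (∀ a, θ a * η a = 1 ∧ η a * θ a = 1) ∧
      (dmU ℤ u).val * A.val * (dmU ℤ v)⁻¹.val = blockSum ρ σ C θ := by
  obtain ⟨r, w, C, hC, hst⟩ := structure_vc2 A.val c hc0 hc hA
  set ρ : κ → κ ⊕ κ := fun i => r (Sum.inl i) with hρ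
  set σ : κ → κ ⊕ κ := fun j => r (Sum.inr j) with hσ
  set u : κ → G := fun i => w (Sum.inl i) with hu
  set v : κ → G := fun j => w (Sum.inr j) with hv
  set B : (Matrix κ κ (MonoidAlgebra ℤ G))ˣ := dmU ℤ u * A * (dmU ℤ v)⁻¹ with hBd
  have hBs : ∀ i j g, (B.val i j).coeff g ≠ 0 → ρ i = σ j ∧ g ∈ C (ρ i) := by
    intro i j g hg
    rw [hBd, Units.val_mul, Units.val_mul, coeff_dmU] at hg
    have h1 := hst i j _ hg
    refine ⟨h1.1, ?_⟩
    have h2 := h1.2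
    have h3 : w (Sum.inl i) * ((u i)⁻¹ * g * v j) * (w (Sum.inr j))⁻¹ = g := by
      rw [hu, hv]; group
    rwa [h3] at h2
  refine ⟨?_, ρ, σ, u, v, C, blk ρ σ C B.val, blk σ ρ C B⁻¹.val, hC, fun a =>
    ⟨blk_mul ρ σ C _ _ B.mul_inv hBs a, blk_mul' ρ σ C _ _ B.inv_mul hBs a⟩, ?_⟩
  · have h1 := block_mem C hC ρ σ B hBs
    have h2 : A = (dmU ℤ u)⁻¹ * B * dmU ℤ v := by rw [hBd]; group
    rw [h2]
    exact mul_mem (mul_mem (inv_mem (dmU_mem u)) h1) (dmU_mem v)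
  · rw [← Units.val_mul, ← Units.val_mul, ← hBd]
    exact (blockSum_blk ρ σ C B.val hBs).symm

end below

open Pool.Agent.N510.LT

variable {R : Type} [Ring R] {G : Type} [Group G]

theorem sthin_red {ι : Type} [Fintype ι] [DecidableEq ι] [Nontrivial R] {S : Set R}
    (hS : Gens S)
    (A : (Matrix ι ι (MonoidAlgebra R G))ˣ) (c : ℝ) (hc : 9 / 2 < c ^ 2) :
    ∃ (q : Type) (_ : Fintype q) (_ : DecidableEq q)
      (C : (Matrix (ι ⊕ q) (ι ⊕ q) (MonoidAlgebra R G))ˣ),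
      C ∈ commutator (Matrix (ι ⊕ q) (ι ⊕ q) (MonoidAlgebra R G))ˣ ∧
      CS S (fromBlocks A.val 0 0 1 * C.val) ∧ ThinLE (fromBlocks A.val 0 0 1 * C.val) c := by
  have hr0 : 0 < Real.sqrt 2 := Real.sqrt_pos.2 two_pos
  have hr : Real.sqrt 2 ^ 2 = 2 := Real.sq_sqrt two_pos.le
  set r := Real.sqrt 2 with hrd
  have hc0 : 0 < |c| := by
    rw [abs_pos]; rintro rfl; norm_num at hc
  have hγ : 3 < |c| * r := by
    have h1 : 3 ^ 2 < (|c| * r) ^ 2 := by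
      rw [mul_pow, sq_abs, hr]; linarith
    exact lt_of_pow_lt_pow_left₀ 2 (by positivity) h1
  obtain ⟨q, i1, i2, X, Y, Z, W, hZ, hZW, hWZ, hB, hcard, sX, sY, sZ, hN⟩ :=
    LT.mod_all hS hr0 hr hγ A.val
  obtain ⟨C, hC1, hC2⟩ := model_fact hcard A X Y Z W hZ hZW
  refine ⟨q, i1, i2, C, hC1, ?_⟩
  have h0 : A.val + X * W * Y = 0 := by rw [← hB]; simp
  rw [hC2, h0]
  refine ⟨CS_fromBlocks (CS_zero S) sX sY sZ, ?_⟩
  have hNc : NormLE (pat (fromBlocks 0 X Y Z)) |c| := by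
    refine normLE_of_ip _ |c| hc0 fun v v' => ?_
    rw [ip_blocks]
    have h1 := hN (v ∘ Sum.inl) (v' ∘ Sum.inl) (v' ∘ Sum.inr) (v ∘ Sum.inr)
    have n1 := normSq_nonneg (v ∘ Sum.inl)
    have n2 := normSq_nonneg (v' ∘ Sum.inl)
    refine le_of_mul_le_mul_left ?_ hr0
    rw [normSq_sum v, normSq_sum v']
    nlinarith
  intro v
  have := hNc v
  rwa [sq_abs] at this


theorem sthin_red_fin [Nontrivial R] {S : Set R} (hS : Gens S) {n : ℕ}
    (A : (Matrix (Fin n) (Fin n) (MonoidAlgebra R G))ˣ) (c : ℝ) (hc : 9 / 2 < c ^ 2) :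
    ∃ (m : ℕ) (C : (Matrix (Fin n ⊕ Fin m) (Fin n ⊕ Fin m) (MonoidAlgebra R G))ˣ),
      C ∈ commutator (Matrix (Fin n ⊕ Fin m) (Fin n ⊕ Fin m) (MonoidAlgebra R G))ˣ ∧
      CS S (fromBlocks A.val 0 0 1 * C.val) ∧ ThinLE (fromBlocks A.val 0 0 1 * C.val) c := by
  obtain ⟨q, iq1, iq2, C, hC, hs, hN⟩ := sthin_red hS A c hc
  let e : Fin (Fintype.card q) ≃ q := (Fintype.equivFin q).symm
  let e' : Fin n ⊕ Fin (Fintype.card q) ≃ Fin n ⊕ q := Equiv.sumCongr (Equiv.refl _) e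
  have h2 : (Units.map (re e') C).val = C.val.submatrix e' e' := rfl
  have h3 : (fromBlocks A.val 0 0 1 : Matrix (Fin n ⊕ Fin (Fintype.card q)) _ (MonoidAlgebra R G))
      = (fromBlocks A.val 0 0 1 : Matrix (Fin n ⊕ q) _ (MonoidAlgebra R G)).submatrix e' e' := by
    ext1 i j
    rcases i with i | i <;> rcases j with j | j <;> simp [e', Matrix.one_apply]
  refine ⟨Fintype.card q, Units.map (re e') C, comm_re e' C hC, ?_⟩
  rw [h2, h3, Matrix.submatrix_mul_equiv]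
  exact ⟨CS_submatrix hs e' e', thinLE_re e' _ c hN⟩

end Pool.Agent.N510.CT
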