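import Pool.Agent.Y75.NK.Thm
import Pool.Agent.N510.CT.Fib
import Pool.Agent.N510.CT.FibUp

set_option autoImplicit false
set_option linter.unusedVariables false
set_option linter.style.haveILetI false

/-! Controlled classes in negative `K`-groups at the norm `3 / √2` and above. -/

namespace Pool.Agent.N510.CT

open CategoryTheory TH6.FB TH6.PF TH57.Thr Matrix Pool.Agent.Y75.NK

/-- For a homomorphism of groups `φ : E → G`: the projective module `Aⁿ e` over `A = R[E]` has a
presentation matrix `M` whose support is controlled over `G` by an integral matrix `B` which acts on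
`ℓ²(G)` with norm at most `|c|`. -/
def ControlledAt {R : Type} [Ring R] {E G : Type} [Group E] [Group G] (c : ℝ) (φ : E →* G)
    (e : Idem (MonoidAlgebra R E)) : Prop :=
  ∃ (p q : ℕ) (M : Matrix (Fin p) (Fin q) (MonoidAlgebra R E))
    (B : Matrix (Fin p) (Fin q) (MonoidAlgebra ℤ G)),
    Pres e M ∧ NormLE B c ∧ Ctrl φ B M

theorem mem_vcSub2 (c : ℝ) (hc0 : 0 < c) (hc : c ^ 2 ≤ 9 / 2) (R : Type) [Ring R] (m : ℕ) (G : GrpCat.{0})
    (e : Idem (MonoidAlgebra R ((EF m).obj G))) (h : ControlledAt c (prj m G) e) :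
    kclass R m G e ∈ vcSub R m G := by
  obtain ⟨p, q, M, B, ⟨α⟩, hB, hM⟩ := h
  obtain ⟨k, V, p', q', D, hV, hV2, ⟨β⟩, hpr⟩ :=
    ctrl_modules2 (prj m G) (prj_surj m G) (W e) p q M α B c hc0 hc hB hM
  have hWp : Module.Projective (MonoidAlgebra R ((EF m).obj G)) (W e) := by
    refine Module.Projective.of_split (W e).subtype e.e.vecMulLinear.rangeRestrict ?_
    apply LinearMap.ext
    rintro ⟨_, v, rfl⟩
    apply Subtype.ext
    change (v ᵥ* e.e) ᵥ* e.e = v ᵥ* e.e
    rw [Matrix.vecMul_vecMul, e.idem]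
  have hpr2 := hpr hWp
  have hY : ∀ b, ∃ Y : Matrix (Fin (q' b)) (Fin (p' b)) (MonoidAlgebra R (V b)),
      D b * Y * D b = D b := fun b =>
    regular_of_projective (D b) (Coker (D b)) (hpr2 b) (LinearEquiv.refl _ _)
  choose Y hY using hY
  let ι : ∀ b, MonoidAlgebra R (V b) →+* MonoidAlgebra R ((EF m).obj G) := fun b =>
    MonoidAlgebra.mapDomainRingHom R (V b).subtype
  have hY' : ∀ b, (D b).map (ι b) * (Y b).map (ι b) * (D b).map (ι b) = (D b).map (ι b) := by
    intro b
    rw [← Matrix.map_mul, ← Matrix.map_mul, hY b]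
  have h1 : cls e = ∑ b, K0.map (ι b) (cls (regIdem (D b) (Y b) (hY b))) := by
    rw [cls_of_coker e k p' q' (fun b => (D b).map (ι b)) (fun b => (Y b).map (ι b)) hY' β]
    refine Finset.sum_congr rfl fun b _ => ?_
    rw [K0.map_cls, regIdem_map (ι b) (D b) (Y b) (hY b) (hY' b)]
  let κ : K0 (MonoidAlgebra R ((EF m).obj G)) →+ (Kneg m).obj ((gr R).obj G) :=
    ((kclT R m).app G).hom
  change κ (cls e) ∈ vcSub R m G
  rw [h1, map_sum]
  refine AddSubgroup.sum_mem _ fun b _ => ?_
  obtain ⟨ν, hν⟩ := factor m G (V b)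
  let f : GrpCat.of ((V b).map (prj m G)) ⟶ G := GrpCat.ofHom ((V b).map (prj m G)).subtype
  let x : K0 ((gr R).obj ((EF m).obj (GrpCat.of ((V b).map (prj m G))))) :=
    K0.map (MonoidAlgebra.mapDomainRingHom R ν) (cls (regIdem (D b) (Y b) (hY b)))
  have h2 : K0.map (ι b) (cls (regIdem (D b) (Y b) (hY b))) =
      K0.map ((gr R).map ((EF m).map f)).hom x := by
    have h3 : ι b = ((gr R).map ((EF m).map f)).hom.comp
        (MonoidAlgebra.mapDomainRingHom R ν) := by
      have h4 : ((EF m).map f).hom.comp ν = (V b).subtype := MonoidHom.ext hν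
      change MonoidAlgebra.mapDomainRingHom R (V b).subtype =
        (MonoidAlgebra.mapDomainRingHom R ((EF m).map f).hom).comp
          (MonoidAlgebra.mapDomainRingHom R ν)
      rw [← MonoidAlgebra.mapDomainRingHom_comp, h4]
    rw [h3]
    exact DFunLike.congr_fun (K0.map_comp ((gr R).map ((EF m).map f)).hom
      (MonoidAlgebra.mapDomainRingHom R ν)) _
  have h5 := congrArg (fun z => z.hom x) ((kclT R m).naturality f)
  have h6 : κ (K0.map (ι b) (cls (regIdem (D b) (Y b) (hY b)))) =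
      ((gr R ⋙ Kneg m).map f).hom (((kclT R m).app _).hom x) := (congrArg κ h2).trans h5
  rw [h6]
  exact AddSubgroup.mem_iSup_of_mem
    (⟨(V b).map (prj m G), hV b, fun h => hV2 h b⟩ :
      {V : Subgroup G // IsVC V ∧ (TF G → IsCyclic V)}) ⟨_, rfl⟩

theorem eq_zero2 (c : ℝ) (hc0 : 0 < c) (hc : c ^ 2 ≤ 9 / 2) (R : Type) [Ring R] (m : ℕ) (G : GrpCat.{0}) (hG : TF G)
    (hR : ∀ C : GrpCat.{0}, IsCyclic C → TF C → Subsingleton ((Kneg m).obj ((gr R).obj C)))
    (e : Idem (MonoidAlgebra R ((EF m).obj G))) (h : ControlledAt c (prj m G) e) :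
    kclass R m G e = 0 := by
  have h1 : vcSub R m G = ⊥ := by
    unfold vcSub
    rw [iSup_eq_bot]
    rintro ⟨V, hV, hV2⟩
    rw [eq_bot_iff]
    rintro _ ⟨x, rfl⟩
    have h2 : TF (GrpCat.of V) := fun g k hk h => Subtype.ext
      (hG g.1 k hk (by simpa using congrArg Subtype.val h))
    have h3 : x = 0 := @Subsingleton.elim _ (hR (GrpCat.of V) (hV2 hG) h2) _ _
    rw [h3, map_zero]
    exact AddSubgroup.zero_mem _
  have h2 := mem_vcSub2 c hc0 hc R m G e h
  rw [h1] at h2
  exact h2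


theorem EF_iso : ∀ (m : ℕ) (G : GrpCat.{0}), ∃ (H : Type) (_ : Group H)
    (ψ : (EF m).obj G ≃* G × H), ∀ x, (ψ x).1 = prj m G x
  | 0, G => ⟨Unit, inferInstance,
      { toFun := fun x => (x, ())
        invFun := fun x => x.1
        left_inv := fun _ => rfl
        right_inv := fun _ => rfl
        map_mul' := fun _ _ => rfl }, fun _ => rfl⟩
  | m + 1, G => by
    obtain ⟨H, _, ψ, hψ⟩ := EF_iso m (tz.obj G)
    let χ : (tz.obj G) × H ≃* G × (Multiplicative ℤ × H) :=
      { toFun := fun x => (x.1.2, (x.1.1, x.2))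
        invFun := fun x => ((x.2.1, x.1), x.2.2)
        left_inv := fun _ => rfl
        right_inv := fun _ => rfl
        map_mul' := fun _ _ => rfl }
    exact ⟨Multiplicative ℤ × H, inferInstance, ψ.trans χ, fun x => congrArg Prod.snd (hψ x)⟩

theorem above_negK (c : ℝ) (hc : 9 / 2 < c ^ 2) (R : Type) [Ring R] (m : ℕ) (G : GrpCat.{0})
    (e : Idem (MonoidAlgebra R ((EF m).obj G))) : ControlledAt c (prj m G) e := by
  obtain ⟨H, _, ψ, hψ⟩ := EF_iso m G
  have hpr : (MonoidHom.fst G H).comp ψ.toMonoidHom = prj m G := MonoidHom.ext hψ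
  cases subsingleton_or_nontrivial R with
  | inl hR =>
    haveI : Subsingleton (MonoidAlgebra R ((EF m).obj G)) :=
      ⟨fun x y => by ext g; exact Subsingleton.elim _ _⟩
    haveI : Subsingleton (W e) := Module.subsingleton (MonoidAlgebra R ((EF m).obj G)) _
    haveI : Subsingleton (Coker (0 : Matrix (Fin 0) (Fin 0) (MonoidAlgebra R ((EF m).obj G)))) :=
      Module.subsingleton (MonoidAlgebra R ((EF m).obj G)) _
    refine ⟨0, 0, 0, 0, ⟨LinearEquiv.ofSubsingleton _ _⟩, ?_, fun i => i.elim0⟩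
    intro v
    have h1 : ∀ w : Fin 0 → MonoidAlgebra ℝ G, normSq w = 0 := fun w => by
      unfold normSq
      exact Fintype.sum_empty _
    rw [h1, h1, mul_zero]
  | inr hR =>
    have hWp : Module.Projective (MonoidAlgebra R ((EF m).obj G)) (W e) := by
      refine Module.Projective.of_split (W e).subtype e.e.vecMulLinear.rangeRestrict ?_
      apply LinearMap.ext
      rintro ⟨_, v, rfl⟩
      apply Subtype.ext
      change (v ᵥ* e.e) ᵥ* e.e = v ᵥ* e.e
      rw [Matrix.vecMul_vecMul, e.idem]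
    haveI : Module.Finite (MonoidAlgebra R ((EF m).obj G)) (W e) :=
      Module.Finite.range e.e.vecMulLinear
    have hfp : Module.FinitePresentation (MonoidAlgebra R ((EF m).obj G)) (W e) :=
      Module.finitePresentation_of_projective _ _
    obtain ⟨p, q, M, B, -, h2, h3, h4⟩ := ctrl_pres (R := R) (S := Set.univ)
      ⟨trivial, fun _ _ => trivial, by simp⟩ ψ (W e) hfp c hc
    rw [hpr] at h3
    exact ⟨p, q, M, B, h4, h2, h3⟩

end Pool.Agent.N510.CT
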