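import Pool.Agent.TH6.CR.Int
import Pool.Agent.N510.CT.Sym

set_option autoImplicit false
set_option linter.unusedSectionVars false
set_option linter.unusedVariables false
set_option linter.style.haveILetI false

/-! Quadratic Poincaré complexes with cones of norm at most `3 / √2`. -/

namespace Pool.Agent.N510.CT

open Matrix TH57.Thr TH6.LF TH6.PF TH6.CX Subgroup SimpleGraph

section inv

variable {G : Type} [Group G] {κ : Type} (br : κ → κ) (hbr : ∀ i, br (br i) = i)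
  (A : Matrix κ κ (MonoidAlgebra ℤ G))
  (hsym : ∀ i j h, (A i j).coeff h ≠ 0 → (A j i).coeff h⁻¹ ≠ 0)
  (hbA : ∀ i j h, (A i j).coeff h ≠ 0 → (A (br i) (br j)).coeff h ≠ 0)

theorem st3_vc2 [Fintype κ] [DecidableEq κ]
    (c : ℝ) (hc0 : 0 < c) (hc : c ^ 2 ≤ 9 / 2) (hA : NormLE A c) (i : κ) :
    IsVC (st3 br hbr A hsym hbA i) := by
  classical
  have hle : stb A hsym i ≤ st3 br hbr A hsym hbA i := fun g hg => Or.inl hg
  refine isVC_of_relIndex (stb A hsym i) (st3 br hbr A hsym hbA i) hle ?_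
    (stb_vc2 A hsym c hc0 hc hA i)
  have hfin : ((stb A hsym i).subgroupOf (st3 br hbr A hsym hbA i)).FiniteIndex := by
    have hkey : ∀ s t : st3 br hbr A hsym hbA i, s.1 ∉ stb A hsym i →
        t.1 ∉ stb A hsym i → (s.1)⁻¹ * t.1 ∈ stb A hsym i := by
      have aux : ∀ s : st3 br hbr A hsym hbA i, s.1 ∉ stb A hsym i →
          Rl A (1, i) (tb br (s.1, i)) := by
        intro s hs
        rcases s.2 with h | h
        · exact absurd h hs
        · exact h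
      intro s t hs ht
      have h1 := Rl.trans A hsym (Rl.symm A hsym (aux s hs)) (aux t ht)
      have h2 := Rl_tb br A hbA h1
      rw [tb_tb br hbr, tb_tb br hbr] at h2
      have h3 := Rl.mv A (s.1)⁻¹ h2
      simp only [inv_mul_cancel] at h3
      exact h3
    rw [Subgroup.finiteIndex_iff_finite_quotient]
    refine Finite.of_injective (β := Prop)
      (fun x : (st3 br hbr A hsym hbA i) ⧸
          ((stb A hsym i).subgroupOf (st3 br hbr A hsym hbA i)) =>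
        x = QuotientGroup.mk 1) ?_
    intro x y hxy
    induction x using QuotientGroup.induction_on with | H s => ?_
    induction y using QuotientGroup.induction_on with | H t => ?_
    simp only [eq_iff_iff] at hxy
    rw [eq_comm (a := (QuotientGroup.mk s : _ ⧸ _)),
      eq_comm (a := (QuotientGroup.mk t : _ ⧸ _))] at hxy
    rw [QuotientGroup.eq, QuotientGroup.eq] at hxy
    simp only [inv_one, one_mul, mem_subgroupOf] at hxy
    rw [QuotientGroup.eq, mem_subgroupOf]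
    by_cases h : s.1 ∈ stb A hsym i
    · exact mul_mem (inv_mem h) (hxy.1 h)
    · exact hkey s t h (fun h' => h (hxy.2 h'))
  exact hfin.index_ne_zero

/-- The structure theorem for thin symmetric patterns with an involution. -/
theorem sym_br_structure2 [Fintype κ] [DecidableEq κ] (br : κ → κ) (hbr : ∀ i, br (br i) = i)
    (A : Matrix κ κ (MonoidAlgebra ℤ G))
    (hsym : ∀ i j h, (A i j).coeff h ≠ 0 → (A j i).coeff h⁻¹ ≠ 0)
    (hbA : ∀ i j h, (A i j).coeff h ≠ 0 → (A (br i) (br j)).coeff h ≠ 0)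
    (c : ℝ) (hc0 : 0 < c) (hc : c ^ 2 ≤ 9 / 2) (hA : NormLE A c) :
    ∃ (ρ : κ → κ) (u : κ → G) (C : κ → Subgroup G),
      (∀ b, IsVC (C b)) ∧ (∀ i, ρ (br i) = ρ i) ∧ (∀ i, u (br i) = u i) ∧
      ∀ i j h, (A i j).coeff h ≠ 0 → ρ i = ρ j ∧ u i * h * (u j)⁻¹ ∈ C (ρ i) := by
  classical
  let st : Setoid κ :=
    { r := fun p q => ∃ g : G, R3 br A (1, p) (g, q)
      iseqv := by
        refine ⟨fun p => ⟨1, R3.refl br A _⟩, ?_, ?_⟩
        · rintro p q ⟨g, hg⟩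
          refine ⟨g⁻¹, ?_⟩
          have := R3.mv br A g⁻¹ hg
          simp only [mul_one, inv_mul_cancel] at this
          exact R3.symm br hbr A hsym hbA this
        · rintro p q r ⟨g, hg⟩ ⟨h, hh⟩
          refine ⟨g * h, R3.trans br hbr A hsym hbA hg ?_⟩
          have := R3.mv br A g hh
          simpa only [mul_one] using this }
  let ρ : κ → κ := fun p => (Quotient.mk st p).out
  have hρ : ∀ p, ∃ g : G, R3 br A (1, ρ p) (g, p) := fun p =>
    Quotient.exact (Quotient.out_eq (Quotient.mk st p))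
  have hρbr : ∀ p, ρ (br p) = ρ p := by
    intro p
    have h1 : Quotient.mk st (br p) = Quotient.mk st p := by
      apply Quotient.sound
      refine ⟨1, ?_⟩
      exact R3.symm br hbr A hsym hbA ((R3_tb br hbr A (q := (1, p))).2 (R3.refl br A _))
    simp only [ρ, h1]
  let u : κ → G := fun p => Classical.epsilon fun g => R3 br A (1, ρ p) (g, p)
  have hu : ∀ p, R3 br A (1, ρ p) (u p, p) := fun p => Classical.epsilon_spec (hρ p)
  have hubr : ∀ p, u (br p) = u p := by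
    intro p
    have h1 : (fun g => R3 br A (1, ρ (br p)) (g, br p)) = fun g => R3 br A (1, ρ p) (g, p) := by
      funext g
      rw [hρbr]
      exact propext (R3_tb br hbr A (q := (g, p)))
    simp only [u, h1]
  refine ⟨ρ, u, fun b => st3 br hbr A hsym hbA b,
    fun b => st3_vc2 br hbr A hsym hbA c hc0 hc hA _, hρbr, hubr, ?_⟩
  intro i j h hne
  have hadj : R3 br A (1, i) (h, j) := by
    left; right
    apply SimpleGraph.Adj.reachable
    rw [gr_adj]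
    simp only [wt]
    simpa using hne
  have heq : ρ i = ρ j := by
    have : Quotient.mk st i = Quotient.mk st j := Quotient.sound ⟨h, hadj⟩
    simp only [ρ, this]
  refine ⟨heq, ?_⟩
  rw [mem_st3]
  have h1 := hu i
  have h2 := R3.mv br A (u i) hadj
  have h3 := hu j
  rw [← heq] at h3
  have h4 := R3.mv br A (u i * h * (u j)⁻¹) h3
  simp only [mul_one, inv_mul_cancel_right] at h2 h4
  exact R3.trans br hbr A hsym hbA (R3.trans br hbr A hsym hbA h1 h2)
    (R3.symm br hbr A hsym hbA h4)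


end inv

end Pool.Agent.N510.CT

namespace TH6.CR.N510

open Matrix TH57.Thr TH6.LF TH6.PF TH6.CX Pool.Agent.N510.CT

section quad

variable {R : Type} [Ring R] [StarRing R] {G : Type} [Group G] {w : G →* ℤˣ} {ι : Type} [Fintype ι] [DecidableEq ι]

set_option maxHeartbeats 4000000 in
/-- **Quadratic Poincaré complexes with thin cones.** -/
theorem q_main2 {H : Matrix ι ι (MonoidAlgebra R G) → Matrix ι ι (MonoidAlgebra R G)}
    (hH : Halver w H) {deg : ι → ℕ} {n : ℕ} {d : Matrix ι ι (MonoidAlgebra R G)}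
    {ψ : ℕ → Matrix ι ι (MonoidAlgebra R G)} (h : IsQuadratic w deg n d ψ)
    (s₀ : Matrix (ι ⊕ ι) (ι ⊕ ι) (MonoidAlgebra R G))
    (hs₀ : IsCt (coneDeg deg n) (cone w deg n d ψ) s₀)
    (A : Matrix (ι ⊕ ι) (ι ⊕ ι) (MonoidAlgebra ℤ G))
    (hsym : ∀ i j h, (A i j).coeff h ≠ 0 → (A j i).coeff h⁻¹ ≠ 0)
    (hswap : ∀ i j h, (A i j).coeff h ≠ 0 → (A i.swap j.swap).coeff h ≠ 0)
    (hsub : ∀ i j h, (cone w deg n d ψ i j).coeff h ≠ 0 → (A i j).coeff h ≠ 0)
    (c : ℝ) (hc0 : 0 < c) (hc : c ^ 2 ≤ 9 / 2) (hthin : NormLE A c) :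
    ∃ (ρ : ι → ι ⊕ ι) (u : ι → G) (C : ι ⊕ ι → Subgroup G)
      (ψ' χ : ℕ → Matrix ι ι (MonoidAlgebra R G))
      (s : Matrix (ι ⊕ ι) (ι ⊕ ι) (MonoidAlgebra R G)),
      (∀ b, IsVC (C b)) ∧
      InBlocks ρ C (cu (dmU R u) d) ∧ (∀ k, InBlocks ρ C (ψ' k)) ∧
      IsQuadratic w deg n (cu (dmU R u) d) ψ' ∧
      IsCt (coneDeg deg n) (cone w deg n (cu (dmU R u) d) ψ') s ∧ InBlocks (Sum.elim ρ ρ) C s ∧
      (∀ k i j, χ k i j ≠ 0 → deg i + deg j + k = n + 1) ∧
      ∀ k, cq w (dmU R u) (ψ k) = ψ' k + qbd w deg n (cu (dmU R u) d) χ k := by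
  classical
  set K := cone w deg n d ψ with hK
  obtain ⟨ρ₀, u₀, C, hC, hρ, hu, hst⟩ := sym_br_structure2 (Sum.swap : ι ⊕ ι → ι ⊕ ι)
    Sum.swap_swap A hsym hswap c hc0 hc hthin
  let ρ : ι → ι ⊕ ι := fun i => ρ₀ (Sum.inl i)
  let u : ι → G := fun i => u₀ (Sum.inl i)
  have hρr : ∀ i, ρ₀ (Sum.inr i) = ρ i := fun i => hρ (Sum.inl i)
  have hur : ∀ i, u₀ (Sum.inr i) = u i := fun i => hu (Sum.inl i)
  have hKc : ∀ p q g, (K p q).coeff g ≠ 0 → ρ₀ p = ρ₀ q ∧ u₀ p * g * (u₀ q)⁻¹ ∈ C (ρ₀ p) :=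
    fun p q g hne => hst p q g (hsub p q g hne)
  set Φ := ψ 0 + tw w deg (ψ 0) with hΦ
  have hgrp : ∀ (a b g : G), a * (a⁻¹ * g * b) * b⁻¹ = g := fun a b g => by group
  have cd : ∀ (M : Matrix ι ι (MonoidAlgebra R G)) (i j : ι) (g : G),
      (cu (dmU R u) M i j).coeff g = (M i j).coeff ((u i)⁻¹ * g * u j) :=
    fun M i j g => coeff_dmU u u M i j g
  have hdB : InBlocks ρ C (cu (dmU R u) d) := by
    intro i j g hne
    rw [cd] at hne
    have h1 := hKc (Sum.inl i) (Sum.inl j) _ hne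
    exact ⟨h1.1, by have := h1.2; rwa [hgrp] at this⟩
  have hΦB : InBlocks ρ C (cq w (dmU R u) Φ) := by
    intro i j g hne
    rw [coeff_cq] at hne
    have hne' : (Φ i j).coeff ((u i)⁻¹ * g * u j) ≠ 0 := fun h0 => hne (by rw [h0, smul_zero])
    have h1 := hKc (Sum.inr i) (Sum.inl j) _ hne'
    rw [hρr, hur] at h1
    exact ⟨h1.1, by have := h1.2; rwa [hgrp] at this⟩
  have hQ1 := quadratic_cq u h
  have hQ2 := quadratic_tct ρ C hQ1 hdB
  have hQ3 := quadratic_sub hQ1 hQ2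
  set ψ' : ℕ → Matrix ι ι (MonoidAlgebra R G) :=
    fun k => tct ρ C (cq w (dmU R u) (ψ k)) with hψ'
  set δ : ℕ → Matrix ι ι (MonoidAlgebra R G) := fun k => cq w (dmU R u) (ψ k) - ψ' k with hδ
  have hΦ' : ψ' 0 + tw w deg (ψ' 0) = cq w (dmU R u) Φ := by
    rw [← tct_of_inBlocks ρ C _ hΦB, hΦ, cq_add, tct_add, ← tw_cq, tct_tw]
  have hδ0 : δ 0 + tw w deg (δ 0) = 0 := by
    change (cq w (dmU R u) (ψ 0) - ψ' 0) + tw w deg (cq w (dmU R u) (ψ 0) - ψ' 0) = 0
    rw [tw_sub, tw_cq]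
    have : cq w (dmU R u) (ψ 0) - ψ' 0 + (cq w (dmU R u) (tw w deg (ψ 0)) - tw w deg (ψ' 0))
        = cq w (dmU R u) (ψ 0 + tw w deg (ψ 0)) - (ψ' 0 + tw w deg (ψ' 0)) := by
      rw [cq_add]; abel
    rw [this, hΦ', hΦ, sub_self]
  have hδt : ∀ k, tct ρ C (δ k) = 0 := by
    intro k
    change tct ρ C (cq w (dmU R u) (ψ k) - tct ρ C (cq w (dmU R u) (ψ k))) = 0
    rw [tct_sub, tct_tct, sub_self]
  have hχ := chi_spec hH ρ C deg n (cu (dmU R u) d) δ hQ3 hdB hδt hδ0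
  -- the cone
  let U : ι ⊕ ι → G := Sum.elim u u
  let E : ι ⊕ ι → ℤˣ := Sum.elim 1 (fun i => w (u i))
  have hcone : cone w deg n (cu (dmU R u) d) ψ' = cu (dsu E U) K := by
    ext p q g
    rw [coeff_cu]
    rcases p with i | i <;> rcases q with j | j
    · change (cu (dmU R u) d i j).coeff g
        = (((1 : ℤˣ) : ℤ) * ((1 : ℤˣ) : ℤ)) • (d i j).coeff ((u i)⁻¹ * g * u j)
      rw [cd]
      simp
    · change (0 : R) = _ • (0 : R)
      rw [smul_zero]
    · change ((ψ' 0 + tw w deg (ψ' 0)) i j).coeff g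
        = (((w (u i) : ℤˣ) : ℤ) * ((1 : ℤˣ) : ℤ)) • (Φ i j).coeff ((u i)⁻¹ * g * u j)
      rw [hΦ', coeff_cq]
      simp
    · change ((-1 : ℤ) ^ (n + deg j) • sbar w (cu (dmU R u) d j i)).coeff g
        = (((w (u i) : ℤˣ) : ℤ) * ((w (u j) : ℤˣ) : ℤ)) •
          ((-1 : ℤ) ^ (n + deg j) • sbar w (d j i)).coeff ((u i)⁻¹ * g * u j)
      rw [coeff_zs, coeff_zs, coeff_sbar, coeff_sbar, cd]
      have e1 : (u j)⁻¹ * g⁻¹ * u i = ((u i)⁻¹ * g * u j)⁻¹ := by group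
      have e2 : ((w ((u i)⁻¹ * g * u j) : ℤˣ) : ℤ)
          = ((w (u i) : ℤˣ) : ℤ) * ((w g : ℤˣ) : ℤ) * ((w (u j) : ℤˣ) : ℤ) := by
        rw [map_mul, map_mul, Units.val_mul, Units.val_mul, w_inv]
      rw [e1, e2]
      simp only [smul_smul]
      congr 1
      have h1 := w_sq w (u i)
      have h2 := w_sq w (u j)
      linear_combination (-((-1 : ℤ) ^ (n + deg j) * ((w g : ℤˣ) : ℤ) * ((w (u j) : ℤˣ) : ℤ)
        * ((w (u j) : ℤˣ) : ℤ))) * h1 - ((-1 : ℤ) ^ (n + deg j) * ((w g : ℤˣ) : ℤ)) * h2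
  have hKB : InBlocks (Sum.elim ρ ρ) C (cu (dsu E U) K) := by
    intro p q g hne
    rw [coeff_cu] at hne
    have hne' : (K p q).coeff ((U p)⁻¹ * g * U q) ≠ 0 := fun h0 => hne (by rw [h0, smul_zero])
    have h1 := hKc p q _ hne'
    rcases p with i | i <;> rcases q with j | j
    · exact ⟨h1.1, by have := h1.2; rwa [show U (Sum.inl i) = u₀ (Sum.inl i) from rfl,
        show U (Sum.inl j) = u₀ (Sum.inl j) from rfl, hgrp] at this⟩
    · exact absurd rfl hne'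
    · rw [hρr, hur] at h1
      exact ⟨h1.1, by have := h1.2; rwa [show U (Sum.inr i) = u i from rfl,
        show U (Sum.inl j) = u₀ (Sum.inl j) from rfl, hgrp] at this⟩
    · rw [hρr, hρr, hur, hur] at h1
      exact ⟨h1.1, by have := h1.2; rwa [show U (Sum.inr i) = u i from rfl,
        show U (Sum.inr j) = u j from rfl, hgrp] at this⟩
  have hct := ct_cu E U hs₀
  have hct2 := tct_ct (coneDeg deg n) (Sum.elim ρ ρ) C (cu (dsu E U) K) (cu (dsu E U) s₀) hct hKB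
  refine ⟨ρ, u, C, ψ', chi w H deg n (cu (dmU R u) d) δ,
    tct (Sum.elim ρ ρ) C (cu (dsu E U) s₀), hC, hdB,
    fun k => tct_inBlocks ρ C _, hQ2, ?_, tct_inBlocks _ _ _,
    fun k => chi_degree hH deg n (cu (dmU R u) d) hQ3.boundary δ hQ3.degree k, ?_⟩
  · rw [hcone]
    exact hct2
  · intro k
    rw [← hχ k]
    change cq w (dmU R u) (ψ k) = ψ' k + (cq w (dmU R u) (ψ k) - ψ' k)
    abel

/-- The version for the symmetrised support pattern of the cone. -/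
theorem q_pat2 {H : Matrix ι ι (MonoidAlgebra R G) → Matrix ι ι (MonoidAlgebra R G)}
    (hH : Halver w H) {deg : ι → ℕ} {n : ℕ} {d : Matrix ι ι (MonoidAlgebra R G)}
    {ψ : ℕ → Matrix ι ι (MonoidAlgebra R G)} (h : IsQuadratic w deg n d ψ)
    (s₀ : Matrix (ι ⊕ ι) (ι ⊕ ι) (MonoidAlgebra R G))
    (hs₀ : IsCt (coneDeg deg n) (cone w deg n d ψ) s₀)
    (c : ℝ) (hc0 : 0 < c) (hc : c ^ 2 ≤ 9 / 2) (hthin : NormLE (symPat (cone w deg n d ψ)) c) :
    ∃ (ρ : ι → ι ⊕ ι) (u : ι → G) (C : ι ⊕ ι → Subgroup G)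
      (ψ' χ : ℕ → Matrix ι ι (MonoidAlgebra R G))
      (s : Matrix (ι ⊕ ι) (ι ⊕ ι) (MonoidAlgebra R G)),
      (∀ b, IsVC (C b)) ∧
      InBlocks ρ C (cu (dmU R u) d) ∧ (∀ k, InBlocks ρ C (ψ' k)) ∧
      IsQuadratic w deg n (cu (dmU R u) d) ψ' ∧
      IsCt (coneDeg deg n) (cone w deg n (cu (dmU R u) d) ψ') s ∧ InBlocks (Sum.elim ρ ρ) C s ∧
      (∀ k i j, χ k i j ≠ 0 → deg i + deg j + k = n + 1) ∧
      ∀ k, cq w (dmU R u) (ψ k) = ψ' k + qbd w deg n (cu (dmU R u) d) χ k := by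
  have key : ∀ (M : Matrix (ι ⊕ ι) (ι ⊕ ι) (MonoidAlgebra R G)) (p q : ι ⊕ ι) (g : G),
      (symPat M p q).coeff g ≠ 0 ↔ ((M p q).coeff g ≠ 0 ∨ (M q p).coeff g⁻¹ ≠ 0) := by
    intro M p q g
    rw [coeff_symPat]
    by_cases h1 : (M p q).coeff g = 0
    · rw [h1, ind_zero, zero_add, ind_ne]
      simp
    · rw [ind_of_ne h1]
      constructor
      · intro _; exact Or.inl h1
      · intro _
        by_cases h2 : (M q p).coeff g⁻¹ = 0
        · rw [h2, ind_zero]; norm_num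
        · rw [ind_of_ne h2]; norm_num
  apply q_main2 hH h s₀ hs₀ (symPat (cone w deg n d ψ)) ?_ ?_ ?_ c hc0 hc hthin
  · intro i j g hne
    rw [key] at hne ⊢
    rw [inv_inv]
    exact hne.symm
  · intro i j g hne
    rw [key] at hne ⊢
    exact cone_swap h i j g hne
  · intro i j g hne
    rw [key]
    exact Or.inl hne


end quad

section int

variable {G : Type} [Group G] {w : G →* ℤˣ} {ι : Type} [Fintype ι] [DecidableEq ι]

theorem q_norm2 {H : Matrix ι ι (MonoidAlgebra ℤ G) → Matrix ι ι (MonoidAlgebra ℤ G)}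
    (hH : Halver w H) {deg : ι → ℕ} {n : ℕ} {d : Matrix ι ι (MonoidAlgebra ℤ G)}
    {ψ : ℕ → Matrix ι ι (MonoidAlgebra ℤ G)} (h : IsQuadratic w deg n d ψ)
    (s₀ : Matrix (ι ⊕ ι) (ι ⊕ ι) (MonoidAlgebra ℤ G))
    (hs₀ : IsCt (coneDeg deg n) (cone w deg n d ψ) s₀)
    (c : ℝ) (hc0 : 0 < c) (hc : c ^ 2 ≤ 9 / 2) (hthin : NormLE (cone w deg n d ψ) c) :
    ∃ (ρ : ι → ι ⊕ ι) (u : ι → G) (C : ι ⊕ ι → Subgroup G)
      (ψ' χ : ℕ → Matrix ι ι (MonoidAlgebra ℤ G))
      (s : Matrix (ι ⊕ ι) (ι ⊕ ι) (MonoidAlgebra ℤ G)),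
      (∀ b, IsVC (C b)) ∧
      InBlocks ρ C (cu (dmU ℤ u) d) ∧ (∀ k, InBlocks ρ C (ψ' k)) ∧
      IsQuadratic w deg n (cu (dmU ℤ u) d) ψ' ∧
      IsCt (coneDeg deg n) (cone w deg n (cu (dmU ℤ u) d) ψ') s ∧ InBlocks (Sum.elim ρ ρ) C s ∧
      (∀ k i j, χ k i j ≠ 0 → deg i + deg j + k = n + 1) ∧
      ∀ k, cq w (dmU ℤ u) (ψ k) = ψ' k + qbd w deg n (cu (dmU ℤ u) d) χ k := by
  set K := cone w deg n d ψ with hK
  have hKb : IsBd (coneDeg deg n) K := cone_boundary h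
  have key : ∀ p q g, (K p q).coeff g ≠ 0 ∨ (K q p).coeff g⁻¹ ≠ 0 →
      ((K + adj K) p q).coeff g ≠ 0 := by
    intro p q g hne
    rw [coeff_add_adj]
    by_cases h1 : K p q = 0
    · rcases hne with h2 | h2
      · exact absurd (by rw [h1]; rfl) h2
      · rw [h1]
        simpa using h2
    · have h3 : K q p = 0 := by
        by_contra h3
        have h4 := hKb.degree p q h1
        have h5 := hKb.degree q p h3
        omega
      rcases hne with h2 | h2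
      · rw [h3]
        simpa using h2
      · exact absurd (by rw [h3]; rfl) h2
  have key' : ∀ p q g, ((K + adj K) p q).coeff g ≠ 0 →
      (K p q).coeff g ≠ 0 ∨ (K q p).coeff g⁻¹ ≠ 0 := by
    intro p q g hne
    by_contra hcon
    rw [not_or, not_not, not_not] at hcon
    apply hne
    rw [coeff_add_adj, hcon.1, hcon.2, add_zero]
  apply q_main2 hH h s₀ hs₀ (K + adj K) (sym_add_adj K) ?_ ?_ c hc0 hc
    (norm_sym K hKb.sq c hc0 hthin)
  · intro i j g hne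
    exact key _ _ _ (cone_swap h i j g (key' _ _ _ hne))
  · intro i j g hne
    exact key _ _ _ (Or.inl hne)


end int

end TH6.CR.N510
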